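import Pool.Agent.Y118.HG.Kver

/-!
# Conversions for the final statement
-/

set_option autoImplicit false
set_option maxHeartbeats 400000

open Matrix Polynomial NumberField

namespace Pool.Agent.Y118.HG

open Pool.Agent.Y118.HP

variable {n N : ℕ}

theorem er_of_inGap {a : Fin n → ℝ} (ha : StrictMono a) {m : Fin (n + 1)} {t : ℝ} (h : InGap a m t) :
    StrictMono (er a m t) := er_strictMono ha h

/-- relations of bounded degree over number fields of bounded degree -/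
def DG (F : Fin N → ℚ[X]) (c : Option (Fin N × Fin n × Fin n) → ℂ) (D d : ℕ) : Prop :=
  ∀ (K : Type) [Field K] [NumberField K] (φ : K →+* ℂ) (P : MvPolynomial (Option (Fin N × Fin n × Fin n)) K),
    Module.finrank ℚ K ≤ D → P.totalDegree ≤ d → (P.map φ).eval c = 0 →
    ∀ x ∈ TorF (n := n) F, (P.map φ).eval (pt x.1 x.2) = 0

theorem kfin (hn : Even n) (a : Fin N → Fin n → ℝ) (f : Fin N → ℚ[X])
    (hf : ∀ j, (f j).map (algebraMap ℚ ℝ) = ∏ i, (X - C (a j i))) (m : Fin N → Fin (n + 1))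
    (h0 : ∀ j, StrictMono (er (a j) (m j) 0)) (D d : ℕ) :
    ∃ c M : ℝ, 0 < c ∧ ∀ T : ℕ, 1 ≤ T → ∃ S : Finset (Fin N → ℕ), (S.card : ℝ) ≤ M * (T : ℝ) ^ ((N : ℝ) - c) ∧
      ∀ t : Fin N → ℕ, (∀ j, 1 ≤ t j ∧ t j ≤ T) → t ∉ S →
        (∀ j, StrictMono (er (a j) (m j) (1 / (t j : ℝ)))) ∧
        ((fun j => Matrix.of (cper (er (a j) (m j) (1 / (t j : ℝ))))), (2 * Real.pi * Complex.I : ℂ)) ∈
          TorF (n := n) (fun j => f j * (X - C (1 / (t j : ℚ)))) ∧
        DG (fun j => f j * (X - C (1 / (t j : ℚ))))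
          (pt (fun j => Matrix.of (cper (er (a j) (m j) (1 / (t j : ℝ))))) (2 * Real.pi * Complex.I)) D d := by
  have ha : ∀ j, StrictMono (a j) := fun j => (inGap_of_er (h0 j)).1
  have hg0 : ∀ j, InGap (a j) (m j) 0 := fun j => (inGap_of_er (h0 j)).2
  obtain ⟨c, hc, M, hmain⟩ := kver hn a ha m f hg0 hf D d
  refine ⟨c, M, hc, fun T hT => ?_⟩
  obtain ⟨S, hS1, hS2⟩ := hmain T hT
  refine ⟨S, hS1, fun t ht htS => ?_⟩
  obtain ⟨hgap, hP⟩ := hS2 t ht htS
  have hcast : ∀ j, (((1 / (t j : ℚ) : ℚ)) : ℝ) = 1 / (t j : ℝ) := fun j => by push_cast; rfl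
  have hpt : (fun j => Matrix.of (cper (er (a j) (m j) (1 / (t j : ℝ))))) =
      fun j => CM (a j) (m j) (((1 / (t j : ℚ) : ℚ)) : ℝ) := by
    funext j
    rw [hcast]
    rfl
  refine ⟨fun j => ?_, ?_, ?_⟩
  · have := er_of_inGap (ha j) (hgap j)
    rwa [hcast] at this
  · rw [TorF_eq, hpt]
    refine ⟨?_, fun j => CM_mem hn (ha j) (hf j) (hgap j)⟩
    have := Complex.I_ne_zero
    have h2 : (Real.pi : ℂ) ≠ 0 := by exact_mod_cast Real.pi_ne_zero
    exact mul_ne_zero (mul_ne_zero two_ne_zero h2) this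
  · intro K _ _ φ P hK hd hPv x hx
    rw [TorF_eq] at hx
    rw [hpt] at hPv
    have h1 := hP K hK φ P hd (by rw [MvPolynomial.aeval_eq_eval]; exact hPv) x hx
    rw [MvPolynomial.aeval_eq_eval] at h1
    exact h1

end Pool.Agent.Y118.HG
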