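import Pool.Agent.Y118.HG.Awt

/-!
# Windows for arbitrary families, the exceptional set is independent of the number field
-/

set_option autoImplicit false
set_option maxHeartbeats 400000

open Module
open scoped Pointwise

namespace Pool.Agent.Y118.HG

open Pool.Agent.Y916.Hil Pool.Agent.Y916.Gre Pool.Agent.Y916.Low Pool.Agent.Y916.Fld Pool.Agent.Y916.AW

/-- **The greedy choice, several sets of coefficients.** -/
theorem greedyU {ι κ : Type*} [DecidableEq ι] [DecidableEq κ] {y : ι → ℂ} {Co : κ → Set ℂ}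
    (h0 : ∀ k, (0 : ℂ) ∈ Co k) {δ : ℕ} (q r : ℕ) (adm : ι → Prop)
    (h : ∀ S : Finset ι, S.card < q → ∃ A : Finset ι, A.card ≤ r ∧ (∀ b ∈ A, adm b) ∧ Disjoint A S ∧
      ∃ k, Bad y (Co k) δ A) :
    ∃ (S B : Finset ι) (I : Finset κ), S.card = q ∧ S ⊆ B ∧ B.card ≤ q * r ∧ I.card ≤ q ∧ (∀ b ∈ B, adm b) ∧
      ∀ (K : IntermediateField ℚ ℂ) (V : Submodule K ℂ), V.FG → (1 : ℂ) ∈ V → (∀ k ∈ I, ∀ c ∈ Co k, c ∈ V ^ δ) →
      ∀ Θ : Finset ι, B ⊆ Θ → ∀ Δ : ℕ,
        finrank K ((V ⊔ Submodule.span K (y '' (Θ : Set ι))) ^ Δ : Submodule K ℂ)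
          ≤ δ ^ q * finrank K ((V ⊔ Submodule.span K (y '' ((Θ \ S : Finset ι) : Set ι))) ^ ((2 * δ + 1) ^ q * Δ) :
            Submodule K ℂ) := by
  suffices H : ∀ q' ≤ q, ∃ (S B : Finset ι) (I : Finset κ), S.card = q' ∧ S ⊆ B ∧ B.card ≤ q' * r ∧ I.card ≤ q' ∧
      (∀ b ∈ B, adm b) ∧
      ∀ (K : IntermediateField ℚ ℂ) (V : Submodule K ℂ), V.FG → (1 : ℂ) ∈ V → (∀ k ∈ I, ∀ c ∈ Co k, c ∈ V ^ δ) →
      ∀ Θ : Finset ι, B ⊆ Θ → ∀ Δ : ℕ,
        finrank K ((V ⊔ Submodule.span K (y '' (Θ : Set ι))) ^ Δ : Submodule K ℂ)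
          ≤ δ ^ q' * finrank K ((V ⊔ Submodule.span K (y '' ((Θ \ S : Finset ι) : Set ι))) ^ ((2 * δ + 1) ^ q' * Δ) :
            Submodule K ℂ) from H q le_rfl
  intro q'
  induction q' with
  | zero =>
    intro _
    refine ⟨∅, ∅, ∅, rfl, subset_rfl, by simp, by simp, by simp, ?_⟩
    intro K V _ _ _ Θ _ Δ
    rw [Finset.sdiff_empty, pow_zero, pow_zero, one_mul, one_mul]
  | succ q' ih =>
    intro hq
    obtain ⟨S, B, I, hS, hSB, hBr, hIr, hBa, hrk⟩ := ih (by omega)
    obtain ⟨A, hAr, hAa, hAS, k, hA⟩ := h S (by omega)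
    obtain ⟨A', hA', hbad, s, hs, hmin⟩ := exists_min hA
    have hsS : s ∉ S := Finset.disjoint_left.1 hAS (hA' hs)
    refine ⟨insert s S, A' ∪ B, insert k I, ?_, ?_, ?_, ?_, ?_, ?_⟩
    · rw [Finset.card_insert_of_notMem hsS, hS]
    · exact Finset.insert_subset (Finset.mem_union_left _ hs) (hSB.trans Finset.subset_union_right)
    · have h1 := Finset.card_union_le A' B
      have h2 := Finset.card_le_card hA'
      nlinarith
    · exact (Finset.card_insert_le _ _).trans (Nat.succ_le_succ hIr)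
    · intro b hb
      rcases Finset.mem_union.1 hb with hb | hb
      · exact hAa b (hA' hb)
      · exact hBa b hb
    · intro K V hV h1 hCo Θ hΘ Δ
      refine (hrk K V hV h1 (fun i hi => hCo i (Finset.mem_insert_of_mem hi)) Θ
        (Finset.subset_union_right.trans hΘ) Δ).trans ?_
      set Δ' := (2 * δ + 1) ^ q' * Δ with hΔ'
      set W : Submodule K ℂ := V ⊔ Submodule.span K (y '' ((Θ \ insert s S : Finset ι) : Set ι)) with hW
      have hWfg : W.FG := fg_aux hV y _
      have hVW : V ≤ W := le_sup_left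
      have hsplit : V ⊔ Submodule.span K (y '' ((Θ \ S : Finset ι) : Set ι)) = W ⊔ Submodule.span K {y s} := by
        rw [hW, sup_assoc, ← Submodule.span_union]
        congr 2
        have hsT : s ∈ Θ \ S := Finset.mem_sdiff.2 ⟨hΘ (Finset.mem_union_left _ hs), hsS⟩
        have e : Θ \ S = insert s (Θ \ insert s S) := by
          ext i
          simp only [Finset.mem_sdiff, Finset.mem_insert]
          constructor
          · rintro ⟨h3, h4⟩
            by_cases h5 : i = s
            · exact Or.inl h5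
            · exact Or.inr ⟨h3, fun h6 => h6.elim h5 h4⟩
          · rintro (rfl | ⟨h3, h4⟩)
            · exact Finset.mem_sdiff.1 hsT
            · exact ⟨h3, fun h5 => h4 (Or.inr h5)⟩
        rw [e, Finset.coe_insert, Set.image_insert_eq, Set.insert_eq, Set.union_comm]
      obtain ⟨a, c, ha1, haδ, hc, hca, hsum⟩ := step_eq (y := y) hbad hmin (h0 k) (V := W) (hVW h1)
        (fun c hc => pow_le_pow_left' hVW δ (hCo k (Finset.mem_insert_self k I) c hc)) (by
          intro i hi
          refine Submodule.mem_sup_right (Submodule.subset_span ⟨i, ?_, rfl⟩)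
          rw [Finset.mem_erase] at hi
          rw [Finset.mem_coe, Finset.mem_sdiff, Finset.mem_insert]
          refine ⟨hΘ (Finset.mem_union_left _ hi.2), ?_⟩
          rintro (h3 | h3)
          · exact hi.1 h3
          · exact Finset.disjoint_left.1 hAS (hA' hi.2) h3)
      have hst := alg_step hWfg (hVW h1) (y s) a ha1 c (2 * δ) hc hca hsum Δ'
      rw [hsplit]
      calc δ ^ q' * finrank K ((W ⊔ Submodule.span K {y s}) ^ Δ' : Submodule K ℂ)
          ≤ δ ^ q' * (δ * finrank K (W ^ ((2 * δ + 1) * Δ') : Submodule K ℂ)) :=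
            Nat.mul_le_mul_left _ (hst.trans (Nat.mul_le_mul_right _ haδ))
        _ = δ ^ (q' + 1) * finrank K (W ^ ((2 * δ + 1) ^ (q' + 1) * Δ) : Submodule K ℂ) := by
            rw [hΔ', ← mul_assoc, ← pow_succ, ← mul_assoc (2 * δ + 1), ← pow_succ']

/-- the compositum of finitely many fields of bounded degree -/
theorem compositum {d : ℕ} (I : Finset {K : IntermediateField ℚ ℂ // FiniteDimensional ℚ K ∧ finrank ℚ K ≤ d}) :
    ∃ L : IntermediateField ℚ ℂ, FiniteDimensional ℚ L ∧ finrank ℚ L ≤ d ^ I.card ∧ ∀ K ∈ I, K.1 ≤ L := by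
  classical
  induction I using Finset.induction_on with
  | empty =>
    refine ⟨⊥, inferInstance, ?_, by simp⟩
    rw [IntermediateField.finrank_bot]
    simp
  | insert K I hK ih =>
    obtain ⟨L, h1, h2, h3⟩ := ih
    have h4 := K.2.1
    refine ⟨L ⊔ K.1, inferInstance, ?_, ?_⟩
    · refine (IntermediateField.finrank_sup_le L K.1).trans ?_
      rw [Finset.card_insert_of_notMem hK, pow_succ]
      exact Nat.mul_le_mul h2 K.2.2
    · intro K' hK'
      rcases Finset.mem_insert.1 hK' with rfl | h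
      · exact le_sup_right
      · exact (h3 K' h).trans le_sup_left

/-- powers of spans over a larger field -/
theorem span_pow_field {K L : IntermediateField ℚ ℂ} (hKL : K ≤ L) {s : Set ℂ} {m : ℕ} {c : ℂ}
    (hc : c ∈ (Submodule.span K s) ^ m) : c ∈ (Submodule.span L s) ^ m := by
  rw [Submodule.span_pow] at hc ⊢
  refine Submodule.span_induction (p := fun c _ => c ∈ Submodule.span L (s ^ m)) ?_ ?_ ?_ ?_ hc
  · intro x hx
    exact Submodule.subset_span hx
  · exact Submodule.zero_mem _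
  · intro x y _ _ hx hy
    exact Submodule.add_mem _ hx hy
  · intro k x _ hx
    have : k • x = (⟨(k : ℂ), hKL k.2⟩ : L) • x := rfl
    rw [this]
    exact Submodule.smul_mem _ _ hx

/-- **Windows for arbitrary families, constants algebraic over `ℚ(w_T)`, all number fields of bounded degree** -/
theorem awu {σ υ : Type} [Fintype σ] [DecidableEq σ] [Fintype υ] [DecidableEq υ] (val : ℕ → ℕ → σ → ℂ)
    (hval : Inp val) (w : υ → ℂ) (T : Finset υ)
    (hT : ∀ j, IsAlgebraic (Algebra.adjoin ℚ (w '' (T : Set υ))) (w j)) (r d δ : ℕ) :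
    ∃ E : ℕ, ∀ H t : ℕ, (H + 2) ^ E ≤ t →
    ∃ S : Finset ℕ, S.card ≤ T.card ∧ ∀ g : Fin r → ℕ, Function.Injective g → (∀ i, 1 ≤ g i ∧ g i ≤ H ∧ g i ∉ S) →
      ∀ K : IntermediateField ℚ ℂ, FiniteDimensional ℚ K → finrank ℚ K ≤ d →
      ∀ P : MvPolynomial (υ ⊕ Fin r × σ) K, P.totalDegree ≤ δ →
      MvPolynomial.aeval (Sum.elim w fun p => val t (g p.1) p.2) P = 0 →
      MvPolynomial.aeval (Sum.elim (fun j => MvPolynomial.C (w j)) MvPolynomial.X) P
        = (0 : MvPolynomial (Fin r × σ) ℂ) := by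
  classical
  obtain ⟨A, B, hAB⟩ := dom w T hT Finset.univ
  set q : ℕ := T.card + 1 with hq
  set r' : ℕ := r * Fintype.card σ with hr'
  set N0 : ℕ := q * r' with hN0
  choose Ev hEv using fun N : ℕ => hval N ((N * Fintype.card σ) *
    ((d + 1) ^ q * (δ ^ (T.card + 1) * A) * ((B + 1) * (2 * δ + 1) ^ (T.card + 1) * (N * Fintype.card σ)) ^
      (N * Fintype.card σ - 1)))
  refine ⟨∑ N ∈ Finset.range (N0 + 1), Ev N, ?_⟩
  intro H t ht
  by_contra hcon
  push Not at hcon
  set y : ℕ × σ → ℂ := fun p => val t p.1 p.2 with hy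
  set Co : {K : IntermediateField ℚ ℂ // FiniteDimensional ℚ K ∧ finrank ℚ K ≤ d} → Set ℂ := fun K =>
    ((Submodule.span K.1 (insert (1 : ℂ) (Set.range w)) ^ δ : Submodule K.1 ℂ) : Set ℂ) with hCo
  obtain ⟨S, Bs, I, hS, hSB, hBr, hIr, hBa, hrk⟩ := greedyU (y := y) (Co := Co)
    (fun K => Submodule.zero_mem _) (δ := δ) q r' (fun p => 1 ≤ p.1 ∧ p.1 ≤ H) (by
      intro S hS
      obtain ⟨g, hinj, hg, K, hKf, hKd, P, hP, hP0, hPne⟩ := hcon (S.image Prod.fst)
        (Finset.card_image_le.trans (by omega))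
      set β : Fin r × σ → ℕ × σ := fun p => (g p.1, p.2) with hβ
      have hβinj : Function.Injective β := by
        rintro ⟨i, s⟩ ⟨i', s'⟩ h
        simp only [hβ, Prod.mk.injEq] at h
        rw [hinj h.1, h.2]
      refine ⟨Finset.univ.image β, ?_, ?_, ?_, ⟨K, hKf, hKd⟩, Qt K w β P, ?_,
        Qt_ok K w β P hP, ?_⟩
      · refine Finset.card_image_le.trans ?_
        rw [Finset.card_univ, Fintype.card_prod, Fintype.card_fin]
      · intro b hb
        obtain ⟨i, -, rfl⟩ := Finset.mem_image.1 hb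
        exact ⟨(hg i.1).1, (hg i.1).2.1⟩
      · rw [Finset.disjoint_left]
        intro b hb hbS
        obtain ⟨i, -, rfl⟩ := Finset.mem_image.1 hb
        exact (hg i.1).2.2 (Finset.mem_image_of_mem Prod.fst hbS)
      · rw [Qt_eq]
        intro h0
        exact hPne (MvPolynomial.rename_injective β hβinj (h0.trans (map_zero _).symm))
      · rw [aeval_Qt]
        exact hP0)
  obtain ⟨L, hLf, hLd, hL⟩ := compositum I
  have hLd' : finrank ℚ L ≤ (d + 1) ^ q := by
    refine hLd.trans ((Nat.pow_le_pow_left (Nat.le_succ d) _).trans ?_)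
    exact Nat.pow_le_pow_right (Nat.succ_pos d) hIr
  set V : Submodule L ℂ := Submodule.span L (insert (1 : ℂ) (Set.range w)) with hV
  set G : Finset ℕ := Bs.image Prod.fst with hG
  set N : ℕ := G.card with hN
  have hNN0 : N ≤ N0 := Finset.card_image_le.trans hBr
  set eG : Fin N ≃ G := G.equivFin.symm with heG
  set g : Fin N → ℕ := fun l => (eG l : ℕ) with hg
  have hginj : Function.Injective g := fun l l' h => eG.injective (Subtype.ext h)
  have hgb : ∀ l, 1 ≤ g l ∧ g l ≤ H := by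
    intro l
    obtain ⟨b, hb, hbl⟩ := Finset.mem_image.1 (eG l).2
    have := hBa b hb
    rw [hbl] at this
    exact this
  set Θ : Finset (ℕ × σ) := G ×ˢ Finset.univ with hΘ
  have hBΘ : Bs ⊆ Θ := by
    intro b hb
    rw [hΘ, Finset.mem_product]
    exact ⟨Finset.mem_image_of_mem _ hb, Finset.mem_univ _⟩
  have hcard : Θ.card = N * Fintype.card σ := by
    rw [hΘ, Finset.card_product, Finset.card_univ]
  set n : ℕ := N * Fintype.card σ with hn
  have en : Fin n ≃ Fin N × σ := (Fintype.equivFinOfCardEq (by rw [Fintype.card_prod, Fintype.card_fin])).symm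
  have hVfg : V.FG := Submodule.fg_span ((Set.finite_range w).insert 1)
  have hV1 : (1 : ℂ) ∈ V := Submodule.subset_span (Set.mem_insert _ _)
  have hub := hrk L V hVfg hV1 (fun K hK c hc => span_pow_field (hL K hK) hc) Θ hBΘ
  refine contra' L hLd' w T (hAB L) y Θ S (hSB.trans hBΘ) hS hcard (fun s : Fin n => y (g (en s).1, (en s).2)) ?_ hub ?_
  · intro s
    refine Submodule.mem_sup_right (Submodule.subset_span ⟨(g (en s).1, (en s).2), ?_, rfl⟩)
    rw [Finset.mem_coe, hΘ, Finset.mem_product]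
    exact ⟨(eG (en s).1).2, Finset.mem_univ _⟩
  · intro P hP hP0
    have hbig : (H + 2) ^ Ev N ≤ t := by
      refine le_trans (Nat.pow_le_pow_right (by omega) ?_) ht
      exact Finset.single_le_sum (f := Ev) (fun i _ => Nat.zero_le _) (Finset.mem_range.2 (by omega))
    have h1 := hEv N H t hbig g hginj hgb (MvPolynomial.rename en P)
      ((MvPolynomial.totalDegree_rename_le _ _).trans hP) (by
        rw [MvPolynomial.aeval_rename]
        exact hP0)
    exact MvPolynomial.rename_injective en en.injective (h1.trans (map_zero _).symm)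

end Pool.Agent.Y118.HG
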