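import Pool.Agent.Y118.HP.Alg2

/-!
# A basis of the functions on the symplectic group made of monomials, containing `1`
-/

set_option autoImplicit false
set_option maxHeartbeats 400000

open Matrix

namespace Pool.Agent.Y118.HG

open Pool.Agent.Y118.HP

variable {n : ℕ}

/-- a basis of the span of the monomials of degree `≤ D`, as functions on the symplectic group -/
theorem exists_basis1 (hn : Even n) (D : ℕ) :
    ∃ (κ : Type) (_ : Fintype κ) (k0 : κ) (b : κ → Fin n × Fin n → ℕ) (w : (Fin n × Fin n → ℕ) → κ → ℚ),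
      b k0 = 0 ∧ (∀ k, dg (b k) ≤ D) ∧
      (∀ s, dg s ≤ D → ∀ g ∈ SpS ℂ n, mnm g s = ∑ k, (w s k : ℂ) * mnm g (b k)) ∧
      (∀ x : κ → ℂ, (∀ g ∈ SpS ℂ n, ∑ k, x k * mnm g (b k) = 0) → x = 0) := by
  classical
  set 𝒮 : Type := {s : Fin n × Fin n → Fin (D + 1) // ∑ x, (s x : ℕ) ≤ D} with h𝒮
  let v : 𝒮 → (SpS ℚ n → ℚ) := fun s g => mnm g.1 (fun x => (s.1 x : ℕ))
  set s0 : 𝒮 := ⟨fun _ => 0, by simp⟩ with hs0
  have hv0 : v s0 ≠ 0 := by
    intro h
    have := congrFun h ⟨1, SpS_one⟩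
    simp [v, mnm, hs0] at this
  have hli0 : LinearIndepOn ℚ id ({v s0} : Set (SpS ℚ n → ℚ)) := LinearIndepOn.singleton (v := id) hv0
  obtain ⟨B, hB1, hB2, hB3, hB4⟩ := exists_linearIndepOn_id_extension hli0
    (show ({v s0} : Set (SpS ℚ n → ℚ)) ⊆ Set.range v from Set.singleton_subset_iff.2 ⟨s0, rfl⟩)
  have hBfin : Finite B := Set.Finite.subset (Set.finite_range v) hB1
  have : Fintype B := Fintype.ofFinite B
  have hch : ∀ u : B, ∃ s : 𝒮, v s = u.1 := fun u => hB1 u.2
  choose c hc using hch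
  set u0 : B := ⟨v s0, hB2 rfl⟩ with hu0
  -- choice of the exponents, `0` for `u0`
  set a : B → 𝒮 := fun u => if u = u0 then s0 else c u with ha
  have hva : ∀ u : B, v (a u) = u.1 := by
    intro u
    rw [ha]
    simp only
    split_ifs with h
    · rw [h, hu0]
    · exact hc u
  have hli : LinearIndependent ℚ (fun u : B => v (a u)) := by
    have : (fun u : B => v (a u)) = fun u : B => (u : SpS ℚ n → ℚ) := funext hva
    rw [this]
    exact hB4
  have hw : ∀ s : 𝒮, ∃ w : B → ℚ, ∑ k, w k • v (a k) = v s := by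
    intro s
    have h1 : v s ∈ Submodule.span ℚ (Set.range fun u : B => v (a u)) := by
      have h2 : (fun u : B => v (a u)) = fun u : B => (u : SpS ℚ n → ℚ) := funext hva
      rw [h2, Subtype.range_coe]
      exact hB3 ⟨s, rfl⟩
    exact (Submodule.mem_span_range_iff_exists_fun ℚ).1 h1
  choose w0 hw0 using hw
  have hle : ∀ s : Fin n × Fin n → ℕ, dg s ≤ D → ∀ x, s x ≤ D := fun s hs x => by
    have : s x ≤ dg s := Finset.single_le_sum (f := s) (fun _ _ => Nat.zero_le _) (Finset.mem_univ x)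
    omega
  set tr : (Fin n × Fin n → ℕ) → 𝒮 := fun s => if h : dg s ≤ D then
    ⟨fun x => ⟨s x, Nat.lt_succ_of_le (hle s h x)⟩, h⟩ else s0 with htr
  have htr' : ∀ s : Fin n × Fin n → ℕ, dg s ≤ D → (fun x => (((tr s).1 x : Fin (D + 1)) : ℕ)) = s := by
    intro s hs
    funext x
    simp only [htr]
    rw [dif_pos hs]
  have hw1 : ∀ s, dg s ≤ D → ∀ g ∈ SpS ℚ n, mnm g s = ∑ k, w0 (tr s) k * mnm g (fun x => ((a k).1 x : ℕ)) := by
    intro s hs g hg
    have := congrFun (hw0 (tr s)) ⟨g, hg⟩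
    simp only [Finset.sum_apply, Pi.smul_apply, smul_eq_mul, v] at this
    rw [htr' s hs] at this
    exact this.symm
  refine ⟨B, inferInstance, u0, fun k x => ((a k).1 x : ℕ), fun s => w0 (tr s), ?_, ?_, ?_, ?_⟩
  · funext x
    simp [ha, hs0]
  · intro k
    exact (a k).2
  · intro s hs g hg
    set P : MvPolynomial (Fin n × Fin n) ℂ := (∏ x, MvPolynomial.X x ^ s x) -
      ∑ k, MvPolynomial.C ((w0 (tr s) k : ℚ) : ℂ) * ∏ x, MvPolynomial.X x ^ ((a k).1 x : ℕ) with hP
    have hev : ∀ g, evM P g = mnm g s - ∑ k, ((w0 (tr s) k : ℚ) : ℂ) * mnm g (fun x => ((a k).1 x : ℕ)) := by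
      intro g
      unfold evM mnm
      rw [hP]
      simp [map_sub, map_sum, map_mul, map_prod, map_pow]
    have h1 := dense_rat hn P (fun g hg => by
      rw [hev]
      simp only [mnm_map]
      rw [hw1 s hs g hg, map_sum, sub_eq_zero]
      refine Finset.sum_congr rfl fun k _ => ?_
      rw [map_mul, eq_ratCast, eq_ratCast]) g hg
    rw [hev, sub_eq_zero] at h1
    exact h1
  · intro x hx
    funext k
    rw [Pi.zero_apply, ← Module.forall_dual_apply_eq_zero_iff ℚ]
    intro ℓ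
    have h1 : ∑ k, ℓ (x k) • v (a k) = 0 := by
      funext g
      have h2 := hx (g.1.map (algebraMap ℚ ℂ)) (SpS_map _ g.2)
      have h3 := congrArg ℓ h2
      rw [map_sum, map_zero] at h3
      simp only [Finset.sum_apply, Pi.smul_apply, smul_eq_mul, Pi.zero_apply, v]
      rw [← h3]
      refine Finset.sum_congr rfl fun k _ => ?_
      rw [mnm_map]
      have : x k * (algebraMap ℚ ℂ) (mnm g.1 fun x => ((a k).1 x : ℕ)) = (mnm g.1 fun x => ((a k).1 x : ℕ)) • x k := by
        rw [Algebra.smul_def, mul_comm]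
      rw [this, map_smul, smul_eq_mul, mul_comm]
    exact Fintype.linearIndependent_iff.1 hli _ h1 k

end Pool.Agent.Y118.HG
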