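import Pool.Agent.Y118.HP.Alg7

/-!
# The Cayley coordinates of the symplectic group
-/

set_option autoImplicit false
set_option maxHeartbeats 400000
set_option linter.unusedSectionVars false

open Matrix

namespace Pool.Agent.Y118.HG

open Pool.Agent.Y118.HP

variable {n : ℕ}

section ring

variable {R : Type*} [CommRing R] [Algebra ℚ R] {L : Type*} [CommRing L] [Algebra ℚ L]

/-- the inverse of `jm` -/
noncomputable def Ji (R : Type*) [CommRing R] [Algebra ℚ R] (n : ℕ) : Matrix (Fin n) (Fin n) R :=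
  ((jm ℚ n)⁻¹).map (algebraMap ℚ R)

theorem jm_Ji (hn : Even n) : jm R n * Ji R n = 1 := by
  have h1 : (jm ℚ n) * (jm ℚ n)⁻¹ = 1 := mul_nonsing_inv _ (jm_det hn).isUnit
  have h2 := congrArg (fun M : Matrix (Fin n) (Fin n) ℚ => M.map (algebraMap ℚ R)) h1
  simp only [Matrix.map_mul] at h2
  rw [jm_map] at h2
  unfold Ji
  rw [h2]
  exact Matrix.map_one _ (map_zero _) (map_one _)

theorem Ji_jm (hn : Even n) : Ji R n * jm R n = 1 := mul_eq_one_comm.1 (jm_Ji hn)

theorem Ji_map (φ : R →+* L) : (Ji R n).map φ = Ji L n := by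
  ext i j
  unfold Ji
  rw [Matrix.map_apply, Matrix.map_apply, Matrix.map_apply]
  have : φ.comp (algebraMap ℚ R) = algebraMap ℚ L := RingHom.ext_rat _ _
  exact congrArg (fun f : ℚ →+* L => f _) this

theorem jm_transpose' : (jm R n).transpose = -jm R n := by
  have h := congrArg (fun M : Matrix (Fin n) (Fin n) ℚ => M.map (algebraMap ℚ R)) (jm_transpose (K := ℚ) (n := n))
  have h' : ((jm ℚ n).transpose.map (algebraMap ℚ R)) = (-jm ℚ n).map (algebraMap ℚ R) := h
  rw [Matrix.transpose_map, jm_map] at h'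
  rw [h', ← jm_map (algebraMap ℚ R)]
  ext i j
  simp [Matrix.map_apply]

/-- the indices of the coordinates -/
abbrev Sy (n : ℕ) : Type := {p : Fin n × Fin n // p.1 ≤ p.2}

/-- symmetric matrices -/
def Ym (y : Sy n → R) : Matrix (Fin n) (Fin n) R :=
  Matrix.of fun i j => if h : i ≤ j then y ⟨(i, j), h⟩ else y ⟨(j, i), (not_le.1 h).le⟩

theorem Ym_symm (y : Sy n → R) : (Ym y).transpose = Ym y := by
  ext i j
  rw [Matrix.transpose_apply]
  unfold Ym
  rw [Matrix.of_apply, Matrix.of_apply]
  rcases lt_trichotomy i j with h | h | h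
  · rw [dif_neg (not_le.2 h), dif_pos h.le]
  · subst h; rfl
  · rw [dif_pos h.le, dif_neg (not_le.2 h)]

theorem Ym_coord (y : Sy n → R) (p : Sy n) : Ym y p.1.1 p.1.2 = y p := by
  unfold Ym
  rw [Matrix.of_apply, dif_pos p.2]

theorem Ym_of_symm {Y : Matrix (Fin n) (Fin n) R} (hY : Y.transpose = Y) : Ym (fun p : Sy n => Y p.1.1 p.1.2) = Y := by
  ext i j
  unfold Ym
  rw [Matrix.of_apply]
  split_ifs with h
  · rfl
  · have := congrFun (congrFun hY i) j
    rw [Matrix.transpose_apply] at this
    exact this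

/-- the element of the Lie algebra -/
noncomputable def Bm (y : Sy n → R) : Matrix (Fin n) (Fin n) R := Ym y * Ji R n

/-- the numerator of the Cayley transform -/
noncomputable def Nc (y : Sy n → R) : Matrix (Fin n) (Fin n) R := (1 + Bm y) * (1 - Bm y).adjugate

/-- the denominator of the Cayley transform -/
noncomputable def De (y : Sy n → R) : R := (1 - Bm y).det

theorem Bm_J (hn : Even n) (y : Sy n → R) : Bm y * jm R n = Ym y := by
  unfold Bm
  rw [Matrix.mul_assoc, Ji_jm hn, mul_one]

theorem J_BmT (hn : Even n) (y : Sy n → R) : jm R n * (Bm y).transpose = -Ym y := by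
  have h1 := congrArg Matrix.transpose (Bm_J hn y)
  rw [Matrix.transpose_mul, Ym_symm, jm_transpose', neg_mul] at h1
  rw [← h1, neg_neg]

theorem Ym_map (φ : R →+* L) (y : Sy n → R) : (Ym y).map φ = Ym (fun p => φ (y p)) := by
  ext i j
  unfold Ym
  rw [Matrix.map_apply, Matrix.of_apply, Matrix.of_apply]
  split_ifs <;> rfl

theorem Bm_map (φ : R →+* L) (y : Sy n → R) : (Bm y).map φ = Bm (fun p => φ (y p)) := by
  unfold Bm
  rw [Matrix.map_mul, Ym_map, Ji_map]

theorem one_sub_map (φ : R →+* L) (M : Matrix (Fin n) (Fin n) R) : (1 - M).map φ = 1 - M.map φ := by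
  rw [Matrix.map_sub _ (map_sub φ)]
  congr 1
  exact Matrix.map_one _ (map_zero _) (map_one _)

theorem one_add_map (φ : R →+* L) (M : Matrix (Fin n) (Fin n) R) : (1 + M).map φ = 1 + M.map φ := by
  rw [Matrix.map_add _ (map_add φ)]
  congr 1
  exact Matrix.map_one _ (map_zero _) (map_one _)

theorem add_one_map (φ : R →+* L) (M : Matrix (Fin n) (Fin n) R) : (M + 1).map φ = M.map φ + 1 := by
  rw [Matrix.map_add _ (map_add φ)]
  congr 1
  exact Matrix.map_one _ (map_zero _) (map_one _)

theorem sub_one_map (φ : R →+* L) (M : Matrix (Fin n) (Fin n) R) : (M - 1).map φ = M.map φ - 1 := by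
  rw [Matrix.map_sub _ (map_sub φ)]
  congr 1
  exact Matrix.map_one _ (map_zero _) (map_one _)

theorem De_map (φ : R →+* L) (y : Sy n → R) : φ (De y) = De (fun p => φ (y p)) := by
  unfold De
  rw [RingHom.map_det, RingHom.mapMatrix_apply, one_sub_map, Bm_map]

theorem Nc_map (φ : R →+* L) (y : Sy n → R) : (Nc y).map φ = Nc (fun p => φ (y p)) := by
  unfold Nc
  have h := RingHom.map_adjugate φ (1 - Bm y)
  rw [RingHom.mapMatrix_apply, RingHom.mapMatrix_apply] at h
  rw [Matrix.map_mul, one_add_map, h, one_sub_map, Bm_map]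

theorem Nc_mul (y : Sy n → R) : Nc y * (1 - Bm y) = De y • (1 + Bm y) := by
  unfold Nc De
  rw [Matrix.mul_assoc, adjugate_mul, Matrix.mul_smul, mul_one]

theorem mul_Nc (y : Sy n → R) : (1 - Bm y) * Nc y = De y • (1 + Bm y) := by
  unfold Nc De
  have h1 : (1 - Bm y) * (1 + Bm y) = (1 + Bm y) * (1 - Bm y) := by noncomm_ring
  rw [← Matrix.mul_assoc, h1, Matrix.mul_assoc, mul_adjugate, Matrix.mul_smul, mul_one]

/-- the numerators of the coordinates -/
noncomputable def cn (S : Matrix (Fin n) (Fin n) R) (p : Sy n) : R := ((S - 1) * (S + 1).adjugate * jm R n) p.1.1 p.1.2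

/-- the denominator of the coordinates -/
noncomputable def cd (S : Matrix (Fin n) (Fin n) R) : R := (S + 1).det

theorem cn_map (φ : R →+* L) (S : Matrix (Fin n) (Fin n) R) (p : Sy n) : φ (cn S p) = cn (S.map φ) p := by
  unfold cn
  have h := RingHom.map_adjugate φ (S + 1)
  rw [RingHom.mapMatrix_apply, RingHom.mapMatrix_apply, add_one_map] at h
  rw [← sub_one_map, ← h, ← jm_map φ, ← Matrix.map_mul, ← Matrix.map_mul, Matrix.map_apply]

theorem cd_map (φ : R →+* L) (S : Matrix (Fin n) (Fin n) R) : φ (cd S) = cd (S.map φ) := by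
  unfold cd
  rw [RingHom.map_det, RingHom.mapMatrix_apply, add_one_map]

end ring

section field

variable {K : Type*} [Field K] [Algebra ℚ K]

theorem two_ne : (2 : K) ≠ 0 := by
  have : CharZero K := algebraRat.charZero K
  exact two_ne_zero

/-- the Cayley transform -/
noncomputable def Cay (y : Sy n → K) : Matrix (Fin n) (Fin n) K := (De y)⁻¹ • Nc y

/-- the coordinates -/
noncomputable def co (S : Matrix (Fin n) (Fin n) K) (p : Sy n) : K := ((S - 1) * (S + 1)⁻¹ * jm K n) p.1.1 p.1.2

theorem cn_eq {S : Matrix (Fin n) (Fin n) K} (hS : cd S ≠ 0) (p : Sy n) : cn S p = cd S * co S p := by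
  unfold cn co
  have h1 : (S + 1).adjugate = cd S • (S + 1)⁻¹ := by
    rw [Matrix.inv_def, smul_smul]
    unfold cd at *
    rw [Ring.inverse_eq_inv', mul_inv_cancel₀ hS, one_smul]
  rw [h1, Matrix.mul_smul, Matrix.smul_mul, Matrix.smul_apply, smul_eq_mul]

theorem Cay_mul {y : Sy n → K} (h : De y ≠ 0) : Cay y * (1 - Bm y) = 1 + Bm y := by
  unfold Cay
  rw [Matrix.smul_mul, Nc_mul, smul_smul, inv_mul_cancel₀ h, one_smul]

theorem mul_Cay {y : Sy n → K} (h : De y ≠ 0) : (1 - Bm y) * Cay y = 1 + Bm y := by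
  unfold Cay
  rw [Matrix.mul_smul, mul_Nc, smul_smul, inv_mul_cancel₀ h, one_smul]

/-- the Cayley transform is symplectic -/
theorem Cay_mem (hn : Even n) {y : Sy n → K} (h : De y ≠ 0) : Cay y ∈ SpS K n := by
  show Cay y * jm K n * (Cay y).transpose = jm K n
  set B := Bm y with hB
  set S := Cay y with hS
  have hu : IsUnit (1 - B).det := isUnit_iff_ne_zero.2 h
  have h1 : (1 - B) * S = 1 + B := mul_Cay h
  have h2 : (1 - B) * (S * jm K n * S.transpose) * (1 - B).transpose = (1 - B) * jm K n * (1 - B).transpose := by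
    have h3 : (1 - B) * (S * jm K n * S.transpose) * (1 - B).transpose =
        ((1 - B) * S) * jm K n * ((1 - B) * S).transpose := by
      rw [Matrix.transpose_mul]; simp only [Matrix.mul_assoc]
    rw [h3, h1, Matrix.transpose_add, Matrix.transpose_sub, Matrix.transpose_one]
    have h4 := Bm_J hn y
    have h5 := J_BmT hn y
    rw [← hB] at h4 h5
    have e1 : (1 + B) * jm K n * (1 + B.transpose) = jm K n + B * jm K n + jm K n * B.transpose +
        B * (jm K n * B.transpose) := by noncomm_ring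
    have e2 : (1 - B) * jm K n * (1 - B.transpose) = jm K n - B * jm K n - jm K n * B.transpose +
        B * (jm K n * B.transpose) := by noncomm_ring
    rw [e1, e2, h4, h5]
    abel
  have hl := nonsing_inv_mul (1 - B) hu
  have hr : (1 - B).transpose * ((1 - B)⁻¹).transpose = 1 := by
    rw [← Matrix.transpose_mul, hl, Matrix.transpose_one]
  calc S * jm K n * S.transpose = ((1 - B)⁻¹ * (1 - B)) * (S * jm K n * S.transpose) *
        ((1 - B).transpose * ((1 - B)⁻¹).transpose) := by rw [hl, hr, one_mul, mul_one]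
    _ = (1 - B)⁻¹ * ((1 - B) * (S * jm K n * S.transpose) * (1 - B).transpose) * ((1 - B)⁻¹).transpose := by
        simp only [Matrix.mul_assoc]
    _ = (1 - B)⁻¹ * ((1 - B) * jm K n * (1 - B).transpose) * ((1 - B)⁻¹).transpose := by rw [h2]
    _ = ((1 - B)⁻¹ * (1 - B)) * jm K n * ((1 - B).transpose * ((1 - B)⁻¹).transpose) := by
        simp only [Matrix.mul_assoc]
    _ = jm K n := by rw [hl, hr, one_mul, mul_one]

/-- the coordinates of the Cayley transform -/
theorem co_Cay (hn : Even n) {y : Sy n → K} (h : De y ≠ 0) : cd (Cay y) ≠ 0 ∧ co (Cay y) = y := by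
  set B := Bm y with hB
  set S := Cay y with hS
  have h1 : (1 - B) * S = 1 + B := mul_Cay h
  have h1' : S * (1 - B) = 1 + B := Cay_mul h
  have h2 : (1 - B) * (S + 1) = (2 : K) • (1 : Matrix (Fin n) (Fin n) K) := by
    rw [Matrix.mul_add, h1, mul_one, two_smul]; abel
  have h2' : (S - 1) * (1 - B) = (2 : K) • B := by
    rw [Matrix.sub_mul, h1', one_mul, two_smul]; abel
  have hd : cd S ≠ 0 := by
    intro h0
    have h3 := congrArg Matrix.det h2
    rw [Matrix.det_mul, Matrix.det_smul, Matrix.det_one, mul_one] at h3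
    unfold cd at h0
    rw [h0, mul_zero] at h3
    exact pow_ne_zero _ two_ne h3.symm
  refine ⟨hd, ?_⟩
  have hinv : (S + 1)⁻¹ = (2 : K)⁻¹ • (1 - B) := by
    refine Matrix.inv_eq_left_inv ?_
    rw [Matrix.smul_mul, h2, smul_smul, inv_mul_cancel₀ two_ne, one_smul]
  funext p
  unfold co
  rw [hinv, Matrix.mul_smul, h2', smul_smul, inv_mul_cancel₀ two_ne, one_smul, hB, Bm_J hn, Ym_coord]

/-- the Cayley transform of the coordinates -/
theorem Cay_co (hn : Even n) {S : Matrix (Fin n) (Fin n) K} (hS : S ∈ SpS K n) (hd : cd S ≠ 0) :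
    De (co S) ≠ 0 ∧ Cay (co S) = S := by
  have hJ : S * jm K n * S.transpose = jm K n := hS
  have hu : IsUnit (S + 1).det := isUnit_iff_ne_zero.2 hd
  set B : Matrix (Fin n) (Fin n) K := (S - 1) * (S + 1)⁻¹ with hB
  have hl := nonsing_inv_mul (S + 1) hu
  have hr := mul_nonsing_inv (S + 1) hu
  have h1 : B * (S + 1) = S - 1 := by rw [hB, Matrix.mul_assoc, hl, mul_one]
  have hcomm : (S + 1) * (S - 1) = (S - 1) * (S + 1) := by noncomm_ring
  have h1' : (S + 1) * B = S - 1 := by
    rw [hB, ← Matrix.mul_assoc, hcomm, Matrix.mul_assoc, hr, mul_one]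
  have hsum : B * jm K n + jm K n * B.transpose = 0 := by
    have h2 : (S + 1) * (B * jm K n + jm K n * B.transpose) * (S + 1).transpose = 0 := by
      have e1 : (S + 1) * (B * jm K n + jm K n * B.transpose) * (S + 1).transpose =
          ((S + 1) * B) * jm K n * (S + 1).transpose + (S + 1) * jm K n * ((S + 1) * B).transpose := by
        rw [Matrix.transpose_mul (S + 1) B, Matrix.mul_add (S + 1), Matrix.add_mul]
        simp only [Matrix.mul_assoc]
      rw [e1, h1', Matrix.transpose_add, Matrix.transpose_sub, Matrix.transpose_one]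
      have e2 : (S - 1) * jm K n * (S.transpose + 1) + (S + 1) * jm K n * (S.transpose - 1) =
          2 • (S * jm K n * S.transpose) - 2 • jm K n := by noncomm_ring
      rw [e2, hJ, sub_self]
    have hrT : (S + 1).transpose * ((S + 1)⁻¹).transpose = 1 := by
      rw [← Matrix.transpose_mul, hl, Matrix.transpose_one]
    calc B * jm K n + jm K n * B.transpose = ((S + 1)⁻¹ * (S + 1)) * (B * jm K n + jm K n * B.transpose) *
          ((S + 1).transpose * ((S + 1)⁻¹).transpose) := by rw [hl, hrT, one_mul, mul_one]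
      _ = (S + 1)⁻¹ * ((S + 1) * (B * jm K n + jm K n * B.transpose) * (S + 1).transpose) * ((S + 1)⁻¹).transpose := by
          simp only [Matrix.mul_assoc]
      _ = 0 := by rw [h2, mul_zero, zero_mul]
  have hsymm : (B * jm K n).transpose = B * jm K n := by
    rw [Matrix.transpose_mul, jm_transpose, neg_mul]
    rw [eq_comm, eq_neg_iff_add_eq_zero]
    exact hsum
  have hYm : Ym (co S) = B * jm K n := Ym_of_symm hsymm
  have hBm : Bm (co S) = B := by
    unfold Bm
    rw [hYm, Matrix.mul_assoc, jm_Ji hn, mul_one]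
  have h3 : (1 - B) * (S + 1) = (2 : K) • (1 : Matrix (Fin n) (Fin n) K) := by
    rw [Matrix.sub_mul, h1, one_mul, two_smul]; abel
  have h4 : (1 + B) * (S + 1) = (2 : K) • S := by
    rw [Matrix.add_mul, h1, one_mul, two_smul]; abel
  have hDe : De (co S) ≠ 0 := by
    intro h0
    have h5 := congrArg Matrix.det h3
    rw [Matrix.det_mul, Matrix.det_smul, Matrix.det_one, mul_one] at h5
    unfold De at h0
    rw [hBm] at h0
    rw [h0, zero_mul] at h5
    exact pow_ne_zero _ two_ne h5.symm
  refine ⟨hDe, ?_⟩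
  have h5 := Cay_mul hDe
  rw [hBm] at h5
  have h6 : Cay (co S) * ((1 - B) * (S + 1)) = (2 : K) • S := by
    rw [← Matrix.mul_assoc, h5, h4]
  rw [h3, Matrix.mul_smul, mul_one] at h6
  have h7 := congrArg (fun M : Matrix (Fin n) (Fin n) K => (2 : K)⁻¹ • M) h6
  simp only [smul_smul, inv_mul_cancel₀ (two_ne (K := K)), one_smul] at h7
  exact h7

end field

end Pool.Agent.Y118.HG
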