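import Pool.Agent.Y118.HG.Vv

/-!
# The main theorem, coefficients in a finite dimensional space
-/

set_option autoImplicit false
set_option maxHeartbeats 400000

open Matrix Polynomial Filter Topology

namespace Pool.Agent.Y118.HG

open Pool.Agent.Y118.HP Pool.Agent.Y113 Pool.Agent.Y37.GF

variable {n N : ℕ}

theorem ne_zero_of_gap {a : Fin n → ℝ} {m : Fin (n + 1)} (h : InGap a m 0) (i : Fin n) : a i ≠ 0 := by
  rcases lt_or_ge i.castSucc m with h1 | h1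
  · exact ((h i).1 h1).ne
  · exact ((h i).2 h1).ne'

theorem coeff_ne_of_gap {a : Fin n → ℝ} {m : Fin (n + 1)} (h : InGap a m 0) {f : ℚ[X]}
    (hf : f.map (algebraMap ℚ ℝ) = ∏ i, (X - C (a i))) : f.coeff 0 ≠ 0 := by
  intro h0
  have h1 : (f.map (algebraMap ℚ ℝ)).eval 0 = 0 := by
    rw [← Polynomial.coeff_zero_eq_eval_zero, coeff_map, h0, map_zero]
  rw [hf, eval_prod, Finset.prod_eq_zero_iff] at h1
  obtain ⟨i, -, hi⟩ := h1
  simp only [eval_sub, eval_X, eval_C, zero_sub, neg_eq_zero] at hi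
  exact ne_zero_of_gap h i hi

/-- the fibre of the torsor over `2πi` -/
def Fib (Q : Fin N → Matrix (Fin n) (Fin n) ℂ) : Set (Fin N → Matrix (Fin n) (Fin n) ℂ) :=
  {X | ∀ j, X j * ((-1 / 2 : ℂ) • Q j) * (X j).transpose = (2 * Real.pi * Complex.I : ℂ) • jm ℂ n}

theorem CM_J {a : Fin n → ℝ} {m : Fin (n + 1)} {f : ℚ[X]} {τ : ℚ} {X : Matrix (Fin n) (Fin n) ℂ}
    (hX : X * ((-1 / 2 : ℂ) • (Qp n f).map (aeval (τ : ℂ))) * X.transpose = (2 * Real.pi * Complex.I : ℂ) • jm ℂ n)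
    (Δ : ZDat n a m f) :
    (X * Δ.V.map (aeval (τ : ℂ))) * jm ℂ n * (X * Δ.V.map (aeval (τ : ℂ))).transpose =
      (-4 * Real.pi * Complex.I : ℂ) • jm ℂ n := by
  have h1 : (X * Δ.V.map (aeval (τ : ℂ))) * jm ℂ n * (X * Δ.V.map (aeval (τ : ℂ))).transpose =
      (-2 : ℂ) • (X * ((-1 / 2 : ℂ) • (Qp n f).map (aeval (τ : ℂ))) * X.transpose) := by
    rw [Qp_aevalC Δ.VJ, Matrix.mul_smul, Matrix.smul_mul, smul_smul, Matrix.transpose_mul]
    norm_num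
    simp only [Matrix.mul_assoc]
  rw [h1, hX, smul_smul]
  congr 1
  ring

theorem vver (hn : Even n) (a : Fin N → Fin n → ℝ) (ha : ∀ j, StrictMono (a j))
    (m : Fin N → Fin (n + 1)) (f : Fin N → ℚ[X]) (h0 : ∀ j, InGap (a j) (m j) 0)
    (hf : ∀ j, (f j).map (algebraMap ℚ ℝ) = ∏ i, (X - C (a j i))) (D D0 : ℕ) :
    ∃ c : ℝ, 0 < c ∧ ∃ C : ℝ, 0 ≤ C ∧ ∀ V : Submodule ℚ ℂ, Module.Finite ℚ V → Module.finrank ℚ V ≤ D →
      ∀ T : ℕ, 1 ≤ T → ∃ S : Finset (Fin N → ℕ), (S.card : ℝ) ≤ C * (T : ℝ) ^ ((N : ℝ) - c) ∧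
        ∀ t : Fin N → ℕ, (∀ j, 1 ≤ t j ∧ t j ≤ T) → t ∉ S → (∀ j, InGap (a j) (m j) (((1 / (t j : ℚ) : ℚ)) : ℝ)) ∧
          ∀ P : MvPolynomial (Fin N × Fin n × Fin n) ℂ, P.totalDegree ≤ D0 → (∀ s, P.coeff s ∈ V) →
            MvPolynomial.aeval (px fun j => CM (a j) (m j) ((1 / (t j : ℚ) : ℚ) : ℝ)) P = 0 →
            ∀ X ∈ Fib (fun j => (Qp n (f j)).map (aeval ((1 / (t j : ℚ) : ℚ) : ℂ))),
              MvPolynomial.aeval (px X) P = 0 := by
  classical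
  obtain ⟨κ, hfin, k0, b, w, hb0, hbD, hw, hb⟩ := exists_basis1 hn D0
  have ha0 : ∀ j i, a j i ≠ 0 := fun j i => ne_zero_of_gap (h0 j) i
  have hf0 : ∀ j, (f j).coeff 0 ≠ 0 := fun j => coeff_ne_of_gap (h0 j) (hf j)
  have Δ : ∀ j, ZDat n (a j) (m j) (f j) := fun j => Classical.choice (exists_ZDat hn (ha j) (h0 j) (hf j) (hf0 j))
  -- large `t`
  have htend : Tendsto (fun t : ℕ => 1 / (t : ℝ)) atTop (𝓝 0) := tendsto_one_div_atTop_nhds_zero_nat
  have hev : ∀ᶠ t : ℕ in atTop, ∀ j, InGap (a j) (m j) (1 / (t : ℝ)) ∧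
      CM (a j) (m j) (1 / (t : ℝ)) = AC (a j) (m j) (Δ j).V * (Ez (Δ j).Z (1 / (t : ℝ))).map (algebraMap ℝ ℂ) *
        (Δ j).U.map (aeval ((1 / (t : ℝ) : ℝ) : ℂ)) :=
    eventually_all.2 fun j => htend.eventually (CM_val hn (ha j) (h0 j) (Δ j))
  obtain ⟨t0, ht0⟩ := eventually_atTop.1 hev
  set x : Fin N → ℕ → κ → ℂ := fun j t => if t < t0 then 0 else
    fun k => ((mnm (Ez (Δ j).Z (1 / (t : ℝ))) (b k) : ℝ) : ℂ) with hx
  have hcount := count_LR N x (by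
    intro j D
    obtain ⟨c, hc, C, hC, h1⟩ := count_one hn (ha j) (ha0 j) (h0 j) (hf j) (hf0 j) (Δ j) D0 k0 b w hb0 hbD hw hb D
    refine ⟨min c 1, lt_min hc one_pos, C + t0, by positivity, fun V hV hVD T hT => ?_⟩
    have hT1 : (1 : ℝ) ≤ T := by exact_mod_cast hT
    have hsub : (Finset.Icc 1 T).filter (fun t => LR V (x j t)) ⊆ ((Finset.Icc 1 T).filter fun t : ℕ =>
        LR V (fun k => ((mnm (Ez (Δ j).Z (1 / (t : ℝ))) (b k) : ℝ) : ℂ))) ∪ Finset.range t0 := by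
      intro t ht
      obtain ⟨ht1, ht2⟩ := Finset.mem_filter.1 ht
      by_cases hlt : t < t0
      · exact Finset.mem_union_right _ (Finset.mem_range.2 hlt)
      · refine Finset.mem_union_left _ (Finset.mem_filter.2 ⟨ht1, ?_⟩)
        have h2 : x j t = fun k => ((mnm (Ez (Δ j).Z (1 / (t : ℝ))) (b k) : ℝ) : ℂ) := by
          rw [hx]; simp only; rw [if_neg hlt]
        rwa [h2] at ht2
    have h2 : (((Finset.Icc 1 T).filter fun t => LR V (x j t)).card : ℝ) ≤ C * (T : ℝ) ^ (1 - c) + t0 := by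
      have h3 := (Finset.card_le_card hsub).trans (Finset.card_union_le _ _)
      rw [Finset.card_range] at h3
      have h4 := h1 V hV hVD T hT
      have h5 : (((Finset.Icc 1 T).filter fun t => LR V (x j t)).card : ℝ) ≤
        (((Finset.Icc 1 T).filter fun t : ℕ =>
          LR V (fun k => ((mnm (Ez (Δ j).Z (1 / (t : ℝ))) (b k) : ℝ) : ℂ))).card : ℝ) + t0 := by exact_mod_cast h3
      linarith
    have h3 : (T : ℝ) ^ (1 - c) ≤ (T : ℝ) ^ (1 - min c 1) :=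
      Real.rpow_le_rpow_of_exponent_le hT1 (by linarith [min_le_left c 1])
    have h4 : (1 : ℝ) ≤ (T : ℝ) ^ (1 - min c 1) := Real.one_le_rpow hT1 (by linarith [min_le_right c 1])
    have h5 : (0 : ℝ) ≤ t0 := by positivity
    refine h2.trans ?_
    nlinarith [mul_le_mul_of_nonneg_left h3 hC, mul_le_mul_of_nonneg_left h4 h5]) ((D + 1) * (Fintype.card (Fin N × Fin n × Fin n) + 1) ^ D0)
  obtain ⟨c, hc, C, hC, hbad⟩ := hcount
  refine ⟨c, hc, C, hC, fun V hV hVD T hT => ?_⟩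
  set A : Fin N → Matrix (Fin n) (Fin n) ℂ := fun j => AC (a j) (m j) (Δ j).V with hA
  set V1 : Submodule ℚ ℂ := V ⊔ Submodule.span ℚ {(1 : ℂ)} with hV1
  have hV1f : Module.Finite ℚ V1 := by rw [hV1]; infer_instance
  have hV1D : Module.finrank ℚ V1 ≤ D + 1 := by
    refine (Submodule.finrank_add_le_finrank_add_finrank V (Submodule.span ℚ {(1 : ℂ)})).trans ?_
    rw [finrank_span_singleton (one_ne_zero)]
    omega
  obtain ⟨hs1, hs2⟩ := sp_fin (px A)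
  obtain ⟨hp1, hp2⟩ := finrank_pow_le (sp (px A)) D0
  obtain ⟨hq1, hq2⟩ := finrank_mul_le V1 ((sp (px A)) ^ D0)
  set V' : Submodule ℚ ℂ := V1 * (sp (px A)) ^ D0 with hV'
  have hV'D : Module.finrank ℚ V' ≤ (D + 1) * (Fintype.card (Fin N × Fin n × Fin n) + 1) ^ D0 :=
    hq2.trans (Nat.mul_le_mul hV1D (hp2.trans (Nat.pow_le_pow_left hs2 _)))
  have h1V' : (1 : ℂ) ∈ V' := by
    have h1 : (1 : ℂ) ∈ V1 := Submodule.mem_sup_right (Submodule.mem_span_singleton_self _)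
    have h2 : (1 : ℂ) ∈ (sp (px A)) ^ D0 := by
      have := pow_mono_sub (sp_one (px A)) (Nat.zero_le D0)
      rw [pow_zero] at this
      exact this (Submodule.one_le.1 le_rfl)
    have := Submodule.mul_mem_mul h1 h2
    rwa [one_mul] at this
  refine ⟨_, hbad V' hq1 hV'D T hT, fun t ht htS => ?_⟩
  have hnot : ¬ LR V' (fun e : Fin N → κ => ∏ j, x j (t j) (e j)) := by
    intro h
    apply htS
    refine Finset.mem_filter.2 ⟨?_, h⟩
    rw [Fintype.mem_piFinset]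
    exact fun j => Finset.mem_Icc.2 (ht j)
  have hlarge : ∀ j, t0 ≤ t j := by
    intro j
    by_contra hlt
    push Not at hlt
    apply hnot
    refine ⟨fun _ => 1, fun h => ?_, fun _ => h1V', Finset.sum_eq_zero fun e _ => ?_⟩
    · have := congrFun h (fun _ => k0)
      simp at this
    · rw [one_mul]
      refine Finset.prod_eq_zero (Finset.mem_univ j) ?_
      rw [hx]
      simp only
      rw [if_pos hlt]
      rfl
  have hxe : ∀ j, x j (t j) = fun k => ((mnm (Ez (Δ j).Z (1 / (t j : ℝ))) (b k) : ℝ) : ℂ) := by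
    intro j
    rw [hx]
    simp only
    rw [if_neg (not_lt.2 (hlarge j))]
  have hcast : ∀ j, (((1 / (t j : ℚ) : ℚ)) : ℝ) = 1 / (t j : ℝ) := fun j => by push_cast; rfl
  have hcastC : ∀ j, (((1 / (t j : ℝ) : ℝ)) : ℂ) = ((1 / (t j : ℚ) : ℚ) : ℂ) := fun j => by push_cast; rfl
  have hgap : ∀ j, InGap (a j) (m j) (((1 / (t j : ℚ) : ℚ)) : ℝ) := fun j => by
    rw [hcast]; exact (ht0 (t j) (hlarge j) j).1
  have hCM : ∀ j, CM (a j) (m j) (((1 / (t j : ℚ) : ℚ)) : ℝ) = A j * (Ez (Δ j).Z (1 / (t j : ℝ))).map (algebraMap ℝ ℂ) *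
      (Δ j).U.map (aeval ((1 / (t j : ℚ) : ℚ) : ℂ)) := fun j => by
    rw [hcast, ← hcastC]; exact (ht0 (t j) (hlarge j) j).2
  have hAJ : ∀ j, A j * jm ℂ n * (A j).transpose = (-4 * Real.pi * Complex.I : ℂ) • jm ℂ n := fun j =>
    AC_J hn (ha j) (h0 j) (hf j) (Δ j).VJ
  have hI := Complex.I_ne_zero
  have hpi : (Real.pi : ℂ) ≠ 0 := by exact_mod_cast Real.pi_ne_zero
  have hc0 : (-4 * Real.pi * Complex.I : ℂ) ≠ 0 := mul_ne_zero (mul_ne_zero (by norm_num) hpi) hI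
  have hdet : ∀ j, IsUnit (A j).det := by
    intro j
    rw [isUnit_iff_ne_zero]
    intro h2
    have := congrArg Matrix.det (hAJ j)
    rw [Matrix.det_mul, Matrix.det_mul, h2, zero_mul, zero_mul, Matrix.det_smul] at this
    exact mul_ne_zero (pow_ne_zero _ hc0) (jm_det hn) this.symm
  -- the points of the fibre
  have hfib : ∀ X ∈ Fib (fun j => (Qp n (f j)).map (aeval ((1 / (t j : ℚ) : ℚ) : ℂ))),
      ∀ j, ((A j)⁻¹ * (X j * (Δ j).V.map (aeval ((1 / (t j : ℚ) : ℚ) : ℂ)))) ∈ SpS ℂ n ∧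
        A j * ((A j)⁻¹ * (X j * (Δ j).V.map (aeval ((1 / (t j : ℚ) : ℚ) : ℂ)))) *
          ((Δ j).U.map (Polynomial.eval (1 / (t j : ℚ)))).map (algebraMap ℚ ℂ) = X j := by
    intro X hX j
    have h2 : A j * ((A j)⁻¹ * (X j * (Δ j).V.map (aeval ((1 / (t j : ℚ) : ℚ) : ℂ)))) =
        X j * (Δ j).V.map (aeval ((1 / (t j : ℚ) : ℚ) : ℂ)) := by
      rw [← Matrix.mul_assoc, mul_nonsing_inv _ (hdet j), one_mul]
    refine ⟨SpS_of_eqC hn hc0 (hAJ j) ?_, ?_⟩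
    · rw [h2]
      exact CM_J (hX j) (Δ j)
    · rw [h2, map_rat, Matrix.mul_assoc, ← map_aevalC_mul, (Δ j).VU, map_aevalC_one, mul_one]
  refine ⟨hgap, fun P hPd hPc hPv X hX => ?_⟩
  obtain ⟨R, hR, hRv⟩ := subst_DC A (fun j => (Δ j).U.map (Polynomial.eval (1 / (t j : ℚ)))) (V := V1)
    ⟨hPd, fun s => Submodule.mem_sup_left (hPc s)⟩
  obtain ⟨c', hc', hexp⟩ := expand hw hR
  have hZsp : ∀ j, (Ez (Δ j).Z (1 / (t j : ℝ))).map (algebraMap ℝ ℂ) ∈ SpS ℂ n := by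
    intro j
    refine SpS_of_eqC hn hc0 (hAJ j) ?_
    have h2 := CM_J (CM_mem hn (ha j) (hf j) (hgap j)) (Δ j)
    rw [hCM j, Matrix.mul_assoc _ ((Δ j).U.map _), ← map_aevalC_mul, (Δ j).UV, map_aevalC_one, mul_one] at h2
    exact h2
  have hzero : c' = 0 := by
    by_contra hne
    apply hnot
    refine ⟨c', hne, hc', ?_⟩
    have h2 := hexp (fun j => (Ez (Δ j).Z (1 / (t j : ℝ))).map (algebraMap ℝ ℂ)) hZsp
    have h3 := hRv (fun j => (Ez (Δ j).Z (1 / (t j : ℝ))).map (algebraMap ℝ ℂ))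
    have h4 : (fun j => A j * (Ez (Δ j).Z (1 / (t j : ℝ))).map (algebraMap ℝ ℂ) *
        ((Δ j).U.map (Polynomial.eval (1 / (t j : ℚ)))).map (algebraMap ℚ ℂ)) =
        fun j => CM (a j) (m j) (((1 / (t j : ℚ) : ℚ)) : ℝ) := by
      funext j
      rw [hCM j, map_rat]
    rw [h4, hPv, h2] at h3
    rw [← h3]
    refine Finset.sum_congr rfl fun e _ => ?_
    congr 1
    refine Finset.prod_congr rfl fun j _ => ?_
    rw [hxe j, mnm_map]
    rfl
  have h5 := hexp (fun j => (A j)⁻¹ * (X j * (Δ j).V.map (aeval ((1 / (t j : ℚ) : ℚ) : ℂ)))) fun j => (hfib X hX j).1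
  have h6 := hRv (fun j => (A j)⁻¹ * (X j * (Δ j).V.map (aeval ((1 / (t j : ℚ) : ℚ) : ℂ))))
  have h7 : (fun j => A j * ((A j)⁻¹ * (X j * (Δ j).V.map (aeval ((1 / (t j : ℚ) : ℚ) : ℂ)))) *
      ((Δ j).U.map (Polynomial.eval (1 / (t j : ℚ)))).map (algebraMap ℚ ℂ)) = X := by
    funext j
    exact (hfib X hX j).2
  rw [h7] at h6
  rw [← h6, h5, hzero]
  simp

end Pool.Agent.Y118.HG
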