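import Pool.Agent.Y118.HG.Cay
import Pool.Agent.Y118.HG.Vmain

/-!
# Clearing denominators, density of the Cayley chart
-/

set_option autoImplicit false
set_option maxHeartbeats 400000

open Matrix Polynomial

namespace Pool.Agent.Y118.HG

open Pool.Agent.Y118.HP

variable {n N : ℕ}

section cle

variable {σ ρ : Type*} {R A : Type*} [CommRing R] [CommRing A] [Algebra R A]

/-- clearing a common denominator -/
noncomputable def cle (Δ : ℕ) (Q : MvPolynomial σ R) (num : σ → MvPolynomial ρ R) (den : MvPolynomial ρ R) :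
    MvPolynomial ρ R :=
  ∑ s ∈ Q.support, MvPolynomial.C (Q.coeff s) * ((∏ i ∈ s.support, num i ^ s i) * den ^ (Δ - ∑ i ∈ s.support, s i))

theorem cle_val {Δ : ℕ} {Q : MvPolynomial σ R} (hQ : Q.totalDegree ≤ Δ) (num : σ → MvPolynomial ρ R)
    (den : MvPolynomial ρ R) (x : ρ → A) (v : σ → A)
    (h : ∀ i, MvPolynomial.aeval x (num i) = MvPolynomial.aeval x den * v i) :
    MvPolynomial.aeval x (cle Δ Q num den) = MvPolynomial.aeval x den ^ Δ * MvPolynomial.aeval v Q := by
  unfold cle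
  rw [MvPolynomial.aeval_def (f := v), MvPolynomial.eval₂_eq, Finset.mul_sum, map_sum]
  refine Finset.sum_congr rfl fun s hs => ?_
  have h1 : (∑ i ∈ s.support, s i) ≤ Δ := (MvPolynomial.le_totalDegree hs).trans hQ
  rw [map_mul, map_mul, map_prod, map_pow, MvPolynomial.aeval_C]
  have h2 : ∏ i ∈ s.support, MvPolynomial.aeval x (num i ^ s i) =
      MvPolynomial.aeval x den ^ (∑ i ∈ s.support, s i) * ∏ i ∈ s.support, v i ^ s i := by
    rw [← Finset.prod_pow_eq_pow_sum, ← Finset.prod_mul_distrib]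
    refine Finset.prod_congr rfl fun i _ => ?_
    rw [map_pow, h, mul_pow]
  rw [h2]
  have h3 : MvPolynomial.aeval x den ^ Δ = MvPolynomial.aeval x den ^ (∑ i ∈ s.support, s i) *
      MvPolynomial.aeval x den ^ (Δ - ∑ i ∈ s.support, s i) := by
    rw [← pow_add]; congr 1; omega
  rw [h3]
  ring

theorem cle_deg {Δ B : ℕ} {Q : MvPolynomial σ R} (hQ : Q.totalDegree ≤ Δ) {num : σ → MvPolynomial ρ R}
    {den : MvPolynomial ρ R} (hn : ∀ i, (num i).totalDegree ≤ B) (hd : den.totalDegree ≤ B) :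
    (cle Δ Q num den).totalDegree ≤ Δ * B := by
  unfold cle
  refine MvPolynomial.totalDegree_finsetSum_le fun s hs => ?_
  have h1 : (∑ i ∈ s.support, s i) ≤ Δ := (MvPolynomial.le_totalDegree hs).trans hQ
  refine (MvPolynomial.totalDegree_mul _ _).trans ?_
  rw [MvPolynomial.totalDegree_C, zero_add]
  refine (MvPolynomial.totalDegree_mul _ _).trans ?_
  have h2 : (∏ i ∈ s.support, num i ^ s i).totalDegree ≤ (∑ i ∈ s.support, s i) * B := by
    refine (MvPolynomial.totalDegree_finsetProd _ _).trans ?_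
    rw [Finset.sum_mul]
    exact Finset.sum_le_sum fun i _ => (MvPolynomial.totalDegree_pow _ _).trans (Nat.mul_le_mul_left _ (hn i))
  have h3 : (den ^ (Δ - ∑ i ∈ s.support, s i)).totalDegree ≤ (Δ - ∑ i ∈ s.support, s i) * B :=
    (MvPolynomial.totalDegree_pow _ _).trans (Nat.mul_le_mul_left _ hd)
  calc (∏ i ∈ s.support, num i ^ s i).totalDegree + (den ^ (Δ - ∑ i ∈ s.support, s i)).totalDegree
      ≤ (∑ i ∈ s.support, s i) * B + (Δ - ∑ i ∈ s.support, s i) * B := add_le_add h2 h3
    _ = Δ * B := by rw [← add_mul]; congr 1; omega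

theorem exists_deg [Finite σ] (num : σ → MvPolynomial ρ R) (den : MvPolynomial ρ R) :
    ∃ B : ℕ, (∀ i, (num i).totalDegree ≤ B) ∧ den.totalDegree ≤ B := by
  have := Fintype.ofFinite σ
  refine ⟨(∑ i, (num i).totalDegree) + den.totalDegree, fun i => ?_, Nat.le_add_left _ _⟩
  exact (Finset.single_le_sum (f := fun i => (num i).totalDegree) (fun _ _ => Nat.zero_le _)
    (Finset.mem_univ i)).trans (Nat.le_add_right _ _)

/-- a substitution of degree `1` does not increase the degree -/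
theorem aeval_deg {Q : MvPolynomial σ R} {Δ : ℕ} (hQ : Q.totalDegree ≤ Δ) {L : σ → MvPolynomial ρ R}
    (hL : ∀ i, (L i).totalDegree ≤ 1) : (MvPolynomial.aeval L Q).totalDegree ≤ Δ := by
  rw [MvPolynomial.aeval_def, MvPolynomial.eval₂_eq]
  refine MvPolynomial.totalDegree_finsetSum_le fun s hs => ?_
  refine (MvPolynomial.totalDegree_mul _ _).trans ?_
  rw [MvPolynomial.algebraMap_eq, MvPolynomial.totalDegree_C, zero_add]
  refine (MvPolynomial.totalDegree_finsetProd _ _).trans ?_
  refine (Finset.sum_le_sum fun i _ => (MvPolynomial.totalDegree_pow _ _).trans (Nat.mul_le_mul_left _ (hL i))).trans ?_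
  rw [← Finset.sum_mul, mul_one]
  exact (MvPolynomial.le_totalDegree hs).trans hQ

end cle

theorem cd_one : cd (1 : Matrix (Fin n) (Fin n) ℂ) ≠ 0 := by
  unfold cd
  have : (1 : Matrix (Fin n) (Fin n) ℂ) + 1 = (2 : ℂ) • 1 := by rw [two_smul]
  rw [this, Matrix.det_smul, Matrix.det_one, mul_one]
  exact pow_ne_zero _ two_ne_zero

/-- density of the Cayley chart -/
theorem dense_cay (hn : Even n) (Q : MvPolynomial (Fin N × Fin n × Fin n) ℂ)
    (h : ∀ S : Fin N → Matrix (Fin n) (Fin n) ℂ, (∀ j, S j ∈ SpS ℂ n) → (∀ j, cd (S j) ≠ 0) →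
      MvPolynomial.aeval (px S) Q = 0) :
    ∀ S : Fin N → Matrix (Fin n) (Fin n) ℂ, (∀ j, S j ∈ SpS ℂ n) → MvPolynomial.aeval (px S) Q = 0 := by
  classical
  intro S hS
  choose G hG0 hG1 hGS using fun j => exists_path hn (S j) (hS j)
  set q : ℂ[X] := ∏ j, cd (G j) with hq
  set p : ℂ[X] := MvPolynomial.aeval (px G) Q with hp
  have hqe : ∀ s : ℂ, q.eval s = ∏ j, cd ((G j).map (Polynomial.eval s)) := by
    intro s
    rw [hq, eval_prod]
    refine Finset.prod_congr rfl fun j _ => ?_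
    have := cd_map (evalRingHom s) (G j)
    rw [coe_evalRingHom] at this
    exact this
  have hpe : ∀ s : ℂ, p.eval s = MvPolynomial.aeval (px fun j => (G j).map (Polynomial.eval s)) Q := by
    intro s
    have h1 := MvPolynomial.comp_aeval_apply (f := px G) (Polynomial.aeval s : ℂ[X] →ₐ[ℂ] ℂ) Q
    rw [Polynomial.coe_aeval_eq_eval] at h1
    rw [hp, h1]
    rfl
  have hq0 : q ≠ 0 := by
    intro h0
    have h1 := hqe 0
    rw [h0, eval_zero] at h1
    refine Finset.prod_ne_zero_iff.2 (fun j _ => ?_) h1.symm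
    rw [hG0 j]
    exact cd_one
  have hpq : p * q = 0 := by
    refine Polynomial.funext fun s => ?_
    rw [eval_mul, eval_zero, mul_eq_zero]
    by_cases hqs : q.eval s = 0
    · exact Or.inr hqs
    · left
      rw [hpe]
      refine h _ (fun j => hGS j s) fun j => ?_
      rw [hqe] at hqs
      exact Finset.prod_ne_zero_iff.1 hqs j (Finset.mem_univ j)
  have hp0 : p = 0 := (mul_eq_zero.1 hpq).resolve_right hq0
  have h1 := hpe 1
  rw [hp0, eval_zero] at h1
  have h5 : (fun j => (G j).map (Polynomial.eval 1)) = S := funext fun j => hG1 j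
  rw [h5] at h1
  exact h1.symm

/-- a rational symplectic matrix in the chart -/
theorem exists_R0 (hn : Even n) {A : Matrix (Fin n) (Fin n) ℂ} (hA : A ∈ SpS ℂ n) :
    ∃ R ∈ SpS ℚ n, cd (A * R.map (algebraMap ℚ ℂ)) ≠ 0 := by
  classical
  by_contra hcon
  push Not at hcon
  set P : MvPolynomial (Fin n × Fin n) ℂ := cd (A.map MvPolynomial.C *
    Matrix.of fun i j => (MvPolynomial.X (i, j) : MvPolynomial (Fin n × Fin n) ℂ)) with hP
  have hev : ∀ g : Matrix (Fin n) (Fin n) ℂ, evM P g = cd (A * g) := by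
    intro g
    unfold evM
    have h1 := cd_map (MvPolynomial.eval fun x : Fin n × Fin n => g x.1 x.2) (A.map MvPolynomial.C *
      Matrix.of fun i j => (MvPolynomial.X (i, j) : MvPolynomial (Fin n × Fin n) ℂ))
    rw [hP, h1, Matrix.map_mul]
    congr 2
    · ext i j; simp
    · ext i j; simp
  have h1 := dense_rat hn P (fun g hg => by rw [hev]; exact hcon g hg)
  have hi := SpS_inv hn hA
  have h2 := h1 A⁻¹ hi.1
  rw [hev] at h2
  have h3 : A * A⁻¹ = 1 := mul_eq_one_comm.1 hi.2
  rw [h3] at h2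
  exact cd_one h2

end Pool.Agent.Y118.HG
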