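import Pool.Agent.Y118.HG.Win

/-!
# Counting the bad tuples
-/

set_option autoImplicit false
set_option maxHeartbeats 400000

open Matrix Polynomial Filter Topology

namespace Pool.Agent.Y118.HG

open Pool.Agent.Y118.HP Pool.Agent.Y113 Pool.Agent.Y37.GF

/-- a linear relation with coefficients in `V` -/
def LR (V : Submodule ℚ ℂ) {κ : Type} [Fintype κ] (x : κ → ℂ) : Prop :=
  ∃ c : κ → ℂ, c ≠ 0 ∧ (∀ k, c k ∈ V) ∧ ∑ k, c k * x k = 0

theorem LR.split {κ : Type} [Fintype κ] {N : ℕ} {x0 : κ → ℂ} {y : (Fin N → κ) → ℂ} {V : Submodule ℚ ℂ}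
    (h : LR V (fun e : Fin (N + 1) → κ => x0 (e 0) * y (fun l => e l.succ))) :
    LR V y ∨ LR (V * Submodule.span ℚ (Set.range y)) x0 := by
  classical
  obtain ⟨c, hc0, hcV, hc⟩ := h
  set c' : κ → ℂ := fun k => ∑ e' : Fin N → κ, c (Fin.cons k e') * y e' with hc'
  by_cases h0 : c' = 0
  · left
    obtain ⟨e, he⟩ : ∃ e, c e ≠ 0 := by
      by_contra hcon
      push Not at hcon
      exact hc0 (funext hcon)
    refine ⟨fun e' => c (Fin.cons (e 0) e'), ?_, fun e' => hcV _, congrFun h0 (e 0)⟩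
    intro h1
    apply he
    have := congrFun h1 (Fin.tail e)
    simp only [Fin.cons_self_tail] at this
    exact this
  · right
    refine ⟨c', h0, fun k => Submodule.sum_mem _ fun e' _ => Submodule.mul_mem_mul (hcV _)
      (Submodule.subset_span ⟨e', rfl⟩), ?_⟩
    rw [← (Fin.consEquiv fun _ : Fin (N + 1) => κ).sum_comp, Fintype.sum_prod_type] at hc
    rw [← hc]
    refine Finset.sum_congr rfl fun k _ => ?_
    rw [hc', Finset.sum_mul]
    refine Finset.sum_congr rfl fun e' _ => ?_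
    have h3 : (Fin.consEquiv fun _ : Fin (N + 1) => κ) (k, e') = (Fin.cons k e' : Fin (N + 1) → κ) := rfl
    rw [h3]
    simp only [Fin.cons_zero, Fin.cons_succ]
    ring

open Classical in
/-- the number of the bad tuples -/
theorem count_LR {κ : Type} [Fintype κ] (N : ℕ) : ∀ (x : Fin N → ℕ → κ → ℂ),
    (∀ j D, ∃ c : ℝ, 0 < c ∧ ∃ C : ℝ, 0 ≤ C ∧ ∀ V : Submodule ℚ ℂ, Module.Finite ℚ V → Module.finrank ℚ V ≤ D →
      ∀ T : ℕ, 1 ≤ T → (((Finset.Icc 1 T).filter fun t => LR V (x j t)).card : ℝ) ≤ C * (T : ℝ) ^ (1 - c)) →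
    ∀ D : ℕ, ∃ c : ℝ, 0 < c ∧ ∃ C : ℝ, 0 ≤ C ∧ ∀ V : Submodule ℚ ℂ, Module.Finite ℚ V →
      Module.finrank ℚ V ≤ D → ∀ T : ℕ, 1 ≤ T →
      (((Fintype.piFinset fun _ : Fin N => Finset.Icc 1 T).filter fun t =>
        LR V (fun e : Fin N → κ => ∏ j, x j (t j) (e j))).card : ℝ) ≤ C * (T : ℝ) ^ ((N : ℝ) - c) := by
  induction N with
  | zero =>
    intro x _ D
    refine ⟨1, one_pos, 0, le_rfl, fun V _ _ T _ => ?_⟩
    rw [Finset.filter_false_of_mem, Finset.card_empty]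
    · simp
    · rintro t _ ⟨c, hc0, -, hc⟩
      apply hc0
      funext e
      rw [Fintype.sum_eq_single e (fun e' he' => absurd (Subsingleton.elim e' e) he')] at hc
      simpa using hc
  | succ N ih =>
    intro x hx D
    obtain ⟨c₁, hc₁, C₁, hC₁, h₁⟩ := ih (fun j => x j.succ) (fun j => hx j.succ) D
    obtain ⟨c₂, hc₂, C₂, hC₂, h₂⟩ := hx 0 (D * Fintype.card (Fin N → κ))
    refine ⟨min c₁ c₂, lt_min hc₁ hc₂, C₁ + C₂, by positivity, fun V hV hVD T hT => ?_⟩
    have hT1 : (1 : ℝ) ≤ T := by exact_mod_cast hT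
    have hT0 : (0 : ℝ) < T := by linarith
    set yy : (Fin N → ℕ) → (Fin N → κ) → ℂ := fun t e => ∏ j, x j.succ (t j) (e j) with hyy
    set bad₁ := (Fintype.piFinset fun _ : Fin N => Finset.Icc 1 T).filter fun t => LR V (yy t) with hbad₁
    set bad₂ : (Fin N → ℕ) → Finset ℕ := fun t => (Finset.Icc 1 T).filter fun k =>
      LR (V * Submodule.span ℚ (Set.range (yy t))) (x 0 k) with hbad₂
    have hsub : ((Fintype.piFinset fun _ : Fin (N + 1) => Finset.Icc 1 T).filter fun t =>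
        LR V (fun e : Fin (N + 1) → κ => ∏ j, x j (t j) (e j))) ⊆
        ((Finset.Icc 1 T ×ˢ bad₁).image fun p => (Fin.cons p.1 p.2 : Fin (N + 1) → ℕ)) ∪
        (((Fintype.piFinset fun _ : Fin N => Finset.Icc 1 T).sigma bad₂).image
          fun p => (Fin.cons p.2 p.1 : Fin (N + 1) → ℕ)) := by
      intro t ht
      obtain ⟨ht1, ht2⟩ := Finset.mem_filter.1 ht
      rw [Fintype.mem_piFinset] at ht1
      have htail : (fun i => t i.succ) ∈ Fintype.piFinset fun _ : Fin N => Finset.Icc 1 T := by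
        rw [Fintype.mem_piFinset]
        exact fun i => ht1 i.succ
      have h3 : LR V (fun e : Fin (N + 1) → κ => x 0 (t 0) (e 0) * yy (fun i => t i.succ) (fun l => e l.succ)) := by
        have h4 : (fun e : Fin (N + 1) → κ => ∏ j, x j (t j) (e j)) =
            fun e : Fin (N + 1) → κ => x 0 (t 0) (e 0) * yy (fun i => t i.succ) (fun l => e l.succ) := by
          funext e
          rw [Fin.prod_univ_succ]
        rwa [h4] at ht2
      rcases h3.split with h5 | h5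
      · refine Finset.mem_union_left _ (Finset.mem_image.2 ⟨(t 0, fun i => t i.succ), ?_, ?_⟩)
        · exact Finset.mem_product.2 ⟨ht1 0, Finset.mem_filter.2 ⟨htail, h5⟩⟩
        · funext i
          refine Fin.cases ?_ (fun i => ?_) i <;> simp
      · refine Finset.mem_union_right _ (Finset.mem_image.2 ⟨⟨fun i => t i.succ, t 0⟩, ?_, ?_⟩)
        · exact Finset.mem_sigma.2 ⟨htail, Finset.mem_filter.2 ⟨ht1 0, h5⟩⟩
        · funext i
          refine Fin.cases ?_ (fun i => ?_) i <;> simp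
    have hcard : (((Fintype.piFinset fun _ : Fin (N + 1) => Finset.Icc 1 T).filter fun t =>
        LR V (fun e : Fin (N + 1) → κ => ∏ j, x j (t j) (e j))).card : ℝ) ≤
        T * (C₁ * (T : ℝ) ^ ((N : ℝ) - c₁)) + (T : ℝ) ^ N * (C₂ * (T : ℝ) ^ (1 - c₂)) := by
      have hIcc : ((Finset.Icc 1 T).card : ℝ) ≤ T := by
        rw [Nat.card_Icc]
        exact_mod_cast (by omega : T + 1 - 1 ≤ T)
      have h3 : (((Fintype.piFinset fun _ : Fin (N + 1) => Finset.Icc 1 T).filter fun t =>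
          LR V (fun e : Fin (N + 1) → κ => ∏ j, x j (t j) (e j))).card : ℝ) ≤
          ((Finset.Icc 1 T ×ˢ bad₁).card : ℝ) + (((Fintype.piFinset fun _ : Fin N => Finset.Icc 1 T).sigma bad₂).card : ℝ) := by
        exact_mod_cast (Finset.card_le_card hsub).trans ((Finset.card_union_le _ _).trans
          (add_le_add Finset.card_image_le Finset.card_image_le))
      refine h3.trans (add_le_add ?_ ?_)
      · rw [Finset.card_product]
        push_cast
        exact mul_le_mul hIcc (h₁ V hV hVD T hT) (by positivity) (by positivity)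
      · rw [Finset.card_sigma]
        push_cast
        have h4 : ∀ t ∈ Fintype.piFinset (fun _ : Fin N => Finset.Icc 1 T), ((bad₂ t).card : ℝ) ≤ C₂ * (T : ℝ) ^ (1 - c₂) := by
          intro t _
          have hs1 : Module.Finite ℚ (Submodule.span ℚ (Set.range (yy t))) :=
            Module.Finite.span_of_finite ℚ (Set.finite_range _)
          have hs2 : Module.finrank ℚ (Submodule.span ℚ (Set.range (yy t))) ≤ Fintype.card (Fin N → κ) :=
            finrank_range_le_card _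
          obtain ⟨hq1, hq2⟩ := finrank_mul_le V (Submodule.span ℚ (Set.range (yy t)))
          exact h₂ _ hq1 (hq2.trans (Nat.mul_le_mul hVD hs2)) T hT
        refine (Finset.sum_le_card_nsmul _ _ _ h4).trans ?_
        rw [nsmul_eq_mul, Fintype.card_piFinset]
        simp only [Finset.prod_const, Finset.card_univ, Fintype.card_fin]
        push_cast
        refine mul_le_mul_of_nonneg_right ?_ (by positivity)
        exact pow_le_pow_left₀ (by positivity) hIcc _
    refine hcard.trans ?_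
    have e1 : (T : ℝ) * (C₁ * (T : ℝ) ^ ((N : ℝ) - c₁)) = C₁ * (T : ℝ) ^ (((N + 1 : ℕ) : ℝ) - c₁) := by
      have : (((N + 1 : ℕ) : ℝ) - c₁) = 1 + ((N : ℝ) - c₁) := by push_cast; ring
      rw [this, Real.rpow_add hT0, Real.rpow_one]
      ring
    have e2 : (T : ℝ) ^ N * (C₂ * (T : ℝ) ^ (1 - c₂)) = C₂ * (T : ℝ) ^ (((N + 1 : ℕ) : ℝ) - c₂) := by
      have : (((N + 1 : ℕ) : ℝ) - c₂) = (N : ℝ) + (1 - c₂) := by push_cast; ring
      rw [this, Real.rpow_add hT0, Real.rpow_natCast]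
      ring
    rw [e1, e2, add_mul]
    refine add_le_add (mul_le_mul_of_nonneg_left ?_ hC₁) (mul_le_mul_of_nonneg_left ?_ hC₂)
    · exact Real.rpow_le_rpow_of_exponent_le hT1 (by linarith [min_le_left c₁ c₂])
    · exact Real.rpow_le_rpow_of_exponent_le hT1 (by linarith [min_le_right c₁ c₂])

variable {n : ℕ}

open Classical in
/-- one parameter -/
theorem count_one (hn : Even n) {a : Fin n → ℝ} (ha : StrictMono a) (ha0 : ∀ i, a i ≠ 0) {m : Fin (n + 1)} {f : ℚ[X]}
    (h0 : InGap a m 0) (hf : f.map (algebraMap ℚ ℝ) = ∏ i, (X - C (a i))) (hf0 : f.coeff 0 ≠ 0) (Δ : ZDat n a m f)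
    (D0 : ℕ) {κ : Type} [Fintype κ] (k0 : κ) (b : κ → Fin n × Fin n → ℕ) (w : (Fin n × Fin n → ℕ) → κ → ℚ)
    (hb0 : b k0 = 0) (hbD : ∀ k, dg (b k) ≤ D0)
    (hw : ∀ s, dg s ≤ D0 → ∀ g ∈ SpS ℂ n, mnm g s = ∑ k, (w s k : ℂ) * mnm g (b k))
    (hb : ∀ x : κ → ℂ, (∀ g ∈ SpS ℂ n, ∑ k, x k * mnm g (b k) = 0) → x = 0) (D : ℕ) :
    ∃ c : ℝ, 0 < c ∧ ∃ C : ℝ, 0 ≤ C ∧ ∀ V : Submodule ℚ ℂ, Module.Finite ℚ V → Module.finrank ℚ V ≤ D →
      ∀ T : ℕ, 1 ≤ T → (((Finset.Icc 1 T).filter fun t : ℕ =>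
        LR V (fun k => ((mnm (Ez Δ.Z (1 / (t : ℝ))) (b k) : ℝ) : ℂ))).card : ℝ) ≤ C * (T : ℝ) ^ (1 - c) := by
  obtain ⟨G0, hG0, hwin⟩ := win_gen hn ha ha0 h0 hf hf0 Δ D0 k0 b w hb0 hbD hw hb
  obtain ⟨M, E, hME⟩ := hwin 1 D
  obtain ⟨c, hc0, hc1, C, hC0, hC⟩ := count_windows M (E + 1)
  refine ⟨c, hc0, C + 1, by positivity, fun V hV hVD T hT => ?_⟩
  have hT1 : (1 : ℝ) ≤ T := by exact_mod_cast hT
  set B : ℕ → Prop := fun t => LR V (fun k => ((mnm (Ez Δ.Z (1 / (t : ℝ))) (b k) : ℝ) : ℂ)) with hB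
  have h1 := hC B (by
    intro H t ht S hS
    have hH2 : 1 ≤ H + 2 := by omega
    have ht1 : (H + 2) ^ E ≤ t := (Nat.pow_le_pow_right hH2 (by omega)).trans ht
    have htH : H ≤ t := by
      have h2 : (H + 2) ^ 1 ≤ (H + 2) ^ (E + 1) := Nat.pow_le_pow_right hH2 (by omega)
      rw [pow_one] at h2
      omega
    obtain ⟨S', hS'1, hS'2⟩ := hME V hV hVD H t ht1
    refine (Finset.card_le_card ?_).trans hS'1
    intro g hg
    obtain ⟨hgH, x, hx0, hxV, hx⟩ := hS g hg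
    by_contra hgS'
    have h3 := hS'2 (fun _ => g) (fun l l' hll => absurd (Subsingleton.elim l l') hll) (fun _ => ⟨hgH, hgS'⟩)
      (fun e => x (e 0)) (fun e => hxV _) (by
        rw [← hx, ← (Equiv.funUnique (Fin 1) κ).symm.sum_comp]
        refine Finset.sum_congr rfl fun k _ => ?_
        have h4 : ((t - g : ℕ) : ℝ) = (t : ℝ) - g := by
          rw [Nat.cast_sub (hgH.trans htH)]
        rw [h4]
        simp)
    apply hx0
    funext k
    exact congrFun h3 (fun _ => k)) T hT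
  have hsub : (Finset.Icc 1 T).filter B ⊆ (Finset.Icc 2 T).filter B ∪ {1} := by
    intro t ht
    obtain ⟨ht1, ht2⟩ := Finset.mem_filter.1 ht
    rw [Finset.mem_Icc] at ht1
    rcases Nat.lt_or_ge 1 t with h | h
    · exact Finset.mem_union_left _ (Finset.mem_filter.2 ⟨Finset.mem_Icc.2 ⟨h, ht1.2⟩, ht2⟩)
    · refine Finset.mem_union_right _ (Finset.mem_singleton.2 ?_)
      omega
  have h2 : (((Finset.Icc 1 T).filter B).card : ℝ) ≤ (((Finset.Icc 2 T).filter B).card : ℝ) + 1 := by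
    have := (Finset.card_le_card hsub).trans (Finset.card_union_le _ _)
    rw [Finset.card_singleton] at this
    exact_mod_cast this
  have h3 : (1 : ℝ) ≤ (T : ℝ) ^ (1 - c) := Real.one_le_rpow hT1 (by linarith)
  calc (((Finset.Icc 1 T).filter B).card : ℝ) ≤ C * (T : ℝ) ^ (1 - c) + 1 := by linarith
    _ ≤ (C + 1) * (T : ℝ) ^ (1 - c) := by nlinarith

end Pool.Agent.Y118.HG
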