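import Pool.Agent.Y118.HG.Nr

/-!
# The unknown constants in Cayley coordinates, and the relation in all the coordinates
-/

set_option autoImplicit false
set_option maxHeartbeats 400000

open Matrix Polynomial Filter Topology

namespace Pool.Agent.Y118.HG

open Pool.Agent.Y118.HP Pool.Agent.Y113 Pool.Agent.Y37.GF

variable {n N : ℕ}

/-- the Cayley coordinates are algebraic over the entries -/
theorem co_alg {R : Type*} [CommRing R] [IsDomain R] [Algebra ℚ R] [Algebra R ℂ] [IsScalarTower ℚ R ℂ]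
    {S : Matrix (Fin n) (Fin n) ℂ} (h : ∀ i j, IsAlgebraic R (S i j)) (hd : cd S ≠ 0) (p : Sy n) :
    IsAlgebraic R (co S p) := by
  set L : Subalgebra R ℂ := Subalgebra.algebraicClosure R ℂ with hL
  set S' : Matrix (Fin n) (Fin n) L := Matrix.of fun i j => ⟨S i j, h i j⟩ with hS'
  have hm : S'.map (L.val : L →+* ℂ) = S := by ext i j; rfl
  have h1 : IsAlgebraic R (cn S p) := by
    have := cn_map (L.val : L →+* ℂ) S' p
    rw [hm] at this
    rw [← this]
    exact (cn S' p).2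
  have h2 : IsAlgebraic R (cd S) := by
    have := cd_map (L.val : L →+* ℂ) S'
    rw [hm] at this
    rw [← this]
    exact (cd S').2
  have h3 : co S p = (cd S)⁻¹ * cn S p := by
    rw [cn_eq hd, ← mul_assoc, inv_mul_cancel₀ hd, one_mul]
  rw [h3]
  exact h2.inv.mul h1

/-- the data of the constants -/
structure CDat (n : ℕ) (A : Matrix (Fin n) (Fin n) ℂ) where
  μ : ℂ
  μ2 : μ ^ 2 = -4 * Real.pi * Complex.I
  R0 : Matrix (Fin n) (Fin n) ℚ
  R1 : Matrix (Fin n) (Fin n) ℚ
  RR : R0 * R1 = 1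
  memA : μ⁻¹ • A * R0.map (algebraMap ℚ ℂ) ∈ SpS ℂ n
  cdA : cd (μ⁻¹ • A * R0.map (algebraMap ℚ ℂ)) ≠ 0

theorem exists_CDat (hn : Even n) {A : Matrix (Fin n) (Fin n) ℂ}
    (hA : A * jm ℂ n * A.transpose = (-4 * Real.pi * Complex.I : ℂ) • jm ℂ n) : Nonempty (CDat n A) := by
  obtain ⟨μ, hμ⟩ := IsAlgClosed.exists_pow_nat_eq (-4 * Real.pi * Complex.I : ℂ) (by norm_num : 0 < 2)
  have hpi : (Real.pi : ℂ) ≠ 0 := by exact_mod_cast Real.pi_ne_zero
  have hc0 : (-4 * Real.pi * Complex.I : ℂ) ≠ 0 := mul_ne_zero (mul_ne_zero (by norm_num) hpi) Complex.I_ne_zero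
  have hμ0 : μ ≠ 0 := by
    rintro rfl
    rw [zero_pow two_ne_zero] at hμ
    exact hc0 hμ.symm
  have hS : μ⁻¹ • A ∈ SpS ℂ n := by
    show μ⁻¹ • A * jm ℂ n * (μ⁻¹ • A).transpose = jm ℂ n
    rw [Matrix.transpose_smul, Matrix.smul_mul, Matrix.smul_mul, Matrix.mul_smul, hA, smul_smul, smul_smul, ← hμ]
    have : μ⁻¹ * μ⁻¹ * μ ^ 2 = 1 := by field_simp
    rw [this, one_smul]
  obtain ⟨R, hR, hcd⟩ := exists_R0 hn hS
  have hRdet : IsUnit R.det := by
    rw [isUnit_iff_ne_zero]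
    intro h0
    have h1 : R * jm ℚ n * R.transpose = jm ℚ n := hR
    have := congrArg Matrix.det h1
    rw [Matrix.det_mul, Matrix.det_mul, h0, zero_mul, zero_mul] at this
    exact jm_det hn this.symm
  exact ⟨⟨μ, hμ, R, R⁻¹, mul_nonsing_inv _ hRdet, SpS_mul hS (SpS_map _ hR), hcd⟩⟩

variable {A : Matrix (Fin n) (Fin n) ℂ}

namespace CDat

/-- the constants -/
noncomputable def w0 (c : CDat n A) (o : Option (Sy n)) : ℂ := o.elim c.μ (co (c.μ⁻¹ • A * c.R0.map (algebraMap ℚ ℂ)))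

theorem μ0 (c : CDat n A) : c.μ ≠ 0 := by
  intro h
  have h1 := c.μ2
  rw [h, zero_pow two_ne_zero] at h1
  have hpi : (Real.pi : ℂ) ≠ 0 := by exact_mod_cast Real.pi_ne_zero
  exact mul_ne_zero (mul_ne_zero (by norm_num) hpi) Complex.I_ne_zero h1.symm

/-- the constants are algebraic over the entries of `A` and `2πi` -/
theorem w0_alg (c : CDat n A) {R : Type*} [CommRing R] [IsDomain R] [Algebra ℚ R] [Algebra R ℂ] [IsScalarTower ℚ R ℂ]
    (h : ∀ i j, IsAlgebraic R (A i j)) (h2 : IsAlgebraic R (2 * Real.pi * Complex.I : ℂ)) (o : Option (Sy n)) :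
    IsAlgebraic R (c.w0 o) := by
  have hrat : ∀ q : ℚ, IsAlgebraic R (algebraMap ℚ ℂ q) := by
    intro q
    rw [IsScalarTower.algebraMap_apply ℚ R ℂ]
    exact isAlgebraic_algebraMap _
  have hμ : IsAlgebraic R c.μ := by
    refine IsAlgebraic.of_pow (n := 2) (by norm_num) ?_
    rw [c.μ2]
    have h3 : (-4 * Real.pi * Complex.I : ℂ) = algebraMap ℚ ℂ (-2) * (2 * Real.pi * Complex.I) := by
      rw [eq_ratCast]; push_cast; ring
    rw [h3]
    exact (hrat _).mul h2
  rcases o with _ | p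
  · exact hμ
  · refine co_alg (fun i j => ?_) c.cdA p
    have hL : ∀ i j, (c.μ⁻¹ • A * c.R0.map (algebraMap ℚ ℂ)) i j ∈ Subalgebra.algebraicClosure R ℂ := by
      intro i j
      rw [Matrix.mul_apply]
      refine Subalgebra.sum_mem _ fun k _ => ?_
      rw [Matrix.smul_apply, Matrix.map_apply, smul_eq_mul]
      exact (hμ.inv.mul (h i k)).mul (hrat _)
    exact hL i j

theorem De_w0 (hn : Even n) (c : CDat n A) : De (fun p => c.w0 (some p)) ≠ 0 ∧
    c.μ • (Cay (fun p => c.w0 (some p)) * c.R1.map (algebraMap ℚ ℂ)) = A := by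
  have h1 := Cay_co hn c.memA c.cdA
  have h2 : (fun p => c.w0 (some p)) = co (c.μ⁻¹ • A * c.R0.map (algebraMap ℚ ℂ)) := rfl
  rw [h2]
  refine ⟨h1.1, ?_⟩
  rw [h1.2, Matrix.mul_assoc, ← Matrix.map_mul, c.RR]
  have h3 : (1 : Matrix (Fin n) (Fin n) ℚ).map (algebraMap ℚ ℂ) = 1 := Matrix.map_one _ (map_zero _) (map_one _)
  rw [h3, mul_one, smul_smul, mul_inv_cancel₀ c.μ0, one_smul]

end CDat

/-- the generic coordinates of the constants -/
noncomputable def YA (N n : ℕ) (p : Sy n) : MvPolynomial (Option (Sy n) ⊕ Fin N × Sy n) ℚ := MvPolynomial.X (Sum.inl (some p))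

/-- the generic coordinates of the values -/
noncomputable def Yx (N n : ℕ) (l : Fin N) (p : Sy n) : MvPolynomial (Option (Sy n) ⊕ Fin N × Sy n) ℚ :=
  MvPolynomial.X (Sum.inr (l, p))

/-- the common denominator -/
noncomputable def denW (N n : ℕ) : MvPolynomial (Option (Sy n) ⊕ Fin N × Sy n) ℚ := De (YA N n) * ∏ l, De (Yx N n l)

/-- the product of the numerators -/
noncomputable def Pr (N : ℕ) (R1 : Matrix (Fin n) (Fin n) ℚ) (l : Fin N) :
    Matrix (Fin n) (Fin n) (MvPolynomial (Option (Sy n) ⊕ Fin N × Sy n) ℚ) :=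
  Nc (YA N n) * R1.map MvPolynomial.C * Nc (Yx N n l)

/-- the numerators -/
noncomputable def numW (N : ℕ) (R1 : Matrix (Fin n) (Fin n) ℚ) (o : Option (Fin N × Fin n × Fin n)) :
    MvPolynomial (Option (Sy n) ⊕ Fin N × Sy n) ℚ :=
  o.elim (MvPolynomial.C (-1 / 2) * MvPolynomial.X (Sum.inl none) ^ 2 * denW N n) fun x =>
    MvPolynomial.X (Sum.inl none) * Pr N R1 x.1 x.2.1 x.2.2 *
      ∏ l ∈ Finset.univ.erase x.1, De (Yx N n l)

theorem De_val {ρ : Type*} {B : Type*} [CommRing B] [Algebra ℚ B] (v : ρ → B) (y : Sy n → MvPolynomial ρ ℚ) :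
    MvPolynomial.aeval v (De y) = De fun p => MvPolynomial.aeval v (y p) :=
  De_map ((MvPolynomial.aeval v : MvPolynomial ρ ℚ →ₐ[ℚ] B) : MvPolynomial ρ ℚ →+* B) y

theorem Nc_val {ρ : Type*} {B : Type*} [CommRing B] [Algebra ℚ B] (v : ρ → B) (y : Sy n → MvPolynomial ρ ℚ) :
    (Nc y).map ((MvPolynomial.aeval v : MvPolynomial ρ ℚ →ₐ[ℚ] B) : MvPolynomial ρ ℚ →+* B) =
      Nc fun p => MvPolynomial.aeval v (y p) :=
  Nc_map ((MvPolynomial.aeval v : MvPolynomial ρ ℚ →ₐ[ℚ] B) : MvPolynomial ρ ℚ →+* B) y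

variable (w : Option (Sy n) → ℂ) (y : Fin N × Sy n → ℂ)

theorem denW_val : MvPolynomial.aeval (Sum.elim w y) (denW N n) =
    De (fun p => w (some p)) * ∏ l, De (fun p => y (l, p)) := by
  unfold denW
  rw [map_mul, map_prod, De_val]
  have e1 : (fun p => MvPolynomial.aeval (Sum.elim w y) (YA N n p)) = fun p => w (some p) := by
    funext p
    simp [YA]
  rw [e1]
  congr 1
  refine Finset.prod_congr rfl fun l _ => ?_
  have e2 : (fun p => MvPolynomial.aeval (Sum.elim w y) (Yx N n l p)) = fun p => y (l, p) := by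
    funext p
    simp [Yx]
  rw [De_val, e2]

theorem YA_val : (fun p => MvPolynomial.aeval (Sum.elim w y) (YA N n p)) = fun p => w (some p) := by
  funext p
  simp [YA]

theorem Yx_val (l : Fin N) : (fun p => MvPolynomial.aeval (Sum.elim w y) (Yx N n l p)) = fun p => y (l, p) := by
  funext p
  simp [Yx]

theorem RC_val {ρ : Type*} (v : ρ → ℂ) (R1 : Matrix (Fin n) (Fin n) ℚ) :
    (R1.map (MvPolynomial.C : ℚ →+* MvPolynomial ρ ℚ)).map
      ((MvPolynomial.aeval v : MvPolynomial ρ ℚ →ₐ[ℚ] ℂ) : MvPolynomial ρ ℚ →+* ℂ) = R1.map (algebraMap ℚ ℂ) := by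
  ext a b
  rw [Matrix.map_apply, Matrix.map_apply, Matrix.map_apply]
  exact MvPolynomial.aeval_C _ _

theorem Pr_val (R1 : Matrix (Fin n) (Fin n) ℚ) (l : Fin N) (i j : Fin n) :
    MvPolynomial.aeval (Sum.elim w y) (Pr N R1 l i j) =
      (Nc (fun p => w (some p)) * R1.map (algebraMap ℚ ℂ) * Nc (fun p => y (l, p))) i j := by
  have h2 : ((Pr N R1 l).map
      ((MvPolynomial.aeval (Sum.elim w y) : MvPolynomial (Option (Sy n) ⊕ Fin N × Sy n) ℚ →ₐ[ℚ] ℂ) :
        MvPolynomial (Option (Sy n) ⊕ Fin N × Sy n) ℚ →+* ℂ)) =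
      Nc (fun p => w (some p)) * R1.map (algebraMap ℚ ℂ) * Nc (fun p => y (l, p)) := by
    unfold Pr
    rw [Matrix.map_mul, Matrix.map_mul, Nc_val, Nc_val, RC_val, YA_val, Yx_val]
  exact congrFun (congrFun h2 i) j

theorem numW_val (R1 : Matrix (Fin n) (Fin n) ℚ) (hw : De (fun p => w (some p)) ≠ 0)
    (hy : ∀ l, De (fun p => y (l, p)) ≠ 0) (o : Option (Fin N × Fin n × Fin n)) :
    MvPolynomial.aeval (Sum.elim w y) (numW N R1 o) = MvPolynomial.aeval (Sum.elim w y) (denW N n) *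
      pt (fun l => w none • (Cay (fun p => w (some p)) * R1.map (algebraMap ℚ ℂ)) * Cay (fun p => y (l, p)))
        (-1 / 2 * w none ^ 2) o := by
  rcases o with _ | ⟨l, i, j⟩
  · unfold numW
    simp only [Option.elim, map_mul, map_pow, MvPolynomial.aeval_X, MvPolynomial.aeval_C, pt, Sum.elim_inl,
      eq_ratCast]
    push_cast
    ring
  · have h3 : Nc (fun p => w (some p)) = De (fun p => w (some p)) • Cay (fun p => w (some p)) := by
      unfold Cay
      rw [smul_smul, mul_inv_cancel₀ hw, one_smul]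
    have h4 : Nc (fun p => y (l, p)) = De (fun p => y (l, p)) • Cay (fun p => y (l, p)) := by
      unfold Cay
      rw [smul_smul, mul_inv_cancel₀ (hy l), one_smul]
    have h5 : ∏ l' ∈ Finset.univ.erase l, MvPolynomial.aeval (Sum.elim w y) (De (Yx N n l')) =
        ∏ l' ∈ Finset.univ.erase l, De (fun p => y (l', p)) := by
      refine Finset.prod_congr rfl fun l' _ => ?_
      rw [De_val, Yx_val]
    have h6 : MvPolynomial.aeval (Sum.elim w y) (numW N R1 (some (l, i, j))) =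
        w none * (Nc (fun p => w (some p)) * R1.map (algebraMap ℚ ℂ) * Nc (fun p => y (l, p))) i j *
          ∏ l' ∈ Finset.univ.erase l, De (fun p => y (l', p)) := by
      unfold numW
      rw [Option.elim_some, map_mul, map_mul, map_prod, MvPolynomial.aeval_X, Pr_val, h5]
      rfl
    rw [h6, denW_val, h3, h4, ← Finset.mul_prod_erase Finset.univ (fun l => De (fun p => y (l, p)))
      (Finset.mem_univ l)]
    have h7 : pt (fun l => w none • (Cay (fun p => w (some p)) * R1.map (algebraMap ℚ ℂ)) * Cay (fun p => y (l, p)))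
        (-1 / 2 * w none ^ 2) (some (l, i, j)) =
        w none * (Cay (fun p => w (some p)) * R1.map (algebraMap ℚ ℂ) * Cay (fun p => y (l, p))) i j := by
      show (w none • (Cay (fun p => w (some p)) * R1.map (algebraMap ℚ ℂ)) * Cay (fun p => y (l, p))) i j = _
      rw [Matrix.smul_mul, Matrix.smul_apply, smul_eq_mul]
    rw [h7]
    rw [Matrix.smul_mul, Matrix.smul_mul, Matrix.mul_smul, Matrix.smul_apply, Matrix.smul_apply, smul_eq_mul,
      smul_eq_mul]
    ring

/-- right multiplication by rational matrices -/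
noncomputable def sbU (U : Fin N → Matrix (Fin n) (Fin n) ℚ) (M : MvPolynomial (Option (Fin N × Fin n × Fin n)) ℚ) :
    MvPolynomial (Option (Fin N × Fin n × Fin n)) ℚ :=
  MvPolynomial.aeval (fun o : Option (Fin N × Fin n × Fin n) => (o.elim (MvPolynomial.X none) fun x =>
    ∑ q, MvPolynomial.C (U x.1 q x.2.2) * MvPolynomial.X (some (x.1, x.2.1, q)) :
      MvPolynomial (Option (Fin N × Fin n × Fin n)) ℚ)) M

theorem sbU_deg (U : Fin N → Matrix (Fin n) (Fin n) ℚ) {M : MvPolynomial (Option (Fin N × Fin n × Fin n)) ℚ} {d : ℕ}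
    (hM : M.totalDegree ≤ d) : (sbU U M).totalDegree ≤ d := by
  refine aeval_deg hM fun o => ?_
  rcases o with _ | x
  · simp only [Option.elim]
    exact (MvPolynomial.totalDegree_X _).le
  · simp only [Option.elim]
    refine MvPolynomial.totalDegree_finsetSum_le fun q _ => ?_
    refine (MvPolynomial.totalDegree_mul _ _).trans ?_
    rw [MvPolynomial.totalDegree_C, MvPolynomial.totalDegree_X]

theorem sbU_val (U : Fin N → Matrix (Fin n) (Fin n) ℚ) (M : MvPolynomial (Option (Fin N × Fin n × Fin n)) ℚ)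
    (X : Fin N → Matrix (Fin n) (Fin n) ℂ) (lam : ℂ) : MvPolynomial.aeval (pt X lam) (sbU U M) =
      MvPolynomial.aeval (pt (fun l => X l * (U l).map (algebraMap ℚ ℂ)) lam) M := by
  unfold sbU
  rw [MvPolynomial.comp_aeval_apply]
  congr 2
  funext o
  rcases o with _ | ⟨l, i, j⟩
  · simp [pt]
  · simp only [Option.elim, map_sum, map_mul, MvPolynomial.aeval_C, MvPolynomial.aeval_X, pt]
    rw [Matrix.mul_apply]
    refine Finset.sum_congr rfl fun q _ => ?_
    rw [Matrix.map_apply, mul_comm]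

end Pool.Agent.Y118.HG
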