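import Pool.Agent.Y113.P.SD
import Pool.Agent.Y118.HP.Real

/-!
# Project HG: G-functions of hyperelliptic families `y² = f(x) (x - t)` near `t = 0`. Statements of the tasks

`f ∈ ℚ[X]`, `f(0) ≠ 0`. The periods `P_j = ∫ x^j dx / √(f(x) (x - t))` satisfy `f(t) P_j' = ∑_k cA_(jk)(t) P_k`.
-/

set_option autoImplicit false

open Polynomial

namespace Pool.Agent.Y118.HG

open Pool.Agent.Y113 Pool.Agent.Y118.HP

/-- the connection matrix: `f P_j' = ∑_k cA_(jk) P_k` -/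
noncomputable def cA (n : ℕ) (f : ℚ[X]) (j k : Fin n) : ℚ[X] :=
  X ^ (j : ℕ) * (C (1 / 2 : ℚ) * (C ((((k : ℕ) : ℚ) + 1) * f.coeff ((k : ℕ) + 1)) -
    ∑ c ∈ Finset.Ioc (k : ℕ) n, C (f.coeff c) * X ^ (c - 1 - (k : ℕ)))) +
  (if (k : ℕ) < (j : ℕ) then C (1 / 2 : ℚ) * f * X ^ ((j : ℕ) - 1 - (k : ℕ)) else 0)

/-- Galochkin's condition for a fundamental matrix `y` (rows are solutions), `w` its inverse -/
def T_gal : Prop := ∀ n q : ℕ, ∃ E : ℕ, ∀ (C : ℝ) (T : ℤ[X]) (A : Fin n → Fin n → ℤ[X])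
  (y w : Fin n → Fin n → PowerSeries ℚ), 1 ≤ C → Bd q C T → (∀ i j, Bd q C (A i j)) →
  (∀ i j, ps T * PowerSeries.derivative ℚ (y i j) = ∑ k, y i k * ps (A k j)) →
  (∀ i j, ∑ k, w i k * y k j = if i = j then 1 else 0) →
  (∀ i j, SDp C (y i j)) → (∀ i j, SDp C (w i j)) →
  GSys q ((2 * C) ^ E) T (fun o : Option (Fin n × Fin n) => o.elim 1 fun p => y p.1 p.2)

/-- the formal solution at `0`: it is a matrix of G-functions -/
def T_form : Prop := ∀ (n : ℕ) (f : ℚ[X]), f.natDegree ≤ n → f.coeff 0 ≠ 0 →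
  ∃ Y : Fin n → Fin n → PowerSeries ℚ, (∀ i j, PowerSeries.constantCoeff (Y i j) = if i = j then 1 else 0) ∧
    (∀ i j, (f : PowerSeries ℚ) * PowerSeries.derivative ℚ (Y i j) = ∑ k, Y i k * (cA n f j k : PowerSeries ℚ)) ∧
    ∀ i j, SDc (Y i j)

/-- the differential equation of the periods -/
def T_pode : Prop := ∀ (n : ℕ) (a : Fin n → ℝ) (m : Fin (n + 1)) (f : ℚ[X]) (t : ℝ), StrictMono a → InGap a m t →
  f.map (algebraMap ℚ ℝ) = ∏ i, (X - C (a i)) → ∀ l j : Fin n,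
  HasDerivAt (fun s => perT (er a m s) l (j : ℕ))
    ((∑ k : Fin n, aeval t (cA n f j k) * perT (er a m t) l (k : ℕ)) / aeval t f) t

end Pool.Agent.Y118.HG
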