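import Pool.Agent.Y118.HG.Defs

/-!
# Project HG: statements of the tasks, II
-/

set_option autoImplicit false

open Polynomial

namespace Pool.Agent.Y118.HG

open Pool.Agent.Y113 Pool.Agent.Y118.HP

/-- all shifts of a matrix of G-functions form G-systems, with polynomial constants -/
def T_one : Prop := ∀ (n : ℕ) (f : ℚ[X]) (A : Fin n → Fin n → ℚ[X]) (Z W : Fin n → Fin n → PowerSeries ℚ),
  f.coeff 0 ≠ 0 →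
  (∀ i j, (f : PowerSeries ℚ) * PowerSeries.derivative ℚ (Z i j) = ∑ k, Z i k * (A k j : PowerSeries ℚ)) →
  (∀ i j, ∑ k, W i k * Z k j = if i = j then 1 else 0) → (∀ i j, SDc (Z i j)) → (∀ i j, SDc (W i j)) →
  ∃ (q E : ℕ) (TT : ℕ → ℤ[X]),
    (∀ g : ℕ, GSys q (((g : ℝ) + 2) ^ E) (TT g)
      (fun o : Option (Fin n × Fin n) => o.elim 1 fun p => (Z p.1 p.2).subst (sh g))) ∧
    ∀ g t : ℕ, ((g : ℝ) + 2) ^ E ≤ (t : ℝ) → aeval (1 / (t : ℝ)) (TT g) ≠ 0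

/-- monomials of bounded degree and products over the shifts -/
def T_mon : Prop := ∀ (ι κ : Type) [Fintype ι] [Fintype κ] (Δ : ℕ) (b : κ → ι → ℕ) (R : (ι → ℕ) → κ → ℚ)
  (TT : ℕ → ℤ[X]) (y : ℕ → ι → PowerSeries ℚ) (q E : ℕ), (∀ k, ∑ i, b k i ≤ Δ) →
  (∀ (g : ℕ) (s : ι → ℕ), ∑ i, s i ≤ Δ → ∏ i, y g i ^ s i = ∑ k, PowerSeries.C (R s k) * ∏ i, y g i ^ b k i) →
  (∀ g : ℕ, GSys q (((g : ℝ) + 2) ^ E) (TT g) (fun o : Option ι => o.elim 1 (y g))) →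
  ∀ r : ℕ, ∃ q' E' : ℕ, ∀ (H : ℕ) (g : Fin r → ℕ), (∀ l, g l ≤ H) →
    GSys q' (((H : ℝ) + 2) ^ E') (∏ l, TT (g l)) (fun e : Fin r → κ => ∏ l, ∏ i, y (g l) i ^ b (e l) i)

/-- separated shifts -/
def SepN (G0 : ℕ) {r : ℕ} (g : Fin r → ℕ) : Prop := ∀ l l', l ≠ l' → (G0 : ℤ) ≤ |(g l : ℤ) - g l'|

/-- a bounded set of integers meets all the bad tuples of a window -/
def T_wk : Prop := ∀ (κ : Type) [Fintype κ] (k0 : κ) (G0 : ℕ) (TT : ℕ → ℤ[X]) (w : ℕ → κ → PowerSeries ℚ),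
  0 < G0 → (∀ g, w g k0 = 1) →
  (∀ r : ℕ, ∃ q E : ℕ, ∀ (H : ℕ) (g : Fin r → ℕ), (∀ l, g l ≤ H) →
    GSys q (((H : ℝ) + 2) ^ E) (∏ l, TT (g l)) (fun e : Fin r → κ => ∏ l, w (g l) (e l))) →
  (∀ (r : ℕ) (g : Fin r → ℕ), SepN G0 g → LinearIndependent ℚ[X] (fun e : Fin r → κ => ∏ l, w (g l) (e l))) →
  (∃ E : ℕ, ∀ g t : ℕ, ((g : ℝ) + 2) ^ E ≤ (t : ℝ) → aeval (1 / (t : ℝ)) (TT g) ≠ 0) →
  ∀ k D : ℕ, ∃ M E : ℕ, ∀ V : Submodule ℚ ℂ, Module.Finite ℚ V → Module.finrank ℚ V ≤ D →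
    ∀ H t : ℕ, (H + 2) ^ E ≤ t → ∃ S : Finset ℕ, S.card ≤ M ∧ ∀ g : Fin k → ℕ, SepN G0 g →
      (∀ i, g i ≤ H ∧ g i ∉ S) → ∀ c : (Fin k → κ) → ℂ, (∀ e, c e ∈ V) →
      ∑ e, c e * ∏ i, (ev t (w (g i) (e i)) : ℂ) = 0 → c = 0

end Pool.Agent.Y118.HG
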