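import Pool.Agent.Y118.HP.Alg1

/-!
# Submonoids of matrices which contain the elementary transvections and polynomial families
-/

set_option autoImplicit false

open Complex Set Matrix

namespace Pool.Agent.Y118.HG

open Pool.Agent.Y118.HP

variable {n : ℕ}

/-- closure under polynomial families -/
def PF (S : Submonoid (Matrix (Fin n) (Fin n) ℂ)) : Prop :=
  ∀ (M : Matrix (Fin n) (Fin n) (Polynomial ℂ)) (A : Set ℂ), A.Infinite →
    (∀ s ∈ A, M.map (Polynomial.eval s) ∈ S) → ∀ s, M.map (Polynomial.eval s) ∈ S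

/-- the vectors whose transvections are in `S` -/
def VS (S : Submonoid (Matrix (Fin n) (Fin n) ℂ)) : Set (Fin n → ℂ) := {v | ∀ s, TV v s ∈ S}

variable {S : Submonoid (Matrix (Fin n) (Fin n) ℂ)}

theorem Tk_all (hS : PF S) {k : Fin n} {c : ℂ} (hc : c ≠ 0) (h : Tk k c ∈ S) (s : ℂ) : Tk k s ∈ S := by
  rw [← Tk_poly]
  refine hS _ _ (infinite_mul hc) ?_ s
  rintro _ ⟨r, rfl⟩
  rw [Tk_poly, ← Tk_pow]
  exact pow_mem h r

theorem vs_single (hT : ∀ (k : Fin n) (s : ℂ), Tk k s ∈ S) (k : Fin n) : (Pi.single k 1 : Fin n → ℂ) ∈ VS S := by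
  intro s
  rw [TV_single]
  exact hT k _

theorem vs_smul {v : Fin n → ℂ} (hv : v ∈ VS S) (c : ℂ) : c • v ∈ VS S := by
  intro s
  rw [TV_smul]
  exact hv _

theorem vs_add {u v : Fin n → ℂ} (hu : u ∈ VS S) (hv : v ∈ VS S) (h : om u v ≠ 0) (c : ℂ) : v + c • u ∈ VS S := by
  intro r
  have h1 := TV_conj u v (c / om u v) r
  rw [div_mul_cancel₀ _ h] at h1
  rw [← h1]
  exact mul_mem (mul_mem (hu _) (hv _)) (hu _)

theorem vs_closed (hS : PF S) {v w : Fin n → ℂ} (h : ∀ c : ℂ, c ≠ 0 → v + c • w ∈ VS S) : v ∈ VS S := by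
  intro s
  set M : Matrix (Fin n) (Fin n) (Polynomial ℂ) :=
    1 + (Polynomial.C s : Polynomial ℂ) • vecMulVec
      (fun l => Polynomial.C ((jm ℂ n *ᵥ v) l) + Polynomial.X * Polynomial.C ((jm ℂ n *ᵥ w) l))
      (fun l => Polynomial.C (v l) + Polynomial.X * Polynomial.C (w l)) with hM
  have hMe : ∀ c : ℂ, M.map (Polynomial.eval c) = TV (v + c • w) s := by
    intro c
    ext l k
    unfold TV
    rw [hM]
    simp only [Matrix.map_apply, Matrix.add_apply, Matrix.smul_apply, smul_eq_mul, vecMulVec_apply,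
      Polynomial.eval_add, Polynomial.eval_mul, Polynomial.eval_X, Polynomial.eval_C, mulVec_add, mulVec_smul,
      Pi.add_apply, Pi.smul_apply]
    congr 1
    rw [Matrix.one_apply, Matrix.one_apply]
    split_ifs <;> simp
  have h1 := hS M {c | c ≠ 0} (by
    have : ({c : ℂ | c ≠ 0}) = ({0} : Set ℂ)ᶜ := by ext; simp
    rw [this]
    exact (Set.finite_singleton (0 : ℂ)).infinite_compl) (fun c hc => by rw [hMe]; exact h c hc s) 0
  rw [hMe] at h1
  simpa using h1

theorem vs_supp (hS : PF S) (hT : ∀ (k : Fin n) (s : ℂ), Tk k s ∈ S) (r : ℕ) :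
    r ≤ n → ∀ v : Fin n → ℂ, (∀ i : Fin n, r ≤ i → v i = 0) → v ∈ VS S := by
  induction r with
  | zero =>
    intro _ v hv s
    have : v = 0 := by funext i; exact hv i (Nat.zero_le _)
    rw [this]
    have h2 : TV (0 : Fin n → ℂ) s = 1 := by unfold TV; simp
    rw [h2]
    exact one_mem _
  | succ r ih =>
    intro hr v hv
    have hrn : r < n := hr
    set k : Fin n := ⟨r, hrn⟩ with hk
    set w : Fin n → ℂ := fun i => if (i : ℕ) < r then v i else 0 with hw
    have hvw : v = w + v k • (Pi.single k 1 : Fin n → ℂ) := by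
      funext i
      rw [hw]
      simp only [Pi.add_apply, Pi.smul_apply, smul_eq_mul]
      rcases lt_trichotomy (i : ℕ) r with h | h | h
      · have : i ≠ k := by intro hh; rw [hh] at h; simp [hk] at h
        rw [if_pos h, Pi.single_eq_of_ne this]; ring
      · have : i = k := Fin.ext h
        rw [if_neg (by omega), this, Pi.single_eq_same]; ring
      · have : i ≠ k := by intro hh; rw [hh] at h; simp [hk] at h
        rw [if_neg (by omega), Pi.single_eq_of_ne this, hv i h]; ring
    have hwV : w ∈ VS S := ih (by omega) w fun i hi => by rw [hw]; simp only; rw [if_neg (by omega)]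
    have hsk := vs_single hT k
    rw [hvw]
    rcases Nat.eq_zero_or_pos r with h0 | hpos
    · have hw0 : w = 0 := by
        funext i; rw [hw]; simp only; rw [if_neg (by omega)]; rfl
      rw [hw0, zero_add]
      exact vs_smul hsk _
    · set k' : Fin n := ⟨r - 1, by omega⟩ with hk'
      have homk : om (Pi.single k 1) (Pi.single k' 1 : Fin n → ℂ) ≠ 0 := by
        rw [om_single, mulVec_single_one]
        show jm ℂ n k k' ≠ 0
        rw [jm_apply, if_pos (by left; simp [hk, hk']; omega)]
        simp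
      have hlin : ∀ c : ℂ, om (Pi.single k 1) (w + c • (Pi.single k' 1 : Fin n → ℂ)) =
          om (Pi.single k 1) w + c * om (Pi.single k 1) (Pi.single k' 1 : Fin n → ℂ) := by
        intro c
        unfold om
        rw [mulVec_add, mulVec_smul, dotProduct_add, dotProduct_smul, smul_eq_mul]
      by_cases h1 : om (Pi.single k 1) w = 0
      · refine vs_closed hS (w := (Pi.single k' 1 : Fin n → ℂ)) fun c hc => ?_
        have h2 : w + c • (Pi.single k' 1 : Fin n → ℂ) ∈ VS S := by
          refine ih (by omega) _ fun i hi => ?_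
          have : i ≠ k' := by
            intro hh; rw [hh] at hi; simp [hk'] at hi; omega
          rw [hw]
          simp only [Pi.add_apply, Pi.smul_apply, smul_eq_mul]
          rw [if_neg (by omega), Pi.single_eq_of_ne this]; ring
        have h3 : om (Pi.single k 1) (w + c • (Pi.single k' 1 : Fin n → ℂ)) ≠ 0 := by
          rw [hlin, h1, zero_add]
          exact mul_ne_zero hc homk
        have h4 := vs_add hsk h2 h3 (v k)
        have e : w + v k • (Pi.single k 1 : Fin n → ℂ) + c • (Pi.single k' 1 : Fin n → ℂ) =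
            w + c • (Pi.single k' 1 : Fin n → ℂ) + v k • (Pi.single k 1 : Fin n → ℂ) := by abel
        rw [e]
        exact h4
      · exact vs_add hsk hwV h1 (v k)

/-- such a submonoid contains the symplectic group -/
theorem sp_mem_of (hn : Even n) (hS : PF S) (hT : ∀ (k : Fin n) (s : ℂ), Tk k s ∈ S)
    {h : Matrix (Fin n) (Fin n) ℂ} (hh : h ∈ SpS ℂ n) : h ∈ S :=
  sp_gen hn S (fun v => vs_supp hS hT n le_rfl v fun i hi => absurd i.2 (not_lt.2 hi)) h hh

end Pool.Agent.Y118.HG
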