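import Pool.Agent.Y118.HG.Vmain
import Pool.Agent.H340R2.LW

/-!
# The main theorem, coefficients in number fields of bounded degree
-/

set_option autoImplicit false
set_option maxHeartbeats 400000

open Matrix Polynomial Filter Topology NumberField

namespace Pool.Agent.Y118.HG

open Pool.Agent.Y118.HP Pool.Agent.Y113 Pool.Agent.Y37.GF

variable {n N : ℕ}

/-- clearing denominators -/
theorem exists_integral {σ : Type*} {K : Type*} [Field K] [NumberField K] (P : MvPolynomial σ K) :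
    ∃ (q : K) (P' : MvPolynomial σ (𝓞 K)), q ≠ 0 ∧ P'.totalDegree ≤ P.totalDegree ∧
      P'.map (algebraMap (𝓞 K) K) = MvPolynomial.C q * P := by
  classical
  obtain ⟨b, hb⟩ := IsLocalization.exist_integer_multiples_of_finset (nonZeroDivisors (𝓞 K))
    (P.support.image fun s => P.coeff s)
  have h1 : ∀ s, ∃ z : 𝓞 K, algebraMap (𝓞 K) K z = algebraMap (𝓞 K) K b * P.coeff s := by
    intro s
    by_cases hs : s ∈ P.support
    · obtain ⟨z, hz⟩ := hb (P.coeff s) (Finset.mem_image_of_mem _ hs)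
      refine ⟨z, ?_⟩
      rw [hz, Algebra.smul_def]
    · refine ⟨0, ?_⟩
      rw [MvPolynomial.notMem_support_iff.1 hs]
      simp
  choose z hz using h1
  refine ⟨algebraMap (𝓞 K) K b, ∑ s ∈ P.support, MvPolynomial.monomial s (z s), ?_, ?_, ?_⟩
  · intro h0
    have h2 : (b : 𝓞 K) = 0 := by
      have := (FaithfulSMul.algebraMap_injective (𝓞 K) K)
      exact this (by rw [h0, map_zero])
    exact nonZeroDivisors.ne_zero b.2 h2
  · refine MvPolynomial.totalDegree_finsetSum_le fun s hs => ?_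
    refine (MvPolynomial.totalDegree_monomial_le _ _).trans ?_
    exact MvPolynomial.le_totalDegree hs
  · rw [map_sum]
    conv_rhs => rw [P.as_sum]
    rw [Finset.mul_sum]
    refine Finset.sum_congr rfl fun s _ => ?_
    rw [MvPolynomial.map_monomial, hz, MvPolynomial.C_mul_monomial]

/-- the square roots of `2πi` are transcendental -/
theorem transc {μ : ℂ} (hμ : μ ^ 2 = 2 * Real.pi * Complex.I) : Transcendental ℚ μ := by
  intro h
  have h1 : IsAlgebraic ℚ (μ ^ 2) := h.pow 2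
  rw [hμ] at h1
  apply Pool.Agent.H340R2.LW.transcendental_pi_complex
  have h2 : IsAlgebraic ℚ (2 * Complex.I : ℂ) := by
    have h3 : IsAlgebraic ℚ (2 : ℂ) := by
      have := isAlgebraic_algebraMap (R := ℚ) (A := ℂ) (2 : ℚ)
      simpa using this
    exact h3.mul Pool.Agent.H340R2.LW.isAlgebraic_I
  have hI := Complex.I_ne_zero
  have h3 : (Real.pi : ℂ) = (2 * Real.pi * Complex.I) * (2 * Complex.I)⁻¹ := by field_simp
  rw [h3]
  exact h1.mul h2.inv

/-- from the fibre over `2πi` to the whole torsor -/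
theorem fib_to_tor (hn : Even n) (X0 : Fin N → Matrix (Fin n) (Fin n) ℚ)
    (M : MvPolynomial (Option (Fin N × Fin n × Fin n)) ℤ)
    (h : ∀ (μ : ℂ) (g : Fin N → Matrix (Fin n) (Fin n) ℂ), μ ^ 2 = 2 * Real.pi * Complex.I → (∀ j, g j ∈ SpS ℂ n) →
      MvPolynomial.aeval (Phi (fun j => (X0 j).map (algebraMap ℚ ℂ)) μ g) M = 0) :
    ∀ (μ : ℂ) (g : Fin N → Matrix (Fin n) (Fin n) ℂ), (∀ j, g j ∈ SpS ℂ n) →
      MvPolynomial.aeval (Phi (fun j => (X0 j).map (algebraMap ℚ ℂ)) μ g) M = 0 := by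
  classical
  obtain ⟨μ0, hμ0⟩ := IsAlgClosed.exists_pow_nat_eq (2 * Real.pi * Complex.I : ℂ) (by norm_num : 0 < 2)
  have hrat : ∀ (g : Fin N → Matrix (Fin n) (Fin n) ℚ), (∀ j, g j ∈ SpS ℚ n) → ∀ μ : ℂ,
      MvPolynomial.aeval (Phi (fun j => (X0 j).map (algebraMap ℚ ℂ)) μ (fun j => (g j).map (algebraMap ℚ ℂ))) M = 0 := by
    intro g hg μ
    set q : ℚ[X] := MvPolynomial.aeval (Phi (fun j => (X0 j).map C) X (fun j => (g j).map C)) M with hq
    have hev : ∀ s : ℂ, aeval s q =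
        MvPolynomial.aeval (Phi (fun j => (X0 j).map (algebraMap ℚ ℂ)) s (fun j => (g j).map (algebraMap ℚ ℂ))) M := by
      intro s
      have h1 := MvPolynomial.comp_aeval_apply (f := Phi (fun j => (X0 j).map C) X (fun j => (g j).map C))
        ((aeval s : ℚ[X] →ₐ[ℚ] ℂ).restrictScalars ℤ) M
      rw [AlgHom.restrictScalars_apply] at h1
      rw [hq, h1]
      congr 2
      funext o
      have h2 := Phi_map ((aeval s : ℚ[X] →ₐ[ℚ] ℂ) : ℚ[X] →+* ℂ) (fun j => (X0 j).map C) X (fun j => (g j).map C) o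
      have h3 : (fun j => ((X0 j).map C).map ((aeval s : ℚ[X] →ₐ[ℚ] ℂ) : ℚ[X] →+* ℂ)) =
          fun j => (X0 j).map (algebraMap ℚ ℂ) := by
        funext j; ext a b; simp
      have h4 : (fun j => ((g j).map C).map ((aeval s : ℚ[X] →ₐ[ℚ] ℂ) : ℚ[X] →+* ℂ)) =
          fun j => (g j).map (algebraMap ℚ ℂ) := by
        funext j; ext a b; simp
      rw [h3, h4] at h2
      simpa using h2
    have h1 : aeval μ0 q = 0 := by
      rw [hev]
      exact h μ0 _ hμ0 fun j => SpS_map _ (hg j)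
    have h2 : q = 0 := by
      by_contra hne
      exact transc hμ0 ⟨q, hne, h1⟩
    rw [← hev, h2, map_zero]
  have h5 := dense_tor hn (fun j => (X0 j).map (algebraMap ℚ ℂ)) (M.map (Int.castRingHom ℂ)) (fun ρ g _ hg => by
    rw [← aeval_int_map]
    exact hrat g hg _)
  intro μ g hg
  rw [aeval_int_map]
  exact h5 μ g hg

set_option maxHeartbeats 1000000 in
/-- the main theorem with coefficients in number fields -/
theorem kver (hn : Even n) (a : Fin N → Fin n → ℝ) (ha : ∀ j, StrictMono (a j))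
    (m : Fin N → Fin (n + 1)) (f : Fin N → ℚ[X]) (h0 : ∀ j, InGap (a j) (m j) 0)
    (hf : ∀ j, (f j).map (algebraMap ℚ ℝ) = ∏ i, (X - C (a j i))) (D d : ℕ) :
    ∃ c : ℝ, 0 < c ∧ ∃ M : ℝ, ∀ T : ℕ, 1 ≤ T → ∃ S : Finset (Fin N → ℕ), (S.card : ℝ) ≤ M * (T : ℝ) ^ ((N : ℝ) - c) ∧
      ∀ t : Fin N → ℕ, (∀ j, 1 ≤ t j ∧ t j ≤ T) → t ∉ S → (∀ j, InGap (a j) (m j) (((1 / (t j : ℚ) : ℚ)) : ℝ)) ∧
        ∀ (K : Type) [Field K] [NumberField K], Module.finrank ℚ K ≤ D →
        ∀ (φ : K →+* ℂ) (P : MvPolynomial (Option (Fin N × Fin n × Fin n)) K), P.totalDegree ≤ d →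
          MvPolynomial.aeval (pt (fun j => CM (a j) (m j) ((1 / (t j : ℚ) : ℚ) : ℝ)) (2 * Real.pi * Complex.I))
            (P.map φ) = 0 →
          ∀ x ∈ Tor (fun j => (-1 / 2 : ℂ) • (Qp n (f j)).map (aeval ((1 / (t j : ℚ) : ℚ) : ℂ))),
            MvPolynomial.aeval (pt x.1 x.2) (P.map φ) = 0 := by
  classical
  obtain ⟨c, hc, C, hC, hmain⟩ := vver hn a ha m f h0 hf (2 ^ (D * d)) (D * d)
  refine ⟨c, hc, C, fun T hT => ?_⟩
  -- the space of the powers of `2πi`
  set W : Submodule ℚ ℂ := Submodule.span ℚ (Set.range ![(1 : ℂ), 2 * Real.pi * Complex.I]) with hW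
  have hW1 : (1 : ℂ) ∈ W := Submodule.subset_span ⟨0, rfl⟩
  have hW2 : (2 * Real.pi * Complex.I : ℂ) ∈ W := Submodule.subset_span ⟨1, rfl⟩
  have hWf : Module.Finite ℚ W := Module.Finite.span_of_finite ℚ (Set.finite_range _)
  have hWD : Module.finrank ℚ W ≤ 2 := (finrank_range_le_card _).trans (by simp)
  obtain ⟨hp1, hp2⟩ := finrank_pow_le W (D * d)
  set V : Submodule ℚ ℂ := W ^ (D * d) with hV
  have hVD : Module.finrank ℚ V ≤ 2 ^ (D * d) := hp2.trans (Nat.pow_le_pow_left hWD _)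
  obtain ⟨S, hS1, hS2⟩ := hmain V hp1 hVD T hT
  refine ⟨S, hS1, fun t ht htS => ?_⟩
  obtain ⟨hgap, hP⟩ := hS2 t ht htS
  refine ⟨hgap, fun K _ _ hKD φ P hPd hPv x hx => ?_⟩
  obtain ⟨q, P', hq0, hP'd, hP'⟩ := exists_integral P
  set Pe : (K →+* ℂ) → MvPolynomial (Option (Fin N × Fin n × Fin n)) ℂ := fun ψ =>
    P'.map (ψ.comp (algebraMap (𝓞 K) K)) with hPe
  have hPeq : ∀ ψ : K →+* ℂ, Pe ψ = MvPolynomial.C (ψ q) * P.map ψ := by
    intro ψ
    rw [hPe]
    simp only
    rw [← MvPolynomial.map_map, hP', map_mul, MvPolynomial.map_C]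
  have hPed : ∀ ψ, (Pe ψ).totalDegree ≤ d := fun ψ => ((totalDegree_map_le _ P').trans hP'd).trans hPd
  obtain ⟨M, hM⟩ := exists_norm K P'
  have hcardE : Fintype.card (K →+* ℂ) ≤ D := by rw [NumberField.Embeddings.card]; exact hKD
  have hMd : M.totalDegree ≤ D * d := by
    rw [← totalDegree_map_inj (φ := Int.castRingHom ℂ) (by exact Int.cast_injective) M, hM]
    refine (MvPolynomial.totalDegree_finsetProd _ _).trans ?_
    refine (Finset.sum_le_sum fun ψ _ => hPed ψ).trans ?_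
    rw [Finset.sum_const, Finset.card_univ, smul_eq_mul]
    exact Nat.mul_le_mul_right _ hcardE
  set xp := pt (fun j => CM (a j) (m j) ((1 / (t j : ℚ) : ℚ) : ℝ)) (2 * Real.pi * Complex.I) with hxp
  have hMx : MvPolynomial.aeval xp M = 0 := by
    rw [aeval_int_map, hM, map_prod, Finset.prod_eq_zero (Finset.mem_univ φ)]
    show MvPolynomial.aeval xp (Pe φ) = 0
    rw [hPeq, map_mul, hPv, mul_zero]
  -- specialisation of `lam`
  set MC : MvPolynomial (Option (Fin N × Fin n × Fin n)) ℂ := M.map (Int.castRingHom ℂ) with hMC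
  set L : Option (Fin N × Fin n × Fin n) → MvPolynomial (Fin N × Fin n × Fin n) ℂ := fun o =>
    o.elim (MvPolynomial.C (2 * Real.pi * Complex.I)) MvPolynomial.X with hL
  have hLD : ∀ o, DC 1 W (L o) := by
    rintro (_ | x)
    · refine ⟨?_, fun s => ?_⟩
      · show (MvPolynomial.C (2 * Real.pi * Complex.I) : MvPolynomial (Fin N × Fin n × Fin n) ℂ).totalDegree ≤ 1
        rw [MvPolynomial.totalDegree_C]
        omega
      simp only [hL, Option.elim]
      rw [MvPolynomial.coeff_C]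
      split_ifs
      · exact hW2
      · exact Submodule.zero_mem _
    · refine ⟨by simp [hL], fun s => ?_⟩
      simp only [hL, Option.elim]
      rw [MvPolynomial.coeff_X]
      split_ifs
      · exact hW1
      · exact Submodule.zero_mem _
  have hMCD : DC (D * d) (1 : Submodule ℚ ℂ) MC := by
    refine ⟨(totalDegree_map_le _ M).trans hMd, fun s => ?_⟩
    rw [hMC, MvPolynomial.coeff_map, Submodule.mem_one]
    exact ⟨((M.coeff s : ℤ) : ℚ), by simp⟩
  have hM0 := DC.subst' hW1 L hLD hMCD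
  rw [one_mul] at hM0
  have hM0v : ∀ X : Fin N → Matrix (Fin n) (Fin n) ℂ, MvPolynomial.aeval (px X) (MvPolynomial.aeval L MC) =
      MvPolynomial.aeval (pt X (2 * Real.pi * Complex.I)) M := by
    intro X
    have h1 : MvPolynomial.aeval (px X) (MvPolynomial.aeval L MC) =
        MvPolynomial.aeval (fun i => MvPolynomial.aeval (px X) (L i)) MC := by
      rw [← MvPolynomial.comp_aeval_apply]
    rw [h1, aeval_int_map, hMC]
    congr 2
    funext o
    rcases o with _ | x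
    · simp [hL, pt]
    · simp [hL, pt, px]
  have hfib := hP (MvPolynomial.aeval L MC) hM0.1 hM0.2 (by rw [hM0v]; exact hMx)
  -- rational trivialisation
  choose X0 hX0 using fun j => exists_X0 hn (ha j) (hf j) (hgap j)
  set X0c : Fin N → Matrix (Fin n) (Fin n) ℂ := fun j => (X0 j).map (algebraMap ℚ ℂ) with hX0c
  have hQc : ∀ j, ((-1 / 2 : ℚ) • (Qp n (f j)).map (Polynomial.eval (1 / (t j : ℚ)))).map (algebraMap ℚ ℂ) =
      (-1 / 2 : ℂ) • (Qp n (f j)).map (aeval ((1 / (t j : ℚ) : ℚ) : ℂ)) := by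
    intro j
    rw [← map_rat]
    ext r c
    rw [Matrix.map_apply, Matrix.smul_apply, Matrix.smul_apply]
    simp only [smul_eq_mul, map_mul]
    congr 1
    simp
  have hX0J : ∀ j, X0c j * ((-1 / 2 : ℂ) • (Qp n (f j)).map (aeval ((1 / (t j : ℚ) : ℚ) : ℂ))) * (X0c j).transpose = jm ℂ n := by
    intro j
    rw [← hQc, hX0c, ← Matrix.transpose_map, ← Matrix.map_mul, ← Matrix.map_mul, hX0, jm_map]
  have hMvan := fib_to_tor hn X0 M (fun μ g hμ hg => by
    have hμ0 : μ ≠ 0 := by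
      rintro rfl
      have h1 : (Real.pi : ℂ) ≠ 0 := by exact_mod_cast Real.pi_ne_zero
      have h2 := mul_ne_zero (mul_ne_zero (two_ne_zero (α := ℂ)) h1) Complex.I_ne_zero
      apply h2
      rw [← hμ]
      simp
    obtain ⟨-, h2⟩ := Phi_mem hX0J hμ0 hg
    have h3 : (fun j => μ • (g j * X0c j)) ∈ Fib (fun j => (Qp n (f j)).map (aeval ((1 / (t j : ℚ) : ℚ) : ℂ))) := by
      intro j
      have := h2 j
      simp only at this
      rw [hμ] at this
      exact this
    have h4 := hfib _ h3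
    rw [hM0v, ← hμ] at h4
    exact h4)
  obtain ⟨ψ, -, hψ⟩ := irr_prod hn X0c Finset.univ Pe (fun μ g _ hg => by
    have h1 := hMvan μ g hg
    rw [← hM, ← aeval_int_map]
    exact h1)
  have hdense := dense_tor hn X0c (Pe φ) (fun ρ g hρ hg => by
    set g' : Fin N → Matrix (Fin n) (Fin n) ℂ := fun j => (g j).map (algebraMap ℚ ℂ) with hg'
    have h1 := hψ (ρ : ℂ) g' (by exact_mod_cast hρ) (fun j => SpS_map _ (hg j))
    set v : K := MvPolynomial.eval (fun o => algebraMap ℚ K (Phi X0 ρ g o)) (P'.map (algebraMap (𝓞 K) K)) with hv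
    have h2 : ∀ χ : K →+* ℂ, MvPolynomial.aeval (Phi X0c (ρ : ℂ) g') (Pe χ) = χ v := by
      intro χ
      rw [hv, MvPolynomial.eval_map, MvPolynomial.hom_eval₂, MvPolynomial.aeval_def, hPe, MvPolynomial.eval₂_map]
      congr 1
      funext o
      have h3 := Phi_map (algebraMap ℚ ℂ) X0 ρ g o
      have h4 : χ (algebraMap ℚ K (Phi X0 ρ g o)) = algebraMap ℚ ℂ (Phi X0 ρ g o) := by simp
      show Phi X0c (ρ : ℂ) g' o = χ (algebraMap ℚ K (Phi X0 ρ g o))
      rw [h4, h3]
      simp [hX0c, hg']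
    rw [h2] at h1
    rw [h2]
    have h5 : v = 0 := (map_eq_zero ψ).1 h1
    rw [h5, map_zero])
  obtain ⟨μ, g, -, hg, hpt⟩ := exists_Phi hn hX0J hx
  rw [hpt]
  have h6 := hdense μ g hg
  rw [hPeq, map_mul] at h6
  refine (mul_eq_zero.1 h6).resolve_left ?_
  simp only [MvPolynomial.aeval_C, Algebra.algebraMap_self, RingHom.id_apply]
  exact (map_ne_zero φ).2 hq0

end Pool.Agent.Y118.HG
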