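import Pool.Agent.Y118.HG.Wm

/-!
# Transcendence degree of the periods of the central fibre
-/

set_option autoImplicit false
set_option maxHeartbeats 400000

open Matrix Polynomial Filter Topology

namespace Pool.Agent.Y118.HG

open Pool.Agent.Y118.HP Pool.Agent.Y113 Pool.Agent.Y37.GF

variable {n N : ℕ}

theorem card_Sy (n : ℕ) : 2 * Fintype.card (Sy n) = n * (n + 1) := by
  have h1 : Fintype.card (Sy n) = ∑ j : Fin n, ((j : ℕ) + 1) := by
    rw [Fintype.card_subtype, Finset.card_eq_sum_ones, Finset.sum_filter, Fintype.sum_prod_type_right]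
    refine Finset.sum_congr rfl fun j _ => ?_
    rw [← Finset.sum_filter, ← Finset.card_eq_sum_ones]
    have : (Finset.univ.filter fun i : Fin n => i ≤ j) = Finset.Iic j := by ext; simp
    simp only
    rw [this, Fin.card_Iic]
  rw [h1, Fin.sum_univ_eq_sum_range (fun j => j + 1), Finset.sum_add_distrib]
  have h2 := Finset.sum_range_id_mul_two n
  rw [Finset.sum_const, Finset.card_range, smul_eq_mul, mul_one]
  rcases n with _ | n
  · simp
  · simp only [Nat.add_sub_cancel] at h2
    nlinarith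

/-- the entries of `A` and `2πi` are algebraic over the constants -/
theorem alg_w0 (hn : Even n) {A : Matrix (Fin n) (Fin n) ℂ} (c : CDat n A) :
    (∀ i j, IsAlgebraic (Algebra.adjoin ℚ (Set.range c.w0)) (A i j)) ∧
      IsAlgebraic (Algebra.adjoin ℚ (Set.range c.w0)) (2 * Real.pi * Complex.I : ℂ) := by
  have hw : ∀ o, IsAlgebraic (Algebra.adjoin ℚ (Set.range c.w0)) (c.w0 o) := by
    intro o
    have h1 : c.w0 o = algebraMap (Algebra.adjoin ℚ (Set.range c.w0)) ℂ
      ⟨c.w0 o, Algebra.subset_adjoin ⟨o, rfl⟩⟩ := rfl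
    rw [h1]
    exact isAlgebraic_algebraMap _
  have hrat : ∀ q : ℚ, IsAlgebraic (Algebra.adjoin ℚ (Set.range c.w0)) (algebraMap ℚ ℂ q) := by
    intro q
    rw [IsScalarTower.algebraMap_apply ℚ (Algebra.adjoin ℚ (Set.range c.w0)) ℂ]
    exact isAlgebraic_algebraMap _
  have hμ : IsAlgebraic (Algebra.adjoin ℚ (Set.range c.w0)) c.μ := hw none
  set L : Subalgebra (Algebra.adjoin ℚ (Set.range c.w0)) ℂ :=
    Subalgebra.algebraicClosure (Algebra.adjoin ℚ (Set.range c.w0)) ℂ with hL
  set y : Sy n → L := fun p => ⟨c.w0 (some p), hw (some p)⟩ with hy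
  have h1 : ∀ i j, IsAlgebraic (Algebra.adjoin ℚ (Set.range c.w0)) (Nc (fun p => c.w0 (some p)) i j) := by
    intro i j
    have h2 := Nc_map (L.val : L →+* ℂ) y
    have h3 : (fun p => (L.val : L →+* ℂ) (y p)) = fun p => c.w0 (some p) := rfl
    rw [h3] at h2
    rw [← h2]
    exact (Nc y i j).2
  have h4 : IsAlgebraic (Algebra.adjoin ℚ (Set.range c.w0)) (De (fun p => c.w0 (some p))) := by
    have h2 := De_map (L.val : L →+* ℂ) y
    have h3 : (fun p => (L.val : L →+* ℂ) (y p)) = fun p => c.w0 (some p) := rfl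
    rw [h3] at h2
    rw [← h2]
    exact (De y).2
  refine ⟨fun i j => ?_, ?_⟩
  · have he : A i j = c.μ * ∑ k, Cay (fun p => c.w0 (some p)) i k * (c.R1.map (algebraMap ℚ ℂ)) k j := by
      have h9 := congrFun (congrFun (c.De_w0 hn).2 i) j
      rw [Matrix.smul_apply, smul_eq_mul, Matrix.mul_apply] at h9
      exact h9.symm
    have hmem : c.μ * ∑ k, Cay (fun p => c.w0 (some p)) i k * (c.R1.map (algebraMap ℚ ℂ)) k j ∈ L := by
      refine (hμ.mul ?_)
      have hs : (∑ k, Cay (fun p => c.w0 (some p)) i k * (c.R1.map (algebraMap ℚ ℂ)) k j) ∈ L := by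
        refine Subalgebra.sum_mem _ fun k _ => ?_
        unfold Cay
        rw [Matrix.smul_apply, smul_eq_mul, Matrix.map_apply]
        exact (h4.inv.mul (h1 i k)).mul (hrat _)
      exact hs
    rw [he]
    exact hmem
  · have h5 : (2 * Real.pi * Complex.I : ℂ) = algebraMap ℚ ℂ (-1 / 2) * c.μ ^ 2 := by
      rw [c.μ2, eq_ratCast]; push_cast; ring
    rw [h5]
    exact (hrat _).mul (hμ.pow 2)

/-- a transcendence basis of the periods of the central fibre -/
theorem exists_Tc (hn : Even n) {a : Fin n → ℝ} (ha : StrictMono a) {m : Fin (n + 1)} {f : ℚ[X]} (h0 : InGap a m 0)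
    (hf : f.map (algebraMap ℚ ℝ) = ∏ i, (X - C (a i))) :
    ∃ Tc : Finset ℂ, (Tc.card : Cardinal) ≤ Algebra.trdeg ℚ (IntermediateField.adjoin ℚ
        (Set.range (pt (fun _ : Fin 1 => CM a m 0) (2 * Real.pi * Complex.I)))) ∧
      2 * Tc.card ≤ n * (n + 1) + 2 ∧
      (∀ i j, IsAlgebraic (Algebra.adjoin ℚ (Tc : Set ℂ)) (CM a m 0 i j)) ∧
      IsAlgebraic (Algebra.adjoin ℚ (Tc : Set ℂ)) (2 * Real.pi * Complex.I : ℂ) := by
  classical
  set c0 : Option (Fin 1 × Fin n × Fin n) → ℂ := pt (fun _ : Fin 1 => CM a m 0) (2 * Real.pi * Complex.I) with hc0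
  set M := AlgebraicIndependent.matroid ℚ ℂ with hM
  obtain ⟨B, hB⟩ := M.exists_isBasis (Set.range c0) (Set.subset_univ _)
  obtain ⟨hB1, hB2, hB3⟩ := AlgebraicIndependent.matroid_isBasis_iff.1 hB
  have hBfin : B.Finite := (Set.finite_range c0).subset hB2
  have hcard : B.encard = (hBfin.toFinset.card : ℕ∞) := hBfin.encard_eq_coe_toFinset_card
  refine ⟨hBfin.toFinset, ?_, ?_, ?_, ?_⟩
  · -- the transcendence degree
    set F0 := IntermediateField.adjoin ℚ (Set.range c0) with hF0
    have hsub : ∀ b : B, (b : ℂ) ∈ F0 := fun b => IntermediateField.subset_adjoin ℚ _ (hB2 b.2)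
    set x : B → F0 := fun b => ⟨b, hsub b⟩ with hx
    have h1 : AlgebraicIndependent ℚ x := by
      refine AlgebraicIndependent.of_comp (F0.val) ?_
      exact hB1
    have h2 := h1.cardinalMk_le_trdeg
    have h3 : Cardinal.mk B = (hBfin.toFinset.card : Cardinal) := by
      rw [← Cardinal.mk_coe_finset]
      refine Cardinal.mk_congr (Equiv.setCongr ?_)
      ext z
      simp
    rw [← h3]
    exact h2
  · -- at most the dimension of the group
    have hf0 : f.coeff 0 ≠ 0 := coeff_ne_of_gap h0 hf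
    have Δ : ZDat n a m f := Classical.choice (exists_ZDat hn ha h0 hf hf0)
    have hAJ := AC_J hn ha h0 hf Δ.VJ
    have c : CDat n (AC a m Δ.V) := Classical.choice (exists_CDat hn hAJ)
    obtain ⟨h1, h2⟩ := alg_w0 hn c
    have hCM : CM a m 0 = AC a m Δ.V * Δ.U.map (aeval (0 : ℂ)) := by
      unfold AC
      rw [Matrix.mul_assoc, ← map_aevalC_mul, Δ.VU, map_aevalC_one, mul_one]
    have h3 : ∀ o, IsAlgebraic (Algebra.adjoin ℚ (Set.range c.w0)) (c0 o) := by
      rintro (_ | ⟨l, i, j⟩)
      · exact h2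
      · show IsAlgebraic _ (CM a m 0 i j)
        rw [hCM]
        have hL : (AC a m Δ.V * Δ.U.map (aeval (0 : ℂ))) i j ∈
            Subalgebra.algebraicClosure (Algebra.adjoin ℚ (Set.range c.w0)) ℂ := by
          rw [Matrix.mul_apply]
          refine Subalgebra.sum_mem _ fun k _ => ?_
          refine (h1 i k).mul ?_
          rw [Matrix.map_apply]
          have h4 : (aeval (0 : ℂ) (Δ.U k j) : ℂ) = algebraMap ℚ ℂ (aeval (0 : ℚ) (Δ.U k j)) := by
            rw [← Polynomial.aeval_algebraMap_apply ℂ (0 : ℚ) (Δ.U k j), map_zero]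
          rw [h4, IsScalarTower.algebraMap_apply ℚ (Algebra.adjoin ℚ (Set.range c.w0)) ℂ]
          exact isAlgebraic_algebraMap _
        exact hL
    have hcl : Set.range c0 ⊆ M.closure (Set.range c.w0) := by
      rw [hM, AlgebraicIndependent.matroid_closure_eq]
      rintro _ ⟨o, rfl⟩
      exact h3 o
    have h5 : B.encard ≤ (Set.range c.w0).encard := by
      have e1 : M.eRk B = B.encard := hB.indep.eRk_eq_encard
      rw [← e1]
      refine (M.eRk_mono (hB2.trans hcl)).trans ?_
      rw [Matroid.eRk_closure_eq]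
      exact M.eRk_le_encard _
    have h6 : (Set.range c.w0).encard ≤ (Fintype.card (Option (Sy n)) : ℕ∞) := by
      rw [← Set.image_univ]
      refine (Set.encard_image_le _ _).trans ?_
      rw [Set.encard_univ, ENat.card_eq_coe_fintype_card]
    rw [hcard] at h5
    have h7 : hBfin.toFinset.card ≤ Fintype.card (Option (Sy n)) := by exact_mod_cast h5.trans h6
    rw [Fintype.card_option] at h7
    have h8 := card_Sy n
    omega
  · intro i j
    rw [Set.Finite.coe_toFinset]
    exact hB3 _ ⟨some (0, i, j), rfl⟩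
  · rw [Set.Finite.coe_toFinset]
    exact hB3 _ ⟨none, rfl⟩

end Pool.Agent.Y118.HG
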