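import Pool.Agent.Y118.HG.Kfin
import Pool.Agent.Y118.HG.Trd

/-!
# The window theorem, coefficients in number fields of bounded degree
-/

set_option autoImplicit false
set_option maxHeartbeats 400000

open Matrix Polynomial Filter Topology NumberField

namespace Pool.Agent.Y118.HG

open Pool.Agent.Y118.HP Pool.Agent.Y113 Pool.Agent.Y37.GF

variable {n N : ℕ}

set_option maxHeartbeats 1000000 in
/-- from rational coefficients and the fibre over `2πi` to number fields and the torsor -/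
theorem k_of_fib (hn : Even n) (a : Fin N → Fin n → ℝ) (ha : ∀ j, StrictMono (a j))
    (m : Fin N → Fin (n + 1)) (f : Fin N → ℚ[X])
    (hf : ∀ j, (f j).map (algebraMap ℚ ℝ) = ∏ i, (X - C (a j i))) (D d : ℕ) (z : Fin N → ℚ)
    (hgap : ∀ j, InGap (a j) (m j) ((z j : ℚ) : ℝ))
    (hfib : ∀ M : MvPolynomial (Option (Fin N × Fin n × Fin n)) ℚ, M.totalDegree ≤ D * d →
      MvPolynomial.aeval (pt (fun j => CM (a j) (m j) ((z j : ℚ) : ℝ)) (2 * Real.pi * Complex.I)) M = 0 →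
      ∀ X ∈ Fib (fun j => (Qp n (f j)).map (aeval (z j : ℂ))),
        MvPolynomial.aeval (pt X (2 * Real.pi * Complex.I)) M = 0)
    (K : Type) [Field K] [NumberField K] (hKD : Module.finrank ℚ K ≤ D)
    (φ : K →+* ℂ) (P : MvPolynomial (Option (Fin N × Fin n × Fin n)) K) (hPd : P.totalDegree ≤ d)
    (hPv : MvPolynomial.aeval (pt (fun j => CM (a j) (m j) ((z j : ℚ) : ℝ)) (2 * Real.pi * Complex.I))
      (P.map φ) = 0) :
    ∀ x ∈ Tor (fun j => (-1 / 2 : ℂ) • (Qp n (f j)).map (aeval (z j : ℂ))),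
      MvPolynomial.aeval (pt x.1 x.2) (P.map φ) = 0 := by
  classical
  intro x hx
  obtain ⟨q, P', hq0, hP'd, hP'⟩ := exists_integral P
  set Pe : (K →+* ℂ) → MvPolynomial (Option (Fin N × Fin n × Fin n)) ℂ := fun ψ =>
    P'.map (ψ.comp (algebraMap (𝓞 K) K)) with hPe
  have hPeq : ∀ ψ : K →+* ℂ, Pe ψ = MvPolynomial.C (ψ q) * P.map ψ := by
    intro ψ
    rw [hPe]
    simp only
    rw [← MvPolynomial.map_map, hP', map_mul, MvPolynomial.map_C]
  have hPed : ∀ ψ, (Pe ψ).totalDegree ≤ d := fun ψ => ((totalDegree_map_le _ P').trans hP'd).trans hPd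
  obtain ⟨M, hM⟩ := exists_norm K P'
  have hcardE : Fintype.card (K →+* ℂ) ≤ D := by rw [NumberField.Embeddings.card]; exact hKD
  have hMd : M.totalDegree ≤ D * d := by
    rw [← totalDegree_map_inj (φ := Int.castRingHom ℂ) (by exact Int.cast_injective) M, hM]
    refine (MvPolynomial.totalDegree_finsetProd _ _).trans ?_
    refine (Finset.sum_le_sum fun ψ _ => hPed ψ).trans ?_
    rw [Finset.sum_const, Finset.card_univ, smul_eq_mul]
    exact Nat.mul_le_mul_right _ hcardE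
  set xp := pt (fun j => CM (a j) (m j) ((z j : ℚ) : ℝ)) (2 * Real.pi * Complex.I) with hxp
  have hMx : MvPolynomial.aeval xp M = 0 := by
    rw [aeval_int_map, hM, map_prod, Finset.prod_eq_zero (Finset.mem_univ φ)]
    show MvPolynomial.aeval xp (Pe φ) = 0
    rw [hPeq, map_mul, hPv, mul_zero]
  have hfibM : ∀ X ∈ Fib (fun j => (Qp n (f j)).map (aeval (z j : ℂ))),
      MvPolynomial.aeval (pt X (2 * Real.pi * Complex.I)) M = 0 := by
    intro X hX
    have h1 := hfib (M.map (algebraMap ℤ ℚ)) ((totalDegree_map_le _ M).trans hMd) (by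
      rw [MvPolynomial.aeval_map_algebraMap]
      exact hMx) X hX
    rwa [MvPolynomial.aeval_map_algebraMap] at h1
  -- rational trivialisation
  choose X0 hX0 using fun j => exists_X0 hn (ha j) (hf j) (hgap j)
  set X0c : Fin N → Matrix (Fin n) (Fin n) ℂ := fun j => (X0 j).map (algebraMap ℚ ℂ) with hX0c
  have hQc : ∀ j, ((-1 / 2 : ℚ) • (Qp n (f j)).map (Polynomial.eval (z j))).map (algebraMap ℚ ℂ) =
      (-1 / 2 : ℂ) • (Qp n (f j)).map (aeval (z j : ℂ)) := by
    intro j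
    rw [← map_rat]
    ext r c
    rw [Matrix.map_apply, Matrix.smul_apply, Matrix.smul_apply]
    simp only [smul_eq_mul, map_mul]
    congr 1
    simp
  have hX0J : ∀ j, X0c j * ((-1 / 2 : ℂ) • (Qp n (f j)).map (aeval (z j : ℂ))) * (X0c j).transpose = jm ℂ n := by
    intro j
    rw [← hQc, hX0c, ← Matrix.transpose_map, ← Matrix.map_mul, ← Matrix.map_mul, hX0, jm_map]
  have hMvan := fib_to_tor hn X0 M (fun μ g hμ hg => by
    have hμ0 : μ ≠ 0 := by
      rintro rfl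
      have h1 : (Real.pi : ℂ) ≠ 0 := by exact_mod_cast Real.pi_ne_zero
      have h2 := mul_ne_zero (mul_ne_zero (two_ne_zero (α := ℂ)) h1) Complex.I_ne_zero
      apply h2
      rw [← hμ]
      simp
    obtain ⟨-, h2⟩ := Phi_mem hX0J hμ0 hg
    have h3 : (fun j => μ • (g j * X0c j)) ∈ Fib (fun j => (Qp n (f j)).map (aeval (z j : ℂ))) := by
      intro j
      have := h2 j
      simp only at this
      rw [hμ] at this
      exact this
    have h4 := hfibM _ h3
    rw [← hμ] at h4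
    exact h4)
  obtain ⟨ψ, -, hψ⟩ := irr_prod hn X0c Finset.univ Pe (fun μ g _ hg => by
    have h1 := hMvan μ g hg
    rw [← hM, ← aeval_int_map]
    exact h1)
  have hdense := dense_tor hn X0c (Pe φ) (fun ρ g hρ hg => by
    set g' : Fin N → Matrix (Fin n) (Fin n) ℂ := fun j => (g j).map (algebraMap ℚ ℂ) with hg'
    have h1 := hψ (ρ : ℂ) g' (by exact_mod_cast hρ) (fun j => SpS_map _ (hg j))
    set v : K := MvPolynomial.eval (fun o => algebraMap ℚ K (Phi X0 ρ g o)) (P'.map (algebraMap (𝓞 K) K)) with hv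
    have h2 : ∀ χ : K →+* ℂ, MvPolynomial.aeval (Phi X0c (ρ : ℂ) g') (Pe χ) = χ v := by
      intro χ
      rw [hv, MvPolynomial.eval_map, MvPolynomial.hom_eval₂, MvPolynomial.aeval_def, hPe, MvPolynomial.eval₂_map]
      congr 1
      funext o
      have h3 := Phi_map (algebraMap ℚ ℂ) X0 ρ g o
      have h4 : χ (algebraMap ℚ K (Phi X0 ρ g o)) = algebraMap ℚ ℂ (Phi X0 ρ g o) := by simp
      show Phi X0c (ρ : ℂ) g' o = χ (algebraMap ℚ K (Phi X0 ρ g o))
      rw [h4, h3]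
      simp [hX0c, hg']
    rw [h2] at h1
    rw [h2]
    have h5 : v = 0 := (map_eq_zero ψ).1 h1
    rw [h5, map_zero])
  obtain ⟨μ, g, -, hg, hpt⟩ := exists_Phi hn hX0J hx
  rw [hpt]
  have h6 := hdense μ g hg
  rw [hPeq, map_mul] at h6
  refine (mul_eq_zero.1 h6).resolve_left ?_
  simp only [MvPolynomial.aeval_C, Algebra.algebraMap_self, RingHom.id_apply]
  exact (map_ne_zero φ).2 hq0

/-- **The window theorem** -/
theorem wfin (hn : Even n) (a : Fin n → ℝ) (f : ℚ[X])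
    (hf : f.map (algebraMap ℚ ℝ) = ∏ i, (X - C (a i))) (m : Fin (n + 1)) (h0 : StrictMono (er a m 0)) :
    ∃ G0 : ℕ, ∀ G : ℕ, G0 ≤ G → ∀ k D d : ℕ, ∃ E : ℕ, ∀ H t : ℕ, (H + 2) ^ E ≤ t →
      (∀ g : ℕ, g ≤ H → G * g < t ∧ StrictMono (er a m (1 / ((t : ℝ) - G * g)))) ∧
      ∃ S : Finset ℕ,
        (S.card : Cardinal) ≤ Algebra.trdeg ℚ (IntermediateField.adjoin ℚ (Set.range
          (pt (fun _ : Fin 1 => Matrix.of (cper (er a m 0))) (2 * Real.pi * Complex.I)))) ∧
        2 * S.card ≤ n * (n + 1) + 2 ∧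
        ∀ g : Fin k → ℕ, Function.Injective g → (∀ j, 1 ≤ g j ∧ g j ≤ H ∧ g j ∉ S) →
          ((fun j => Matrix.of (cper (er a m (1 / ((t : ℝ) - G * g j))))), (2 * Real.pi * Complex.I : ℂ)) ∈
            TorF (n := n) (fun j => f * (X - C (1 / ((t : ℚ) - G * g j)))) ∧
          DG (fun j => f * (X - C (1 / ((t : ℚ) - G * g j))))
            (pt (fun j => Matrix.of (cper (er a m (1 / ((t : ℝ) - G * g j))))) (2 * Real.pi * Complex.I)) D d := by
  have ha : StrictMono a := (inGap_of_er h0).1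
  have hg0 : InGap a m 0 := (inGap_of_er h0).2
  obtain ⟨Tc, hTc1, hTc2, hTc3, hTc4⟩ := exists_Tc hn ha hg0 hf
  obtain ⟨G0, hG0, hsep⟩ := exists_G0 a
  refine ⟨G0, fun G hG k D d => ?_⟩
  obtain ⟨E, hE⟩ := wmain hn ha hg0 hf hG0 hsep hG Tc hTc3 hTc4 k (D * d)
  refine ⟨E, fun H t ht => ?_⟩
  obtain ⟨h1, S, hS1, hS2⟩ := hE H t ht
  have hcast : ∀ g : ℕ, (((1 / ((t : ℚ) - (G * g : ℕ)) : ℚ)) : ℝ) = 1 / ((t : ℝ) - G * g) := fun g => by push_cast; rfl
  have hcastQ : ∀ g : ℕ, (1 / ((t : ℚ) - (G * g : ℕ)) : ℚ) = 1 / ((t : ℚ) - G * g) := fun g => by push_cast; rfl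
  refine ⟨fun g hg => ⟨(h1 g hg).1, ?_⟩, S, ?_, ?_, fun g hginj hg => ?_⟩
  · have := er_of_inGap ha (h1 g hg).2
    rwa [hcast] at this
  · refine le_trans ?_ hTc1
    exact_mod_cast hS1
  · exact (Nat.mul_le_mul_left 2 hS1).trans hTc2
  have hgap : ∀ j, InGap a m (((1 / ((t : ℚ) - (G * g j : ℕ)) : ℚ)) : ℝ) := fun j => (h1 (g j) (hg j).2.1).2
  have hpt : (fun j => Matrix.of (cper (er a m (1 / ((t : ℝ) - G * g j))))) =
      fun j => CM a m (((1 / ((t : ℚ) - (G * g j : ℕ)) : ℚ)) : ℝ) := by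
    funext j
    rw [hcast]
    rfl
  have hF : (fun j => f * (X - C (1 / ((t : ℚ) - G * g j)))) =
      fun j => f * (X - C (1 / ((t : ℚ) - (G * g j : ℕ)))) := by
    funext j
    rw [hcastQ]
  rw [hpt, hF]
  refine ⟨?_, ?_⟩
  · rw [TorF_eq]
    refine ⟨?_, fun j => CM_mem hn ha hf (hgap j)⟩
    have := Complex.I_ne_zero
    have h2 : (Real.pi : ℂ) ≠ 0 := by exact_mod_cast Real.pi_ne_zero
    exact mul_ne_zero (mul_ne_zero two_ne_zero h2) this
  · intro K _ _ φ P hK hd hPv x hx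
    rw [TorF_eq] at hx
    have h3 := k_of_fib hn (fun _ => a) (fun _ => ha) (fun _ => m) (fun _ => f) (fun _ => hf) D d
      (fun j => 1 / ((t : ℚ) - (G * g j : ℕ))) hgap (hS2 g hginj hg) K hK φ P hd
      (by rw [MvPolynomial.aeval_eq_eval]; exact hPv) x hx
    rw [MvPolynomial.aeval_eq_eval] at h3
    exact h3

end Pool.Agent.Y118.HG
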