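import Pool.Agent.Y118.HG.Trd
import Pool.Agent.Y118.HG.Awu

/-!
# The window theorem relative to the periods of the central fibre
-/

set_option autoImplicit false
set_option maxHeartbeats 400000

open Matrix Polynomial Filter Topology

namespace Pool.Agent.Y118.HG

open Pool.Agent.Y118.HP Pool.Agent.Y113 Pool.Agent.Y37.GF

variable {n N : ℕ}

section rel

variable (K : IntermediateField ℚ ℂ) (Tc : Finset ℂ)

/-- the coordinates of the constants: Cayley coordinates, transcendence basis, periods of the central fibre -/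
abbrev Ups (n : ℕ) (Tc : Finset ℂ) : Type := (Option (Sy n) ⊕ Tc) ⊕ (Fin n × Fin n)

/-- change of the base field and of the variables -/
noncomputable def toK (p : MvPolynomial (Option (Sy n) ⊕ Fin N × Sy n) ℚ) :
    MvPolynomial (Ups n Tc ⊕ Fin N × Sy n) K :=
  (MvPolynomial.rename (Sum.map (Sum.inl ∘ Sum.inl) id) p).map (algebraMap ℚ K)

theorem toK_val (w0 : Option (Sy n) → ℂ) (tc : Tc → ℂ) (cc : Fin n × Fin n → ℂ) (y : Fin N × Sy n → ℂ)
    (p : MvPolynomial (Option (Sy n) ⊕ Fin N × Sy n) ℚ) :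
    MvPolynomial.aeval (Sum.elim (Sum.elim (Sum.elim w0 tc) cc) y) (toK K Tc p) =
      MvPolynomial.aeval (Sum.elim w0 y) p := by
  unfold toK
  rw [MvPolynomial.aeval_map_algebraMap, MvPolynomial.aeval_rename]
  congr 2
  funext x
  rcases x with x | x <;> rfl

theorem toK_deg {p : MvPolynomial (Option (Sy n) ⊕ Fin N × Sy n) ℚ} {B : ℕ} (hp : p.totalDegree ≤ B) :
    (toK K Tc p).totalDegree ≤ B :=
  (totalDegree_map_le _ _).trans ((MvPolynomial.totalDegree_rename_le _ _).trans hp)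

/-- the numerators -/
noncomputable def numK (R1 : Matrix (Fin n) (Fin n) ℚ) (U : Fin N → Matrix (Fin n) (Fin n) ℚ)
    (o : (Fin n × Fin n) ⊕ Option (Fin N × Fin n × Fin n)) : MvPolynomial (Ups n Tc ⊕ Fin N × Sy n) K :=
  Sum.elim (fun x => MvPolynomial.X (Sum.inl (Sum.inr x)) * toK K Tc (denW N n))
    (fun o => o.elim (toK K Tc (numW N R1 none)) fun x => ∑ q, toK K Tc (numW N R1 (some (x.1, x.2.1, q))) *
      MvPolynomial.C (algebraMap ℚ K (U x.1 q x.2.2))) o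

theorem numK_deg {R1 : Matrix (Fin n) (Fin n) ℚ} {B : ℕ} (hB1 : ∀ o, (numW N R1 o).totalDegree ≤ B)
    (hB2 : (denW N n).totalDegree ≤ B) (U : Fin N → Matrix (Fin n) (Fin n) ℚ)
    (o : (Fin n × Fin n) ⊕ Option (Fin N × Fin n × Fin n)) : (numK K Tc R1 U o).totalDegree ≤ 1 + B := by
  rcases o with x | _ | x
  · have h1 : (MvPolynomial.X (Sum.inl (Sum.inr x)) : MvPolynomial (Ups n Tc ⊕ Fin N × Sy n) K).totalDegree ≤ 1 :=
      (MvPolynomial.totalDegree_X _).le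
    exact (MvPolynomial.totalDegree_mul _ _).trans (add_le_add h1 (toK_deg K Tc hB2))
  · exact (toK_deg K Tc (hB1 none)).trans (Nat.le_add_left _ _)
  · show (∑ q, toK K Tc (numW N R1 (some (x.1, x.2.1, q))) *
      MvPolynomial.C (algebraMap ℚ K (U x.1 q x.2.2))).totalDegree ≤ 1 + B
    refine MvPolynomial.totalDegree_finsetSum_le fun q _ => ?_
    refine (MvPolynomial.totalDegree_mul _ _).trans ?_
    rw [MvPolynomial.totalDegree_C, add_zero]
    exact (toK_deg K Tc (hB1 _)).trans (Nat.le_add_left _ _)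

theorem numK_val (hn : Even n) {A : Matrix (Fin n) (Fin n) ℂ} (c : CDat n A) (U : Fin N → Matrix (Fin n) (Fin n) ℚ)
    (tc : Tc → ℂ) (cc : Fin n × Fin n → ℂ)
    (y : Fin N × Sy n → ℂ) (hy : ∀ l, De (fun p => y (l, p)) ≠ 0)
    (o : (Fin n × Fin n) ⊕ Option (Fin N × Fin n × Fin n)) :
    MvPolynomial.aeval (Sum.elim (Sum.elim (Sum.elim c.w0 tc) cc) y) (numK K Tc c.R1 U o) =
      MvPolynomial.aeval (Sum.elim (Sum.elim (Sum.elim c.w0 tc) cc) y) (toK K Tc (denW N n)) *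
        (Sum.elim cc (pt (fun l => A * Cay (fun p => y (l, p)) * (U l).map (algebraMap ℚ ℂ))
          (2 * Real.pi * Complex.I))) o := by
  obtain ⟨h1, h2⟩ := c.De_w0 hn
  have h3 : (-1 / 2 * c.w0 none ^ 2 : ℂ) = 2 * Real.pi * Complex.I := by
    show (-1 / 2 * c.μ ^ 2 : ℂ) = _
    rw [c.μ2]
    ring
  have h4 : c.w0 none • (Cay (fun p => c.w0 (some p)) * c.R1.map (algebraMap ℚ ℂ)) = A := h2
  have h5 := fun o => numW_val c.w0 y c.R1 h1 hy o
  rw [h3, h4] at h5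
  rcases o with x | _ | ⟨l, i, j⟩
  · show MvPolynomial.aeval _ (MvPolynomial.X (Sum.inl (Sum.inr x)) * toK K Tc (denW N n)) = _
    rw [map_mul, MvPolynomial.aeval_X, mul_comm]
    rfl
  · show MvPolynomial.aeval _ (toK K Tc (numW N c.R1 none)) = _
    rw [toK_val, h5, toK_val]
    rfl
  · show MvPolynomial.aeval _ (∑ q, toK K Tc (numW N c.R1 (some (l, i, q))) *
      MvPolynomial.C (algebraMap ℚ K (U l q j))) = _
    rw [map_sum, toK_val]
    show _ = MvPolynomial.aeval (Sum.elim c.w0 y) (denW N n) *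
      (A * Cay (fun p => y (l, p)) * (U l).map (algebraMap ℚ ℂ)) i j
    rw [Matrix.mul_apply, Finset.mul_sum]
    refine Finset.sum_congr rfl fun q _ => ?_
    rw [map_mul, toK_val, h5, MvPolynomial.aeval_C, Matrix.map_apply]
    have h6 : (algebraMap K ℂ) (algebraMap ℚ K (U l q j)) = algebraMap ℚ ℂ (U l q j) :=
      (IsScalarTower.algebraMap_apply ℚ K ℂ _).symm
    rw [h6, mul_assoc]
    rfl

/-- the relation as a polynomial in the symplectic matrices -/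
theorem exists_QSK (A : Matrix (Fin n) (Fin n) ℂ) (U : Fin N → Matrix (Fin n) (Fin n) ℚ)
    (cc : Fin n × Fin n → ℂ) (M : MvPolynomial ((Fin n × Fin n) ⊕ Option (Fin N × Fin n × Fin n)) K) (lam : ℂ) :
    ∃ Q : MvPolynomial (Fin N × Fin n × Fin n) ℂ, ∀ S : Fin N → Matrix (Fin n) (Fin n) ℂ,
      MvPolynomial.aeval (px S) Q =
        MvPolynomial.aeval (Sum.elim cc (pt (fun l => A * S l * (U l).map (algebraMap ℚ ℂ)) lam)) M := by
  set L : (Fin n × Fin n) ⊕ Option (Fin N × Fin n × Fin n) → MvPolynomial (Fin N × Fin n × Fin n) ℂ :=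
    Sum.elim (fun x => MvPolynomial.C (cc x)) (fun o => o.elim (MvPolynomial.C lam) fun x =>
    ∑ q, ∑ p, MvPolynomial.C (A x.2.1 p * ((U x.1 q x.2.2 : ℚ) : ℂ)) * MvPolynomial.X (x.1, p, q)) with hL
  refine ⟨MvPolynomial.aeval L M, fun S => ?_⟩
  have h0 := MvPolynomial.comp_aeval_apply (f := L) ((MvPolynomial.aeval (px S) :
        MvPolynomial (Fin N × Fin n × Fin n) ℂ →ₐ[ℂ] ℂ).restrictScalars K) M
  rw [AlgHom.restrictScalars_apply] at h0
  rw [h0]
  congr 2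
  funext o
  rcases o with x | _ | x
  · simp [hL]
  · simp [hL, pt]
  · simp only [hL, Option.elim, Sum.elim_inr, AlgHom.restrictScalars_apply, map_sum, map_mul,
      MvPolynomial.aeval_X, MvPolynomial.aeval_C]
    show _ = (A * S x.1 * (U x.1).map (algebraMap ℚ ℂ)) x.2.1 x.2.2
    rw [Matrix.mul_apply]
    refine Finset.sum_congr rfl fun q _ => ?_
    rw [Matrix.mul_apply, Finset.sum_mul]
    refine Finset.sum_congr rfl fun p _ => ?_
    have hpx : px S (x.1, p, q) = S x.1 p q := rfl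
    rw [Matrix.map_apply, eq_ratCast, hpx]
    simp only [Algebra.algebraMap_self, RingHom.id_apply]
    ring

/-- the relation in all the coordinates -/
noncomputable def PK {A : Matrix (Fin n) (Fin n) ℂ} (c : CDat n A) (D0 : ℕ) (U : Fin N → Matrix (Fin n) (Fin n) ℚ)
    (M : MvPolynomial ((Fin n × Fin n) ⊕ Option (Fin N × Fin n × Fin n)) K) :
    MvPolynomial (Ups n Tc ⊕ Fin N × Sy n) K :=
  cle D0 M (numK K Tc c.R1 U) (toK K Tc (denW N n))

theorem PK_val (hn : Even n) {A : Matrix (Fin n) (Fin n) ℂ} (c : CDat n A) {D0 : ℕ}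
    (U : Fin N → Matrix (Fin n) (Fin n) ℚ) (tc : Tc → ℂ) (cc : Fin n × Fin n → ℂ)
    {M : MvPolynomial ((Fin n × Fin n) ⊕ Option (Fin N × Fin n × Fin n)) K}
    (hM : M.totalDegree ≤ D0) (y : Fin N × Sy n → ℂ) (hy : ∀ l, De (fun p => y (l, p)) ≠ 0) :
    MvPolynomial.aeval (Sum.elim (Sum.elim (Sum.elim c.w0 tc) cc) y) (PK K Tc c D0 U M) =
      (De (fun p => c.w0 (some p)) * ∏ l, De (fun p => y (l, p))) ^ D0 *
        MvPolynomial.aeval (Sum.elim cc (pt (fun l => A * Cay (fun p => y (l, p)) * (U l).map (algebraMap ℚ ℂ))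
          (2 * Real.pi * Complex.I))) M := by
  unfold PK
  rw [cle_val hM (numK K Tc c.R1 U) (toK K Tc (denW N n)) (Sum.elim (Sum.elim (Sum.elim c.w0 tc) cc) y) _
    (fun o => numK_val K Tc hn c U tc cc y hy o), toK_val, denW_val]

/-- from the chart to all symplectic matrices -/
theorem chart_vanK (hn : Even n) {A : Matrix (Fin n) (Fin n) ℂ} (c : CDat n A) {D0 : ℕ}
    (U : Fin N → Matrix (Fin n) (Fin n) ℚ) (tc : Tc → ℂ) (cc : Fin n × Fin n → ℂ)
    {M : MvPolynomial ((Fin n × Fin n) ⊕ Option (Fin N × Fin n × Fin n)) K} (hM : M.totalDegree ≤ D0)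
    (hall : ∀ y : Fin N × Sy n → ℂ,
      MvPolynomial.aeval (Sum.elim (Sum.elim (Sum.elim c.w0 tc) cc) y) (PK K Tc c D0 U M) = 0) :
    ∀ S : Fin N → Matrix (Fin n) (Fin n) ℂ, (∀ l, S l ∈ SpS ℂ n) →
      MvPolynomial.aeval (Sum.elim cc (pt (fun l => A * S l * (U l).map (algebraMap ℚ ℂ))
        (2 * Real.pi * Complex.I))) M = 0 := by
  obtain ⟨Q, hQ⟩ := exists_QSK K A U cc M (2 * Real.pi * Complex.I)
  have hQ0 := dense_cay hn Q (fun S hS hcd => by
    rw [hQ]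
    have h1 := fun l => Cay_co hn (hS l) (hcd l)
    have h2 := PK_val K Tc hn c U tc cc hM (fun x : Fin N × Sy n => co (S x.1) x.2) fun l => (h1 l).1
    rw [hall] at h2
    have h3 : (fun l => A * Cay (fun p => co (S l) p) * (U l).map (algebraMap ℚ ℂ)) =
        fun l => A * S l * (U l).map (algebraMap ℚ ℂ) := by
      funext l
      have : Cay (fun p => co (S l) p) = S l := (h1 l).2
      rw [this]
    simp only at h2
    rw [h3] at h2
    refine (mul_eq_zero.1 h2.symm).resolve_left (pow_ne_zero _ (mul_ne_zero (c.De_w0 hn).1 ?_))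
    exact Finset.prod_ne_zero_iff.2 fun l _ => (h1 l).1)
  intro S hS
  rw [← hQ]
  exact hQ0 S hS

end rel

/-- **The window theorem, relative to the periods of the central fibre** -/
theorem wmainK (hn : Even n) {a : Fin n → ℝ} (ha : StrictMono a) {m : Fin (n + 1)} {f : ℚ[X]} (h0 : InGap a m 0)
    (hf : f.map (algebraMap ℚ ℝ) = ∏ i, (X - C (a i)))
    {G0 : ℕ} (hG0 : 0 < G0) (hsep : ∀ {r : ℕ} (g : Fin r → ℕ), SepN G0 g → Sep a (fun l => (g l : ℝ)))
    {G : ℕ} (hG : G0 ≤ G) (Tc : Finset ℂ)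
    (hT1 : ∀ i j, IsAlgebraic (Algebra.adjoin ℚ (Tc : Set ℂ)) (CM a m 0 i j))
    (hT2 : IsAlgebraic (Algebra.adjoin ℚ (Tc : Set ℂ)) (2 * Real.pi * Complex.I : ℂ)) (N D D0 : ℕ) :
    ∃ E : ℕ, ∀ H t : ℕ, (H + 2) ^ E ≤ t →
      (∀ g ≤ H, G * g < t ∧ InGap a m (((1 / ((t : ℚ) - (G * g : ℕ)) : ℚ)) : ℝ)) ∧
      ∃ S : Finset ℕ, S.card ≤ Tc.card ∧ ∀ g : Fin N → ℕ, Function.Injective g →
      (∀ i, 1 ≤ g i ∧ g i ≤ H ∧ g i ∉ S) →
      ∀ K : IntermediateField ℚ ℂ, FiniteDimensional ℚ K → Module.finrank ℚ K ≤ D →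
      ∀ M : MvPolynomial ((Fin n × Fin n) ⊕ Option (Fin N × Fin n × Fin n)) K, M.totalDegree ≤ D0 →
        MvPolynomial.aeval (Sum.elim (fun x => CM a m 0 x.1 x.2)
          (pt (fun i => CM a m (((1 / ((t : ℚ) - (G * g i : ℕ)) : ℚ)) : ℝ)) (2 * Real.pi * Complex.I))) M = 0 →
        ∀ X ∈ Fib (fun i : Fin N => (Qp n f).map (aeval ((1 / ((t : ℚ) - (G * g i : ℕ)) : ℚ) : ℂ))),
          MvPolynomial.aeval (Sum.elim (fun x => CM a m 0 x.1 x.2) (pt X (2 * Real.pi * Complex.I))) M = 0 := by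
  classical
  have ha0 : ∀ i, a i ≠ 0 := fun i => ne_zero_of_gap h0 i
  have hf0 : f.coeff 0 ≠ 0 := coeff_ne_of_gap h0 hf
  have Δ : ZDat n a m f := Classical.choice (exists_ZDat hn ha h0 hf hf0)
  set A : Matrix (Fin n) (Fin n) ℂ := AC a m Δ.V with hA
  have hAJ : A * jm ℂ n * A.transpose = (-4 * Real.pi * Complex.I : ℂ) • jm ℂ n := AC_J hn ha h0 hf Δ.VJ
  have c : CDat n A := Classical.choice (exists_CDat hn hAJ)
  have hI := Complex.I_ne_zero
  have hpi : (Real.pi : ℂ) ≠ 0 := by exact_mod_cast Real.pi_ne_zero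
  have hc0 : (-4 * Real.pi * Complex.I : ℂ) ≠ 0 := mul_ne_zero (mul_ne_zero (by norm_num) hpi) hI
  have hdet : IsUnit A.det := by
    rw [isUnit_iff_ne_zero]
    intro h2
    have := congrArg Matrix.det hAJ
    rw [Matrix.det_mul, Matrix.det_mul, h2, zero_mul, zero_mul, Matrix.det_smul] at this
    exact mul_ne_zero (pow_ne_zero _ hc0) (jm_det hn) this.symm
  -- the constants
  set tc : Tc → ℂ := fun z => (z : ℂ) with htc
  set cc : Fin n × Fin n → ℂ := fun x => CM a m 0 x.1 x.2 with hcc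
  set w : Ups n Tc → ℂ := Sum.elim (Sum.elim c.w0 tc) cc with hw
  set T : Finset (Ups n Tc) := Finset.univ.map ⟨fun z => Sum.inl (Sum.inr z),
    Sum.inl_injective.comp Sum.inr_injective⟩ with hT
  have hTcard : T.card = Tc.card := by rw [hT, Finset.card_map, Finset.card_univ, Fintype.card_coe]
  have hwT : w '' (T : Set (Ups n Tc)) = (Tc : Set ℂ) := by
    ext z
    constructor
    · rintro ⟨x, hx, rfl⟩
      rw [hT, Finset.coe_map] at hx
      obtain ⟨z', -, rfl⟩ := hx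
      exact z'.2
    · intro hz
      refine ⟨Sum.inl (Sum.inr ⟨z, hz⟩), ?_, rfl⟩
      rw [hT, Finset.mem_coe, Finset.mem_map]
      exact ⟨⟨z, hz⟩, Finset.mem_univ _, rfl⟩
  have hTalg : ∀ j, IsAlgebraic (Algebra.adjoin ℚ (w '' (T : Set (Ups n Tc)))) (w j) := by
    rw [hwT]
    rintro ((j | z) | x)
    · refine c.w0_alg (R := Algebra.adjoin ℚ (Tc : Set ℂ)) (fun i j => ?_) hT2 j
      have hL : A i j ∈ Subalgebra.algebraicClosure (Algebra.adjoin ℚ (Tc : Set ℂ)) ℂ := by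
        rw [hA]
        unfold AC
        rw [Matrix.mul_apply]
        refine Subalgebra.sum_mem _ fun k _ => ?_
        refine (hT1 i k).mul ?_
        rw [Matrix.map_apply]
        have h1 : (aeval (0 : ℂ) (Δ.V k j) : ℂ) = algebraMap ℚ ℂ (aeval (0 : ℚ) (Δ.V k j)) := by
          rw [← Polynomial.aeval_algebraMap_apply ℂ (0 : ℚ) (Δ.V k j), map_zero]
        rw [h1, IsScalarTower.algebraMap_apply ℚ (Algebra.adjoin ℚ (Tc : Set ℂ)) ℂ]
        exact isAlgebraic_algebraMap _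
      exact hL
    · have h1 : w (Sum.inl (Sum.inr z)) = algebraMap (Algebra.adjoin ℚ (Tc : Set ℂ)) ℂ
        ⟨(z : ℂ), Algebra.subset_adjoin z.2⟩ := rfl
      rw [h1]
      exact isAlgebraic_algebraMap _
    · exact hT1 x.1 x.2
  obtain ⟨B, hB1, hB2⟩ := exists_deg (numW N c.R1) (denW N n)
  obtain ⟨E1, hE1⟩ := awu (vl Δ G) (inp hn ha ha0 h0 hf hf0 Δ hG0 hsep hG) w T hTalg N D (D0 * (1 + B))
  obtain ⟨ε, hε, hball⟩ := Metric.eventually_nhds_iff.1
    (((Ez_mem hn ha h0 hf Δ).and (Ez_cd hn ha h0 hf Δ)).and (CM_val hn ha h0 Δ))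
  obtain ⟨E2, hE2⟩ := small_arg G hε
  refine ⟨E1 + E2, fun H t ht => ?_⟩
  have hH2 : 1 ≤ H + 2 := by omega
  have ht1 : (H + 2) ^ E1 ≤ t := (Nat.pow_le_pow_right hH2 (Nat.le_add_right _ _)).trans ht
  have ht2 : (H + 2) ^ E2 ≤ t := (Nat.pow_le_pow_right hH2 (Nat.le_add_left _ _)).trans ht
  have hcast : ∀ g : ℕ, (((1 / ((t : ℚ) - (G * g : ℕ)) : ℚ)) : ℝ) = 1 / ((t : ℝ) - (G * g : ℕ)) := by
    intro g; push_cast; rfl
  have hcastC : ∀ g : ℕ, (((1 / ((t : ℝ) - (G * g : ℕ)) : ℝ)) : ℂ) = ((1 / ((t : ℚ) - (G * g : ℕ)) : ℚ) : ℂ) := by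
    intro g; push_cast; rfl
  have hgood : ∀ g ≤ H, (Ez Δ.Z (1 / ((t : ℝ) - (G * g : ℕ))) ∈ SpS ℝ n ∧
      cd ((Ez Δ.Z (1 / ((t : ℝ) - (G * g : ℕ)))).map (algebraMap ℝ ℂ)) ≠ 0) ∧
      (InGap a m (1 / ((t : ℝ) - (G * g : ℕ))) ∧ CM a m (1 / ((t : ℝ) - (G * g : ℕ))) =
        A * (Ez Δ.Z (1 / ((t : ℝ) - (G * g : ℕ)))).map (algebraMap ℝ ℂ) *
          Δ.U.map (aeval ((1 / ((t : ℝ) - (G * g : ℕ)) : ℝ) : ℂ))) := fun g hg =>
    hball (by rw [dist_zero_right]; exact (hE2 H t ht2 g hg).2)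
  refine ⟨fun g hg => ⟨by exact_mod_cast (hE2 H t ht2 g hg).1, by rw [hcast]; exact (hgood g hg).2.1⟩, ?_⟩
  obtain ⟨S, hS1, hS2⟩ := hE1 H t ht1
  refine ⟨S, hTcard ▸ hS1, fun g hginj hg K hKf hKD M hM hMv X hX => ?_⟩
  have hgH : ∀ i, g i ≤ H := fun i => (hg i).2.1
  set z : Fin N → ℚ := fun i => 1 / ((t : ℚ) - (G * g i : ℕ)) with hz
  set U : Fin N → Matrix (Fin n) (Fin n) ℚ := fun i => Δ.U.map (Polynomial.eval (z i)) with hU
  have hUc : ∀ i, (U i).map (algebraMap ℚ ℂ) = Δ.U.map (aeval (z i : ℂ)) := fun i => map_rat _ _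
  set Zc : Fin N → Matrix (Fin n) (Fin n) ℂ := fun i =>
    (Ez Δ.Z (1 / ((t : ℝ) - (G * g i : ℕ)))).map (algebraMap ℝ ℂ) with hZc
  have hZsp : ∀ i, Zc i ∈ SpS ℂ n := fun i => SpS_map _ (hgood (g i) (hgH i)).1.1
  have hZcd : ∀ i, cd (Zc i) ≠ 0 := fun i => (hgood (g i) (hgH i)).1.2
  have hCM : ∀ i, CM a m ((z i : ℚ) : ℝ) = A * Zc i * (U i).map (algebraMap ℚ ℂ) := by
    intro i
    rw [hUc, hz]
    simp only
    rw [hcast, ← hcastC]
    exact (hgood (g i) (hgH i)).2.2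
  -- the relation in all the coordinates
  have hPd : (PK K Tc c D0 U M).totalDegree ≤ D0 * (1 + B) :=
    cle_deg hM (numK_deg K Tc hB1 hB2 U) ((toK_deg K Tc hB2).trans (Nat.le_add_left _ _))
  have hyZ : ∀ l, De (fun p => vl Δ G t (g l) p) ≠ 0 ∧ Cay (fun p => vl Δ G t (g l) p) = Zc l := by
    intro l
    have h1 : (fun p => vl Δ G t (g l) p) = co (Zc l) := rfl
    rw [h1]
    exact Cay_co hn (hZsp l) (hZcd l)
  have hrel : MvPolynomial.aeval (Sum.elim w fun p : Fin N × Sy n => vl Δ G t (g p.1) p.2)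
      (PK K Tc c D0 U M) = 0 := by
    have h1 : (fun l => A * Cay (fun p => vl Δ G t (g l) p) * (U l).map (algebraMap ℚ ℂ)) =
        fun i => CM a m ((z i : ℚ) : ℝ) := by
      funext l
      rw [(hyZ l).2, hCM]
    have h2 := PK_val K Tc hn c U tc cc hM (fun p : Fin N × Sy n => vl Δ G t (g p.1) p.2) (fun l => (hyZ l).1)
    simp only at h2
    rw [h1, hMv, mul_zero] at h2
    exact h2
  have hcon := hS2 g hginj hg K hKf hKD (PK K Tc c D0 U M) hPd hrel
  have hall : ∀ y : Fin N × Sy n → ℂ, MvPolynomial.aeval (Sum.elim w y) (PK K Tc c D0 U M) = 0 := by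
    intro y
    have h1 := congrArg (MvPolynomial.aeval y : MvPolynomial (Fin N × Sy n) ℂ →ₐ[ℂ] ℂ) hcon
    rw [map_zero] at h1
    have h2 := MvPolynomial.comp_aeval_apply (f := (Sum.elim (fun j => MvPolynomial.C (w j)) MvPolynomial.X :
      Ups n Tc ⊕ Fin N × Sy n → MvPolynomial (Fin N × Sy n) ℂ)) ((MvPolynomial.aeval y :
        MvPolynomial (Fin N × Sy n) ℂ →ₐ[ℂ] ℂ).restrictScalars K) (PK K Tc c D0 U M)
    rw [AlgHom.restrictScalars_apply] at h2
    rw [h2] at h1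
    rw [← h1]
    congr 2
    funext x
    rcases x with x | x
    · simp
    · simp
  have hQ0 := chart_vanK K Tc hn c U tc cc hM hall
  -- the points of the fibre
  have hfib : ∀ j, (A⁻¹ * (X j * Δ.V.map (aeval (z j : ℂ)))) ∈ SpS ℂ n ∧
        A * (A⁻¹ * (X j * Δ.V.map (aeval (z j : ℂ)))) * (U j).map (algebraMap ℚ ℂ) = X j := by
    intro j
    have h2 : A * (A⁻¹ * (X j * Δ.V.map (aeval (z j : ℂ)))) = X j * Δ.V.map (aeval (z j : ℂ)) := by
      rw [← Matrix.mul_assoc, mul_nonsing_inv _ hdet, one_mul]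
    refine ⟨SpS_of_eqC hn hc0 hAJ ?_, ?_⟩
    · rw [h2]
      exact CM_J (hX j) Δ
    · rw [h2, hUc, Matrix.mul_assoc, ← map_aevalC_mul, Δ.VU, map_aevalC_one, mul_one]
  have h3 := hQ0 (fun j => A⁻¹ * (X j * Δ.V.map (aeval (z j : ℂ)))) fun j => (hfib j).1
  have h4 : (fun l => A * (A⁻¹ * (X l * Δ.V.map (aeval (z l : ℂ)))) * (U l).map (algebraMap ℚ ℂ)) = X := by
    funext l
    exact (hfib l).2
  rw [h4] at h3
  exact h3

end Pool.Agent.Y118.HG
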