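import Pool.Agent.Y118.HG.Kw
import Pool.Agent.Y118.HG.Wk

/-!
# The window theorem, final form
-/

set_option autoImplicit false
set_option maxHeartbeats 400000

open Matrix Polynomial Filter Topology NumberField

namespace Pool.Agent.Y118.HG

open Pool.Agent.Y118.HP Pool.Agent.Y113 Pool.Agent.Y37.GF

variable {n N : ℕ}

/-- relations of bounded degree with the periods of the central fibre, over number fields of bounded degree -/
def RG (cc : Fin n × Fin n → ℂ) (F : Fin N → ℚ[X]) (c : Option (Fin N × Fin n × Fin n) → ℂ) (D d : ℕ) : Prop :=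
  ∀ (K : Type) [Field K] [NumberField K] (φ : K →+* ℂ)
    (P : MvPolynomial ((Fin n × Fin n) ⊕ Option (Fin N × Fin n × Fin n)) K),
    Module.finrank ℚ K ≤ D → P.totalDegree ≤ d → (P.map φ).eval (Sum.elim cc c) = 0 →
    ∀ x ∈ TorF (n := n) F, x.2 = 2 * Real.pi * Complex.I → (P.map φ).eval (Sum.elim cc (pt x.1 x.2)) = 0

/-- abstract number fields and subfields of `ℂ` -/
theorem abs_field {σ : Type*} {K : Type} [Field K] [NumberField K] (φ : K →+* ℂ) {D : ℕ}
    (hK : Module.finrank ℚ K ≤ D) (P : MvPolynomial σ K) :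
    ∃ (K' : IntermediateField ℚ ℂ) (_ : FiniteDimensional ℚ K') (P' : MvPolynomial σ K'),
      Module.finrank ℚ K' ≤ D ∧ P'.totalDegree ≤ P.totalDegree ∧
      ∀ v : σ → ℂ, MvPolynomial.aeval v P' = (P.map φ).eval v := by
  set ψ : K →ₐ[ℚ] ℂ := φ.toRatAlgHom with hψ
  set e : K ≃ₐ[ℚ] ψ.fieldRange := AlgEquiv.ofInjectiveField ψ with he
  refine ⟨ψ.fieldRange, Module.Finite.equiv e.toLinearEquiv, P.map (e : K →+* ψ.fieldRange), ?_,
    totalDegree_map_le _ _, fun v => ?_⟩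
  · rw [← e.toLinearEquiv.finrank_eq]
    exact hK
  · rw [MvPolynomial.aeval_def, MvPolynomial.eval₂_map, MvPolynomial.eval_map]
    congr 1

/-- **The window theorem, relative to the central fibre** -/
theorem wfinK (hn : Even n) (a : Fin n → ℝ) (f : ℚ[X])
    (hf : f.map (algebraMap ℚ ℝ) = ∏ i, (X - C (a i))) (m : Fin (n + 1)) (h0 : StrictMono (er a m 0)) :
    ∃ G0 : ℕ, ∀ G : ℕ, G0 ≤ G → ∀ k D d : ℕ, ∃ E : ℕ, ∀ H t : ℕ, (H + 2) ^ E ≤ t →
      (∀ g : ℕ, g ≤ H → G * g < t ∧ StrictMono (er a m (1 / ((t : ℝ) - G * g)))) ∧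
      ∃ S : Finset ℕ,
        (S.card : Cardinal) ≤ Algebra.trdeg ℚ (IntermediateField.adjoin ℚ (Set.range
          (pt (fun _ : Fin 1 => Matrix.of (cper (er a m 0))) (2 * Real.pi * Complex.I)))) ∧
        2 * S.card ≤ n * (n + 1) + 2 ∧
        ∀ g : Fin k → ℕ, Function.Injective g → (∀ j, 1 ≤ g j ∧ g j ≤ H ∧ g j ∉ S) →
          ((fun j => Matrix.of (cper (er a m (1 / ((t : ℝ) - G * g j))))), (2 * Real.pi * Complex.I : ℂ)) ∈
            TorF (n := n) (fun j => f * (X - C (1 / ((t : ℚ) - G * g j)))) ∧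
          DG (fun j => f * (X - C (1 / ((t : ℚ) - G * g j))))
            (pt (fun j => Matrix.of (cper (er a m (1 / ((t : ℝ) - G * g j))))) (2 * Real.pi * Complex.I)) D d ∧
          RG (fun x => cper (er a m 0) x.1 x.2) (fun j => f * (X - C (1 / ((t : ℚ) - G * g j))))
            (pt (fun j => Matrix.of (cper (er a m (1 / ((t : ℝ) - G * g j))))) (2 * Real.pi * Complex.I)) D d := by
  have ha : StrictMono a := (inGap_of_er h0).1
  have hg0 : InGap a m 0 := (inGap_of_er h0).2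
  obtain ⟨Tc, hTc1, hTc2, hTc3, hTc4⟩ := exists_Tc hn ha hg0 hf
  obtain ⟨G0, hG0, hsep⟩ := exists_G0 a
  refine ⟨G0, fun G hG k D d => ?_⟩
  obtain ⟨E, hE⟩ := wmainK hn ha hg0 hf hG0 hsep hG Tc hTc3 hTc4 k (D + 1) (D * d + d)
  refine ⟨E, fun H t ht => ?_⟩
  obtain ⟨h1, S, hS1, hS2⟩ := hE H t ht
  have hcast : ∀ g : ℕ, (((1 / ((t : ℚ) - (G * g : ℕ)) : ℚ)) : ℝ) = 1 / ((t : ℝ) - G * g) := fun g => by push_cast; rfl
  have hcastQ : ∀ g : ℕ, (1 / ((t : ℚ) - (G * g : ℕ)) : ℚ) = 1 / ((t : ℚ) - G * g) := fun g => by push_cast; rfl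
  refine ⟨fun g hg => ⟨(h1 g hg).1, ?_⟩, S, ?_, ?_, fun g hginj hg => ?_⟩
  · have := er_of_inGap ha (h1 g hg).2
    rwa [hcast] at this
  · refine le_trans ?_ hTc1
    exact_mod_cast hS1
  · exact (Nat.mul_le_mul_left 2 hS1).trans hTc2
  have hgap : ∀ j, InGap a m (((1 / ((t : ℚ) - (G * g j : ℕ)) : ℚ)) : ℝ) := fun j => (h1 (g j) (hg j).2.1).2
  have hpt : (fun j => Matrix.of (cper (er a m (1 / ((t : ℝ) - G * g j))))) =
      fun j => CM a m (((1 / ((t : ℚ) - (G * g j : ℕ)) : ℚ)) : ℝ) := by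
    funext j
    rw [hcast]
    rfl
  have hF : (fun j => f * (X - C (1 / ((t : ℚ) - G * g j)))) =
      fun j => f * (X - C (1 / ((t : ℚ) - (G * g j : ℕ)))) := by
    funext j
    rw [hcastQ]
  rw [hpt, hF]
  refine ⟨?_, ?_, ?_⟩
  · rw [TorF_eq]
    refine ⟨?_, fun j => CM_mem hn ha hf (hgap j)⟩
    have := Complex.I_ne_zero
    have h2 : (Real.pi : ℂ) ≠ 0 := by exact_mod_cast Real.pi_ne_zero
    exact mul_ne_zero (mul_ne_zero two_ne_zero h2) this
  · intro K _ _ φ P hK hd hPv x hx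
    rw [TorF_eq] at hx
    have h3 := k_of_fib hn (fun _ => a) (fun _ => ha) (fun _ => m) (fun _ => f) (fun _ => hf) D d
      (fun j => 1 / ((t : ℚ) - (G * g j : ℕ))) hgap (fun M hM hMv X hX => by
        have hv : ∀ v : Option (Fin k × Fin n × Fin n) → ℂ,
            MvPolynomial.aeval (Sum.elim (fun x : Fin n × Fin n => CM a m 0 x.1 x.2) v)
              ((MvPolynomial.rename Sum.inr M).map (algebraMap ℚ (⊥ : IntermediateField ℚ ℂ))) =
            MvPolynomial.aeval v M := by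
          intro v
          rw [MvPolynomial.aeval_map_algebraMap, MvPolynomial.aeval_rename, Sum.elim_comp_inr]
        have h4 := hS2 g hginj hg ⊥ inferInstance (by rw [IntermediateField.finrank_bot]; omega)
          ((MvPolynomial.rename Sum.inr M).map (algebraMap ℚ (⊥ : IntermediateField ℚ ℂ)))
          (((totalDegree_map_le _ _).trans (MvPolynomial.totalDegree_rename_le _ _)).trans
            (hM.trans (Nat.le_add_right _ _))) (by rw [hv]; exact hMv) X hX
        rw [hv] at h4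
        exact h4) K hK φ P hd
      (by rw [MvPolynomial.aeval_eq_eval]; exact hPv) x hx
    rw [MvPolynomial.aeval_eq_eval] at h3
    exact h3
  · intro K _ _ φ P hK hd hPv x hx hx2
    rw [TorF_eq] at hx
    obtain ⟨K', hK'f, P', hK'D, hP'd, hP'v⟩ := abs_field φ hK P
    have hcc : (fun x : Fin n × Fin n => cper (er a m 0) x.1 x.2) = fun x => CM a m 0 x.1 x.2 := rfl
    rw [hcc] at hPv ⊢
    rw [← hP'v] at hPv ⊢
    have h5 : x.1 ∈ Fib (fun i : Fin k => (Qp n f).map (aeval ((1 / ((t : ℚ) - (G * g i : ℕ)) : ℚ) : ℂ))) := by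
      intro j
      have := hx.2 j
      rw [hx2] at this
      exact this
    rw [hx2]
    exact hS2 g hginj hg K' hK'f (hK'D.trans (Nat.le_succ D)) P' ((hP'd.trans hd).trans (Nat.le_add_left _ _)) hPv
      x.1 h5

end Pool.Agent.Y118.HG
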