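import Pool.Agent.Y118.HG.Gen
import Pool.Agent.Y118.HP.Alg5

/-!
# Relations between the periods at the points `1 / (s - g l)`: invariance under the symplectic groups
-/

set_option autoImplicit false
set_option maxHeartbeats 400000

open Complex Set Filter Topology Matrix

namespace Pool.Agent.Y118.HG

open Pool.Agent.Y118.HP

variable {n N : ℕ}

/-- the points -/
noncomputable def zz (g : Fin N → ℝ) (l : Fin N) (s : ℂ) : ℂ := 1 / (s - g l)

/-- evaluation -/
noncomputable def evs (P : MvPolynomial (Option (Fin N × Fin n × Fin n)) ℂ) (s : ℂ)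
    (X : Fin N → Matrix (Fin n) (Fin n) ℂ) : ℂ := MvPolynomial.eval (pt X s) P

/-- substitution `X_l ↦ H_l X_l` -/
noncomputable def sbt (H : Fin N → Matrix (Fin n) (Fin n) ℂ) (P : MvPolynomial (Option (Fin N × Fin n × Fin n)) ℂ) :
    MvPolynomial (Option (Fin N × Fin n × Fin n)) ℂ :=
  MvPolynomial.bind₁ (fun o => o.elim (MvPolynomial.X none) fun x =>
    ∑ k, MvPolynomial.C (H x.1 x.2.1 k) * MvPolynomial.X (some (x.1, k, x.2.2))) P

theorem evs_sbt (H : Fin N → Matrix (Fin n) (Fin n) ℂ) (P : MvPolynomial (Option (Fin N × Fin n × Fin n)) ℂ) (s : ℂ)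
    (X : Fin N → Matrix (Fin n) (Fin n) ℂ) : evs (sbt H P) s X = evs P s (H * X) := by
  unfold evs sbt
  rw [← MvPolynomial.coe_aeval_eq_eval, ← MvPolynomial.coe_aeval_eq_eval]
  simp only [RingHom.coe_coe]
  rw [MvPolynomial.aeval_bind₁]
  congr 2
  funext o
  rcases o with _ | x
  · simp [pt]
  · simp [pt, Matrix.mul_apply]

/-- the domain: complement of two closed real rays -/
def DI (I : Set ℝ) : Set ℂ := {s : ℂ | s.im ≠ 0 ∨ s.re ∈ I}

theorem isOpen_DI {I : Set ℝ} (hI : IsOpen I) : IsOpen (DI I) := by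
  have : DI I = {s : ℂ | s.im ≠ 0} ∪ {s : ℂ | s.re ∈ I} := by ext; simp [DI]
  rw [this]
  exact (isOpen_ne_fun continuous_im continuous_const).union (hI.preimage continuous_re)

theorem preconn_DI {I : Set ℝ} (hc : Convex ℝ I) {s0 : ℝ} (h0 : s0 ∈ I) : IsPreconnected (DI I) := by
  have h0' : (s0 : ℂ) ∈ DI I := Or.inr (by simpa using h0)
  have hst : StarConvex ℝ (s0 : ℂ) (DI I) := by
    intro z hz u v hu hv huv
    rcases eq_or_lt_of_le hv with rfl | hv'
    · have : u = 1 := by linarith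
      rw [this]
      simpa using h0'
    · by_cases hz0 : z.im = 0
      · right
        have hz1 : z.re ∈ I := by
          rcases hz with h | h
          · exact absurd hz0 h
          · exact h
        have := hc h0 hz1 hu hv huv
        simpa using this
      · left
        simp only [add_im, smul_im, ofReal_im, smul_eq_mul, ne_eq, mul_zero, zero_add]
        exact mul_ne_zero hv'.ne' hz0
  exact ((hst.isPathConnected h0').isConnected).isPreconnected

/-- compatibility of the positions with a real interval -/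
def Comp (a : Fin n → ℝ) (g : Fin N → ℝ) (M : Fin N → Fin (n + 1)) (I : Set ℝ) : Prop :=
  ∀ s ∈ I, ∀ l, s ≠ g l ∧ InGap a (M l) (1 / (s - g l))

variable {a : Fin n → ℝ} {g : Fin N → ℝ}

theorem sub_ne_of_im {s : ℂ} (hs : s.im ≠ 0) (r : ℝ) : s - r ≠ 0 := by
  intro h
  apply hs
  have := congrArg Complex.im h
  simpa using this

theorem zz_im {s : ℂ} (l : Fin N) : (zz g l s).im = -s.im / normSq (s - g l) := by
  unfold zz
  rw [one_div, inv_im]
  simp

theorem zz_im_neg {s : ℂ} (hs : 0 < s.im) (l : Fin N) : (zz g l s).im < 0 := by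
  rw [zz_im]
  have : 0 < normSq (s - g l) := normSq_pos.2 (sub_ne_of_im hs.ne' _)
  exact div_neg_of_neg_of_pos (by linarith) this

theorem zz_im_pos {s : ℂ} (hs : s.im < 0) (l : Fin N) : 0 < (zz g l s).im := by
  rw [zz_im]
  have : 0 < normSq (s - g l) := normSq_pos.2 (sub_ne_of_im hs.ne _)
  exact div_pos (by linarith) this

theorem zz_real (s : ℝ) (l : Fin N) : zz g l (s : ℂ) = ((1 / (s - g l) : ℝ) : ℂ) := by
  unfold zz
  push_cast
  rfl

theorem zz_mem {M : Fin N → Fin (n + 1)} {I : Set ℝ} (hc : Comp a g M I) {s : ℂ} (hs : s ∈ DI I) (l : Fin N) :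
    s - g l ≠ 0 ∧ zz g l s ∈ Dm a (M l) := by
  by_cases h0 : s.im = 0
  · have h1 : s.re ∈ I := by
      rcases hs with h | h
      · exact absurd h0 h
      · exact h
    have hsr : s = (s.re : ℂ) := by
      apply Complex.ext
      · simp
      · simpa using h0
    obtain ⟨h2, h3⟩ := hc _ h1 l
    rw [hsr, zz_real]
    refine ⟨?_, h3.mem_Dm⟩
    rw [← ofReal_sub]
    exact_mod_cast sub_ne_zero.2 h2
  · refine ⟨sub_ne_of_im h0 _, mem_Dm_of_im _ _ ?_⟩
    rcases lt_or_gt_of_ne h0 with h | h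
    · exact (zz_im_pos h l).ne'
    · exact (zz_im_neg h l).ne

theorem diffOn_evs (ha : StrictMono a) {M : Fin N → Fin (n + 1)} {I : Set ℝ} (hc : Comp a g M I)
    (P : MvPolynomial (Option (Fin N × Fin n × Fin n)) ℂ) (H : Fin N → Matrix (Fin n) (Fin n) ℂ) :
    DifferentiableOn ℂ (fun s => evs P s (fun l => H l * PM a (M l) (zz g l s))) (DI I) := by
  unfold evs
  refine differentiableOn_eval (fun (o : Option (Fin N × Fin n × Fin n)) s =>
    pt (fun l => H l * PM a (M l) (zz g l s)) s o) ?_ P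
  rintro (_ | x)
  · exact differentiableOn_id
  · show DifferentiableOn ℂ (fun s => (H x.1 * PM a (M x.1) (zz g x.1 s)) x.2.1 x.2.2) (DI I)
    simp only [Matrix.mul_apply]
    refine DifferentiableOn.fun_sum fun k _ => ?_
    refine (differentiableOn_const _).mul ?_
    have h1 : DifferentiableOn ℂ (fun z => perC (ee a (M x.1) z) k (x.2.2 : ℕ)) (Dm a (M x.1)) :=
      differentiableOn_perC ha (M x.1) k x.2.2
    refine h1.comp (f := fun s => zz g x.1 s) ?_ ?_
    · unfold zz
      exact (differentiableOn_const _).div (differentiableOn_id.sub (differentiableOn_const _))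
        fun s hs => (zz_mem hc hs x.1).1
    · exact fun s hs => (zz_mem hc hs x.1).2

section ident

variable {f : ℂ → ℂ} {I : Set ℝ}

theorem zero_of_upper (hI : IsOpen I) (hc : Convex ℝ I) (hne : I.Nonempty) (hf : DifferentiableOn ℂ f (DI I))
    (h : ∀ s : ℂ, 0 < s.im → f s = 0) : ∀ s ∈ DI I, f s = 0 := by
  obtain ⟨s0, hs0⟩ := hne
  refine (hf.analyticOnNhd (isOpen_DI hI)).eqOn_zero_of_preconnected_of_eventuallyEq_zero (preconn_DI hc hs0)
    (z₀ := Complex.I) (Or.inl (by simp)) ?_
  filter_upwards [(isOpen_lt continuous_const continuous_im).mem_nhds (show (0 : ℝ) < Complex.I.im by simp)] with s hs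
  exact h s hs

theorem zero_of_lower (hI : IsOpen I) (hc : Convex ℝ I) (hne : I.Nonempty) (hf : DifferentiableOn ℂ f (DI I))
    (h : ∀ s : ℂ, s.im < 0 → f s = 0) : ∀ s ∈ DI I, f s = 0 := by
  obtain ⟨s0, hs0⟩ := hne
  refine (hf.analyticOnNhd (isOpen_DI hI)).eqOn_zero_of_preconnected_of_eventuallyEq_zero (preconn_DI hc hs0)
    (z₀ := -Complex.I) (Or.inl (by simp)) ?_
  filter_upwards [(isOpen_lt continuous_im continuous_const).mem_nhds (show (-Complex.I).im < (0 : ℝ) by simp)] with s hs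
  exact h s hs

theorem zero_of_real (hI : IsOpen I) (hc : Convex ℝ I) (hne : I.Nonempty) (hf : DifferentiableOn ℂ f (DI I))
    (h : ∀ s ∈ I, f ((s : ℝ) : ℂ) = 0) : ∀ s ∈ DI I, f s = 0 := by
  obtain ⟨s0, hs0⟩ := hne
  have h0 : (s0 : ℂ) ∈ DI I := Or.inr (by simpa using hs0)
  refine (hf.analyticOnNhd (isOpen_DI hI)).eqOn_zero_of_preconnected_of_frequently_eq_zero (preconn_DI hc hs0) h0 ?_
  have h2 : Tendsto (fun t : ℝ => (t : ℂ)) (𝓝[>] s0) (𝓝[≠] (s0 : ℂ)) := by
    refine tendsto_nhdsWithin_iff.2 ⟨?_, ?_⟩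
    · exact (continuous_ofReal.tendsto s0).mono_left nhdsWithin_le_nhds
    · filter_upwards [self_mem_nhdsWithin] with t ht
      simp only [mem_compl_iff, mem_singleton_iff, ofReal_inj]
      exact (ne_of_gt ht)
  refine h2.frequently ?_
  refine Eventually.frequently ?_
  filter_upwards [mem_nhdsWithin_of_mem_nhds (hI.mem_nhds hs0)] with t ht
  exact h t ht

end ident

/-- relations valid on the upper half plane -/
def IdM (a : Fin n → ℝ) (g : Fin N → ℝ) (M : Fin N → Fin (n + 1)) :
    Set (MvPolynomial (Option (Fin N × Fin n × Fin n)) ℂ) :=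
  {P | ∀ s : ℂ, 0 < s.im → evs P s (fun l => PM a (M l) (zz g l s)) = 0}

/-- the matrix which connects the positions `0` and `j` in the lower half plane -/
noncomputable def Cm (n : ℕ) : ℕ → Matrix (Fin n) (Fin n) ℂ
  | 0 => 1
  | k + 1 => if h : k < n then Tk ⟨k, h⟩ Complex.I * Cm n k else Cm n k

/-- its inverse -/
noncomputable def Ci (n : ℕ) : ℕ → Matrix (Fin n) (Fin n) ℂ
  | 0 => 1
  | k + 1 => if h : k < n then Ci n k * Tk ⟨k, h⟩ (-Complex.I) else Ci n k

theorem Cm_Ci (k : ℕ) : Cm n k * Ci n k = 1 ∧ Ci n k * Cm n k = 1 := by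
  induction k with
  | zero => simp [Cm, Ci]
  | succ k ih =>
    unfold Cm Ci
    split_ifs with h
    · constructor
      · calc Tk ⟨k, h⟩ Complex.I * Cm n k * (Ci n k * Tk ⟨k, h⟩ (-Complex.I)) =
            Tk ⟨k, h⟩ Complex.I * (Cm n k * Ci n k) * Tk ⟨k, h⟩ (-Complex.I) := by simp only [mul_assoc]
          _ = 1 := by rw [ih.1, mul_one, Tk_mul, add_neg_cancel, Tk_zero]
      · calc Ci n k * Tk ⟨k, h⟩ (-Complex.I) * (Tk ⟨k, h⟩ Complex.I * Cm n k) =
            Ci n k * (Tk ⟨k, h⟩ (-Complex.I) * Tk ⟨k, h⟩ Complex.I) * Cm n k := by simp only [mul_assoc]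
          _ = 1 := by rw [Tk_mul, neg_add_cancel, Tk_zero, mul_one, ih.2]
    · exact ih

theorem PM_Cm (ha : StrictMono a) (j : Fin (n + 1)) {z : ℂ} (hz : z.im < 0) :
    PM a j z = Cm n (j : ℕ) * PM a 0 z := by
  induction j using Fin.induction with
  | zero => simp [Cm]
  | succ k ih =>
    rw [PM_lower ha k hz, ih]
    have : Cm n ((k.succ : Fin (n + 1)) : ℕ) = Tk k Complex.I * Cm n (k : ℕ) := by
      show Cm n ((k : ℕ) + 1) = _
      rw [Cm, dif_pos k.2]
    rw [this, mul_assoc]
    rfl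

theorem PM_Ci (ha : StrictMono a) (j : Fin (n + 1)) {z : ℂ} (hz : z.im < 0) :
    PM a 0 z = Ci n (j : ℕ) * PM a j z := by
  rw [PM_Cm ha j hz, ← mul_assoc, (Cm_Ci _).2, one_mul]

theorem mem_IdM_of (ha : StrictMono a) {M : Fin N → Fin (n + 1)} {P : MvPolynomial (Option (Fin N × Fin n × Fin n)) ℂ}
    (h : P ∈ IdM a g M) : sbt (fun l => Cm n (M l : ℕ)) P ∈ IdM a g (fun _ => 0) := by
  intro s hs
  rw [evs_sbt]
  have h1 := h s hs
  have h2 : (fun l => PM a (M l) (zz g l s)) = (fun l => Cm n (M l : ℕ)) * fun l => PM a 0 (zz g l s) := by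
    funext l
    exact PM_Cm ha (M l) (zz_im_neg hs l)
  rw [h2] at h1
  exact h1

theorem mem_of_IdM (ha : StrictMono a) (M : Fin N → Fin (n + 1)) {P : MvPolynomial (Option (Fin N × Fin n × Fin n)) ℂ}
    (h : P ∈ IdM a g (fun _ => 0)) : sbt (fun l => Ci n (M l : ℕ)) P ∈ IdM a g M := by
  intro s hs
  rw [evs_sbt]
  have h1 := h s hs
  have h2 : (fun l => PM a 0 (zz g l s)) = (fun l => Ci n (M l : ℕ)) * fun l => PM a (M l) (zz g l s) := by
    funext l
    exact PM_Ci ha (M l) (zz_im_neg hs l)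
  rw [h2] at h1
  exact h1

/-- the monoid of the tuples of matrices which preserve the relations -/
def MonS (a : Fin n → ℝ) (g : Fin N → ℝ) : Submonoid (Fin N → Matrix (Fin n) (Fin n) ℂ) where
  carrier := {H | ∀ P ∈ IdM a g (fun _ => 0), sbt H P ∈ IdM a g (fun _ => 0)}
  one_mem' := by
    intro P hP s hs
    rw [evs_sbt, one_mul]
    exact hP s hs
  mul_mem' := by
    intro H H' hH hH' P hP
    have h1 := hH' (sbt H P) (hH P hP)
    intro s hs
    have h2 := h1 s hs
    rw [evs_sbt, evs_sbt] at h2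
    rw [evs_sbt, mul_assoc]
    exact h2

/-- the tuple with `h` at the place `l` and `1` elsewhere -/
def ms (l : Fin N) (h : Matrix (Fin n) (Fin n) ℂ) : Fin N → Matrix (Fin n) (Fin n) ℂ := fun k => if k = l then h else 1

theorem ms_apply (l : Fin N) (h : Matrix (Fin n) (Fin n) ℂ) (k : Fin N) : ms l h k = if k = l then h else 1 := rfl

theorem ms_mul_apply (l : Fin N) (h : Matrix (Fin n) (Fin n) ℂ) (X : Fin N → Matrix (Fin n) (Fin n) ℂ)
    (k : Fin N) : (ms l h * X) k = if k = l then h * X k else X k := by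
  rw [Pi.mul_apply, ms_apply]
  by_cases hk : k = l
  · rw [if_pos hk, if_pos hk]
  · rw [if_neg hk, if_neg hk, one_mul]

theorem ms_mul (l : Fin N) (h h' : Matrix (Fin n) (Fin n) ℂ) : ms l (h * h') = ms l h * ms l h' := by
  funext k
  rw [ms_mul_apply, ms_apply, ms_apply]
  by_cases hk : k = l
  · rw [if_pos hk, if_pos hk, if_pos hk]
  · rw [if_neg hk, if_neg hk, if_neg hk]

theorem ms_one (l : Fin N) : ms l (1 : Matrix (Fin n) (Fin n) ℂ) = 1 := by
  funext k
  rw [ms_apply, Pi.one_apply]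
  split_ifs <;> rfl

/-- the matrices at the place `l` -/
def MonL (a : Fin n → ℝ) (g : Fin N → ℝ) (l : Fin N) : Submonoid (Matrix (Fin n) (Fin n) ℂ) where
  carrier := {h | ms l h ∈ MonS a g}
  one_mem' := by
    show ms l 1 ∈ MonS a g
    rw [ms_one]
    exact one_mem _
  mul_mem' := by
    intro h h' hh hh'
    show ms l (h * h') ∈ MonS a g
    rw [ms_mul]
    exact mul_mem hh hh'

theorem mem_MonL {l : Fin N} {h : Matrix (Fin n) (Fin n) ℂ} :
    h ∈ MonL a g l ↔ ∀ P ∈ IdM a g (fun _ => 0), ∀ s : ℂ, 0 < s.im →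
      evs P s (ms l h * fun l => PM a 0 (zz g l s)) = 0 := by
  constructor
  · intro hh P hP s hs
    have := (show ms l h ∈ MonS a g from hh) P hP s hs
    rwa [evs_sbt] at this
  · intro hh
    show ms l h ∈ MonS a g
    intro P hP s hs
    rw [evs_sbt]
    exact hh P hP s hs

/-- polynomial families -/
theorem pf_MonL (l : Fin N) : PF (MonL a g l) := by
  intro M A hA h s
  rw [mem_MonL]
  intro P hP w hw
  set X : Fin N → Matrix (Fin n) (Fin n) ℂ := fun l => PM a 0 (zz g l w) with hX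
  set MX : Fin N → Matrix (Fin n) (Fin n) (Polynomial ℂ) := fun k =>
    if k = l then M * (X k).map Polynomial.C else (X k).map Polynomial.C with hMX
  set p : Polynomial ℂ := MvPolynomial.eval₂ Polynomial.C (pt MX (Polynomial.C w)) P with hp
  have hev : ∀ s, p.eval s = evs P w (ms l (M.map (Polynomial.eval s)) * X) := by
    intro s
    have h1 := MvPolynomial.eval₂_comp_left (Polynomial.evalRingHom s) (Polynomial.C) (pt MX (Polynomial.C w)) P
    rw [← hp] at h1
    have h2 : (Polynomial.evalRingHom s) p = p.eval s := rfl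
    rw [← h2, h1]
    unfold evs
    rw [MvPolynomial.eval]
    congr 1
    · ext c
      simp
    · funext o
      rcases o with _ | x
      · simp [pt]
      · simp only [Function.comp, pt, Option.elim]
        rw [ms_mul_apply]
        simp only [hMX]
        split_ifs with hk
        · simp [Matrix.mul_apply, Polynomial.eval_finsetSum]
        · simp
  have hp0 : p = 0 := by
    apply Polynomial.eq_zero_of_infinite_isRoot
    refine hA.mono fun s hs => ?_
    show p.eval s = 0
    rw [hev]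
    exact mem_MonL.1 (h s hs) P hP w hw
  rw [← hev, hp0, Polynomial.eval_zero]

/-- a crossing gives a monodromy matrix -/
theorem crossing (ha : StrictMono a) (l0 : Fin N) (i : Fin n) (M : Fin N → Fin (n + 1)) {Il Ir : Set ℝ}
    (hIl : IsOpen Il) (hIl' : Convex ℝ Il) (hIl'' : Il.Nonempty) (hIr : IsOpen Ir) (hIr' : Convex ℝ Ir)
    (hIr'' : Ir.Nonempty) (hcl : Comp a g (Function.update M l0 i.succ) Il)
    (hcr : Comp a g (Function.update M l0 i.castSucc) Ir) :
    Ci n (i : ℕ) * Tk i (2 * Complex.I) * Cm n (i : ℕ) ∈ MonL a g l0 := by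
  rw [mem_MonL]
  intro Q hQ
  set Mr := Function.update M l0 i.castSucc with hMr
  set Ml := Function.update M l0 i.succ with hMl
  set P := sbt (fun l => Ci n (Mr l : ℕ)) Q with hP
  have hPr : P ∈ IdM a g Mr := mem_of_IdM ha Mr hQ
  -- the two matrices
  have hupd : ∀ l, l ≠ l0 → Mr l = M l ∧ Ml l = M l := fun l hl =>
    ⟨Function.update_of_ne hl _ _, Function.update_of_ne hl _ _⟩
  have hr0 : Mr l0 = i.castSucc := Function.update_self _ _ _
  have hl0 : Ml l0 = i.succ := Function.update_self _ _ _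
  have low : ∀ s : ℂ, s.im < 0 → (fun l => PM a (Mr l) (zz g l s)) =
      ms l0 (Tk i Complex.I) * fun l => PM a (Ml l) (zz g l s) := by
    intro s hs
    funext l
    rw [ms_mul_apply]
    split_ifs with hl
    · subst hl
      rw [hr0, hl0]
      exact PM_upper' ha i (zz_im_pos hs l)
    · rw [(hupd l hl).1, (hupd l hl).2]
  have upp : ∀ s : ℂ, 0 < s.im → (fun l => PM a (Ml l) (zz g l s)) =
      ms l0 (Tk i Complex.I) * fun l => PM a (Mr l) (zz g l s) := by
    intro s hs
    funext l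
    rw [ms_mul_apply]
    split_ifs with hl
    · subst hl
      rw [hr0, hl0]
      exact PM_lower ha i (zz_im_neg hs l)
    · rw [(hupd l hl).1, (hupd l hl).2]
  -- upper half plane to lower half plane through the right interval
  have h1 : ∀ s ∈ DI Ir, evs P s (fun l => PM a (Mr l) (zz g l s)) = 0 := by
    refine zero_of_upper hIr hIr' hIr'' ?_ hPr
    have := diffOn_evs ha hcr P (fun _ => 1)
    simpa only [one_mul] using this
  -- lower half plane to upper half plane through the left interval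
  have h2 : ∀ s ∈ DI Il, evs P s (fun l => ms l0 (Tk i Complex.I) l *
      PM a (Ml l) (zz g l s)) = 0 := by
    refine zero_of_lower hIl hIl' hIl'' (diffOn_evs ha hcl P _) fun s hs => ?_
    have h3 := h1 s (Or.inl hs.ne)
    rw [low s hs] at h3
    exact h3
  intro s hs
  have h3 := h2 s (Or.inl hs.ne')
  have h4 : (fun l => ms l0 (Tk i Complex.I) l *
      PM a (Ml l) (zz g l s)) = ms l0 (Tk i (2 * Complex.I)) * fun l => PM a (Mr l) (zz g l s) := by
    have h5 := upp s hs
    funext l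
    have h6 : PM a (Ml l) (zz g l s) = (ms l0 (Tk i Complex.I) * fun l => PM a (Mr l) (zz g l s)) l := congrFun h5 l
    rw [h6, ms_mul_apply, ms_mul_apply, ms_apply]
    by_cases hl : l = l0
    · rw [if_pos hl, if_pos hl, if_pos hl, ← mul_assoc, Tk_mul, two_mul]
    · rw [if_neg hl, if_neg hl, if_neg hl, one_mul]
  rw [h4, hP, evs_sbt] at h3
  have h5 : (fun l => Ci n (Mr l : ℕ)) * (ms l0 (Tk i (2 * Complex.I)) * fun l => PM a (Mr l) (zz g l s)) =
      ms l0 (Ci n (i : ℕ) * Tk i (2 * Complex.I) * Cm n (i : ℕ)) * fun l => PM a 0 (zz g l s) := by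
    funext l
    rw [Pi.mul_apply, ms_mul_apply, ms_mul_apply, PM_Cm ha (Mr l) (zz_im_neg hs l)]
    by_cases hl : l = l0
    · subst hl
      rw [if_pos rfl, if_pos rfl, hr0]
      simp only [Fin.val_castSucc, mul_assoc]
    · rw [if_neg hl, if_neg hl, ← mul_assoc, (Cm_Ci _).2, one_mul]
  rw [h5] at h3
  exact h3

end Pool.Agent.Y118.HG
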