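import Pool.Agent.Y118.HG.Mon

/-!
# Relations between the periods at the points `1 / (s - g l)`: invariance under the symplectic groups, II
-/

set_option autoImplicit false
set_option maxHeartbeats 400000

open Complex Set Filter Topology Matrix

namespace Pool.Agent.Y118.HG

open Pool.Agent.Y118.HP

variable {n N : ℕ} {a : Fin n → ℝ} {g : Fin N → ℝ}

theorem exists_gap (ha : StrictMono a) {t : ℝ} (ht : ∀ i, t ≠ a i) : ∃ m : Fin (n + 1), InGap a m t := by
  by_cases h : ∃ i, t < a i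
  · obtain ⟨i0, hi0, hmin⟩ := WellFounded.has_min (wellFounded_lt : WellFounded ((· < ·) : Fin n → Fin n → Prop))
      {i | t < a i} h
    refine ⟨i0.castSucc, fun i => ⟨fun hi => ?_, fun hi => ?_⟩⟩
    · have h1 : i < i0 := by simpa using hi
      have h2 : ¬ t < a i := fun h3 => hmin i h3 h1
      exact lt_of_le_of_ne (not_lt.1 h2) (ht i).symm
    · have h1 : i0 ≤ i := by simpa using hi
      exact lt_of_lt_of_le hi0 (ha.monotone h1)
  · push Not at h
    refine ⟨Fin.last n, fun i => ⟨fun _ => lt_of_le_of_ne (h i) (ht i).symm, fun hi => ?_⟩⟩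
    exfalso
    have h1 : (Fin.last n : ℕ) ≤ ((i.castSucc : Fin (n + 1)) : ℕ) := hi
    simp only [Fin.val_last, Fin.val_castSucc] at h1
    have := i.2
    omega

theorem isOpen_InGap (a : Fin n → ℝ) (m : Fin (n + 1)) : IsOpen {t | InGap a m t} := by
  have : {t | InGap a m t} = ⋂ i : Fin n, {t : ℝ | (i.castSucc < m → a i < t) ∧ (m ≤ i.castSucc → t < a i)} := by
    ext t; simp [InGap]
  rw [this]
  refine isOpen_iInter_of_finite fun i => ?_
  by_cases h : i.castSucc < m
  · have h' : ¬ m ≤ i.castSucc := not_le.2 h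
    simp only [h, h', true_imp_iff, false_imp_iff, and_true]
    exact isOpen_lt continuous_const continuous_id
  · have h' : m ≤ i.castSucc := not_lt.1 h
    simp only [h, h', true_imp_iff, false_imp_iff, true_and]
    exact isOpen_lt continuous_id continuous_const

theorem gap_right (ha : StrictMono a) (i : Fin n) : ∀ᶠ z in 𝓝[>] (a i), InGap a i.succ z := by
  have h1 : ∀ j, ∀ᶠ z in 𝓝[>] (a i), (j.castSucc < i.succ → a j < z) ∧ (i.succ ≤ j.castSucc → z < a j) := by
    intro j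
    rcases lt_trichotomy j i with h | h | h
    · filter_upwards [self_mem_nhdsWithin] with z hz
      refine ⟨fun _ => (ha h).trans hz, fun h2 => ?_⟩
      exfalso
      have h3 : ((i.succ : Fin (n + 1)) : ℕ) ≤ ((j.castSucc : Fin (n + 1)) : ℕ) := h2
      simp only [Fin.val_succ, Fin.val_castSucc] at h3
      have h4 : (j : ℕ) < i := h
      omega
    · subst h
      filter_upwards [self_mem_nhdsWithin] with z hz
      refine ⟨fun _ => hz, fun h2 => ?_⟩
      exfalso
      have h3 : ((j.succ : Fin (n + 1)) : ℕ) ≤ ((j.castSucc : Fin (n + 1)) : ℕ) := h2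
      simp only [Fin.val_succ, Fin.val_castSucc] at h3
      omega
    · have h5 : a i < a j := ha h
      filter_upwards [mem_nhdsWithin_of_mem_nhds (isOpen_Iio.mem_nhds h5)] with z hz
      refine ⟨fun h2 => ?_, fun _ => hz⟩
      exfalso
      have h3 : ((j.castSucc : Fin (n + 1)) : ℕ) < ((i.succ : Fin (n + 1)) : ℕ) := h2
      simp only [Fin.val_succ, Fin.val_castSucc] at h3
      have h4 : (i : ℕ) < j := h
      omega
  exact (eventually_all.2 h1).mono fun z hz i => hz i

theorem gap_left (ha : StrictMono a) (i : Fin n) : ∀ᶠ z in 𝓝[<] (a i), InGap a i.castSucc z := by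
  have h1 : ∀ j, ∀ᶠ z in 𝓝[<] (a i), (j.castSucc < i.castSucc → a j < z) ∧ (i.castSucc ≤ j.castSucc → z < a j) := by
    intro j
    rcases lt_trichotomy j i with h | h | h
    · have h5 : a j < a i := ha h
      filter_upwards [mem_nhdsWithin_of_mem_nhds (isOpen_Ioi.mem_nhds h5)] with z hz
      refine ⟨fun _ => hz, fun h2 => ?_⟩
      exfalso
      have h3 : ((i.castSucc : Fin (n + 1)) : ℕ) ≤ ((j.castSucc : Fin (n + 1)) : ℕ) := h2
      simp only [Fin.val_castSucc] at h3
      have h4 : (j : ℕ) < i := h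
      omega
    · subst h
      filter_upwards [self_mem_nhdsWithin] with z hz
      exact ⟨fun h2 => absurd h2 (lt_irrefl _), fun _ => hz⟩
    · filter_upwards [self_mem_nhdsWithin] with z hz
      refine ⟨fun h2 => ?_, fun _ => lt_trans hz (ha h)⟩
      exfalso
      have h3 : ((j.castSucc : Fin (n + 1)) : ℕ) < ((i.castSucc : Fin (n + 1)) : ℕ) := h2
      simp only [Fin.val_castSucc] at h3
      have h4 : (i : ℕ) < j := h
      omega
  exact (eventually_all.2 h1).mono fun z hz i => hz i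

theorem diff_formula {c r s : ℝ} (hc : c ≠ 0) (hs : s - r ≠ 0) :
    1 / (s - r) - c = (c * (s - r)) * ((r + 1 / c) - s) / (s - r) ^ 2 := by
  field_simp
  ring

theorem near_sign {c r : ℝ} (hc : c ≠ 0) : ∀ᶠ s in 𝓝 (r + 1 / c), 0 < c * (s - r) := by
  have h1 : ContinuousAt (fun s : ℝ => c * (s - r)) (r + 1 / c) := by fun_prop
  have h2 : c * ((r + 1 / c) - r) = 1 := by field_simp; ring
  have h3 : (0 : ℝ) < c * ((r + 1 / c) - r) := by rw [h2]; exact one_pos
  exact h1.eventually (isOpen_Ioi.mem_nhds h3)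

theorem tendsto_inv {c r : ℝ} (hc : c ≠ 0) : Tendsto (fun s : ℝ => 1 / (s - r)) (𝓝 (r + 1 / c)) (𝓝 c) := by
  have h1 : ContinuousAt (fun s : ℝ => 1 / (s - r)) (r + 1 / c) := by
    refine continuousAt_const.div (by fun_prop) ?_
    simp [hc]
  have h2 : 1 / ((r + 1 / c) - r) = c := by simp
  have h3 := h1.tendsto
  rwa [h2] at h3

theorem tendsto_left {c r : ℝ} (hc : c ≠ 0) :
    Tendsto (fun s : ℝ => 1 / (s - r)) (𝓝[<] (r + 1 / c)) (𝓝[>] c) := by
  refine tendsto_nhdsWithin_iff.2 ⟨(tendsto_inv hc).mono_left nhdsWithin_le_nhds, ?_⟩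
  filter_upwards [self_mem_nhdsWithin, mem_nhdsWithin_of_mem_nhds (near_sign (r := r) hc)] with s hs hs'
  have h0 : s - r ≠ 0 := right_ne_zero_of_mul (ne_of_gt hs')
  have h1 := diff_formula hc h0
  have h2 : 0 < (r + 1 / c) - s := sub_pos.2 hs
  have h3 : 0 < (c * (s - r)) * ((r + 1 / c) - s) / (s - r) ^ 2 := by
    have : 0 < (s - r) ^ 2 := by positivity
    have h4 : 0 < c * (s - r) := hs'
    positivity
  show c < 1 / (s - r)
  linarith

theorem tendsto_right {c r : ℝ} (hc : c ≠ 0) :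
    Tendsto (fun s : ℝ => 1 / (s - r)) (𝓝[>] (r + 1 / c)) (𝓝[<] c) := by
  refine tendsto_nhdsWithin_iff.2 ⟨(tendsto_inv hc).mono_left nhdsWithin_le_nhds, ?_⟩
  filter_upwards [self_mem_nhdsWithin, mem_nhdsWithin_of_mem_nhds (near_sign (r := r) hc)] with s hs hs'
  have h0 : s - r ≠ 0 := right_ne_zero_of_mul (ne_of_gt hs')
  have h1 := diff_formula hc h0
  have h2 : 0 < s - (r + 1 / c) := sub_pos.2 hs
  have h3 : 0 < (c * (s - r)) * (s - (r + 1 / c)) / (s - r) ^ 2 := by
    have : 0 < (s - r) ^ 2 := by positivity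
    have h4 : 0 < c * (s - r) := hs'
    positivity
  have h5 : (c * (s - r)) * ((r + 1 / c) - s) / (s - r) ^ 2 = -((c * (s - r)) * (s - (r + 1 / c)) / (s - r) ^ 2) := by
    ring
  show 1 / (s - r) < c
  linarith

/-- the hypothesis on the shifts -/
def Sep (a : Fin n → ℝ) (g : Fin N → ℝ) : Prop :=
  ∀ l l' : Fin N, l ≠ l' → ∀ i : Fin n, g l + 1 / a i ≠ g l' ∧ ∀ i' : Fin n, g l + 1 / a i ≠ g l' + 1 / a i'

theorem one_crossing (ha : StrictMono a) (ha0 : ∀ i, a i ≠ 0) (hsep : Sep a g) (l0 : Fin N) (i : Fin n) :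
    Ci n (i : ℕ) * Tk i (2 * Complex.I) * Cm n (i : ℕ) ∈ MonL a g l0 := by
  classical
  set σ := g l0 + 1 / a i with hσ
  -- positions of the other points
  have hex : ∀ l, l ≠ l0 → ∃ m : Fin (n + 1), InGap a m (1 / (σ - g l)) := by
    intro l hl
    refine exists_gap ha fun i' h => ?_
    obtain ⟨h1, h2⟩ := hsep l0 l (Ne.symm hl) i
    have h3 : σ - g l ≠ 0 := sub_ne_zero.2 h1
    apply h2 i'
    rw [← hσ, ← h]
    field_simp
    ring
  choose! M0 hM0 using hex
  have hother : ∀ l, l ≠ l0 → ∀ᶠ s in 𝓝 σ, s ≠ g l ∧ InGap a (M0 l) (1 / (s - g l)) := by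
    intro l hl
    have h1 : σ ≠ g l := (hsep l0 l (Ne.symm hl) i).1
    have h2 : ContinuousAt (fun s : ℝ => 1 / (s - g l)) σ :=
      continuousAt_const.div (by fun_prop) (sub_ne_zero.2 h1)
    have h3 := h2.eventually ((isOpen_InGap a (M0 l)).mem_nhds (hM0 l hl))
    filter_upwards [h3, isOpen_ne.mem_nhds h1] with s hs hs'
    exact ⟨hs', hs⟩
  have hleft : ∀ᶠ s in 𝓝[<] σ, ∀ l, s ≠ g l ∧ InGap a (Function.update M0 l0 i.succ l) (1 / (s - g l)) := by
    refine eventually_all.2 fun l => ?_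
    by_cases hl : l = l0
    · subst hl
      rw [Function.update_self]
      have h1 := (tendsto_left (r := g l) (ha0 i)).eventually (gap_right ha i)
      have h2 := near_sign (r := g l) (ha0 i)
      filter_upwards [h1, mem_nhdsWithin_of_mem_nhds h2] with s hs hs'
      exact ⟨sub_ne_zero.1 (right_ne_zero_of_mul (ne_of_gt hs')), hs⟩
    · rw [Function.update_of_ne hl]
      exact mem_nhdsWithin_of_mem_nhds (hother l hl)
  have hright : ∀ᶠ s in 𝓝[>] σ, ∀ l, s ≠ g l ∧ InGap a (Function.update M0 l0 i.castSucc l) (1 / (s - g l)) := by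
    refine eventually_all.2 fun l => ?_
    by_cases hl : l = l0
    · subst hl
      rw [Function.update_self]
      have h1 := (tendsto_right (r := g l) (ha0 i)).eventually (gap_left ha i)
      have h2 := near_sign (r := g l) (ha0 i)
      filter_upwards [h1, mem_nhdsWithin_of_mem_nhds h2] with s hs hs'
      exact ⟨sub_ne_zero.1 (right_ne_zero_of_mul (ne_of_gt hs')), hs⟩
    · rw [Function.update_of_ne hl]
      exact mem_nhdsWithin_of_mem_nhds (hother l hl)
  obtain ⟨u, hu, hu'⟩ := mem_nhdsLT_iff_exists_Ioo_subset.1 hleft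
  obtain ⟨v, hv, hv'⟩ := mem_nhdsGT_iff_exists_Ioo_subset.1 hright
  exact crossing ha l0 i M0 isOpen_Ioo (convex_Ioo u σ) (nonempty_Ioo.2 hu) isOpen_Ioo (convex_Ioo σ v)
    (nonempty_Ioo.2 hv) (fun s hs => hu' hs) (fun s hs => hv' hs)

theorem Cm_mem {S : Submonoid (Matrix (Fin n) (Fin n) ℂ)} (k : ℕ)
    (h : ∀ j, ∀ hj : j < n, j < k → ∀ s : ℂ, Tk ⟨j, hj⟩ s ∈ S) : Cm n k ∈ S ∧ Ci n k ∈ S := by
  induction k with
  | zero => exact ⟨by rw [Cm]; exact one_mem _, by rw [Ci]; exact one_mem _⟩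
  | succ k ih =>
    obtain ⟨h1, h2⟩ := ih fun j hj hjk => h j hj (by omega)
    rw [Cm, Ci]
    split_ifs with hk
    · exact ⟨mul_mem (h k hk (by omega) _) h1, mul_mem h2 (h k hk (by omega) _)⟩
    · exact ⟨h1, h2⟩

theorem Tk_MonL (ha : StrictMono a) (ha0 : ∀ i, a i ≠ 0) (hsep : Sep a g) (l0 : Fin N) (k : ℕ) :
    ∀ hk : k < n, ∀ s : ℂ, Tk ⟨k, hk⟩ s ∈ MonL a g l0 := by
  induction k using Nat.strong_induction_on with
  | _ k ih =>
    intro hk s
    obtain ⟨h1, h2⟩ := Cm_mem (S := MonL a g l0) k fun j hj hjk => ih j hjk hj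
    have h3 := one_crossing ha ha0 hsep l0 ⟨k, hk⟩
    have h4 : Tk (⟨k, hk⟩ : Fin n) (2 * Complex.I) ∈ MonL a g l0 := by
      have h5 := mul_mem (mul_mem h1 h3) h2
      have h6 : Cm n k * (Ci n k * Tk (⟨k, hk⟩ : Fin n) (2 * Complex.I) * Cm n k) * Ci n k =
          Tk (⟨k, hk⟩ : Fin n) (2 * Complex.I) := by
        calc Cm n k * (Ci n k * Tk (⟨k, hk⟩ : Fin n) (2 * Complex.I) * Cm n k) * Ci n k =
            (Cm n k * Ci n k) * Tk (⟨k, hk⟩ : Fin n) (2 * Complex.I) * (Cm n k * Ci n k) := by simp only [mul_assoc]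
          _ = _ := by rw [(Cm_Ci k).1, one_mul, mul_one]
      rwa [h6] at h5
    exact Tk_all (pf_MonL l0) (by simp) h4 s

theorem sp_MonL (hn : Even n) (ha : StrictMono a) (ha0 : ∀ i, a i ≠ 0) (hsep : Sep a g) (l0 : Fin N)
    {h : Matrix (Fin n) (Fin n) ℂ} (hh : h ∈ SpS ℂ n) : h ∈ MonL a g l0 :=
  sp_mem_of hn (pf_MonL l0) (fun k s => Tk_MonL ha ha0 hsep l0 k k.2 s) hh

/-- tuples of matrices, all in the monoids `MonL` -/
theorem mem_MonS {H : Fin N → Matrix (Fin n) (Fin n) ℂ} (hH : ∀ l, H l ∈ MonL a g l) : H ∈ MonS a g := by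
  classical
  have key : ∀ A : Finset (Fin N), (fun l => if l ∈ A then H l else 1) ∈ MonS a g := by
    intro A
    induction A using Finset.induction_on with
    | empty =>
      have : (fun l => if l ∈ (∅ : Finset (Fin N)) then H l else 1) = (1 : Fin N → Matrix (Fin n) (Fin n) ℂ) := by
        funext l; simp
      rw [this]
      exact one_mem _
    | insert l0 A hl0 ih =>
      have : (fun l => if l ∈ insert l0 A then H l else 1) = ms l0 (H l0) * fun l => if l ∈ A then H l else 1 := by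
        funext l
        rw [ms_mul_apply]
        by_cases hl : l = l0
        · subst hl
          rw [if_pos (Finset.mem_insert_self _ _), if_pos rfl, if_neg hl0, mul_one]
        · rw [if_neg hl]
          simp [Finset.mem_insert, hl]
      rw [this]
      exact mul_mem (hH l0) ih
  have := key Finset.univ
  simpa using this

/-- a relation between the periods at the points `1 / (s - g l)` is invariant under the symplectic groups -/
theorem func_inv_sh (hn : Even n) (ha : StrictMono a) (ha0 : ∀ i, a i ≠ 0) (hsep : Sep a g) (m0 : Fin (n + 1))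
    (P : MvPolynomial (Option (Fin N × Fin n × Fin n)) ℂ) {s0 : ℝ} (hc : Comp a g (fun _ => m0) (Ioi s0))
    (hP : ∀ s : ℝ, s0 < s → evs P s (fun l => PM a m0 (zz g l s)) = 0)
    (H : Fin N → Matrix (Fin n) (Fin n) ℂ) (hH : ∀ l, H l ∈ SpS ℂ n) :
    ∀ s : ℝ, s0 < s → evs P s (fun l => H l * PM a m0 (zz g l s)) = 0 := by
  have hne : (Ioi s0).Nonempty := ⟨s0 + 1, by simp⟩
  have h1 : P ∈ IdM a g (fun _ => m0) := by
    intro s hs
    refine zero_of_real (f := fun s => evs P s (fun l => PM a m0 (zz g l s))) isOpen_Ioi (convex_Ioi s0) hne ?_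
      (fun s hs => hP s hs) s (Or.inl hs.ne')
    have := diffOn_evs ha hc P (fun _ => 1)
    simpa only [one_mul] using this
  have h2 := mem_IdM_of ha h1
  set D : Fin N → Matrix (Fin n) (Fin n) ℂ := fun l => Ci n (m0 : ℕ) * H l * Cm n (m0 : ℕ) with hD
  have hDm : D ∈ MonS a g := by
    refine mem_MonS fun l => ?_
    obtain ⟨h3, h4⟩ := Cm_mem (S := MonL a g l) (m0 : ℕ) fun j hj _ s => Tk_MonL ha ha0 hsep l j hj s
    exact mul_mem (mul_mem h4 (sp_MonL hn ha ha0 hsep l (hH l))) h3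
  have h3 := hDm _ h2
  have h4 : ∀ s : ℂ, 0 < s.im → evs P s (fun l => H l * PM a m0 (zz g l s)) = 0 := by
    intro s hs
    have h5 := h3 s hs
    rw [evs_sbt, evs_sbt] at h5
    have h6 : (fun l : Fin N => Cm n (((fun _ => m0) : Fin N → Fin (n + 1)) l : ℕ)) * (D * fun l => PM a 0 (zz g l s)) =
        fun l => H l * PM a m0 (zz g l s) := by
      funext l
      rw [Pi.mul_apply, Pi.mul_apply, hD, PM_Cm ha m0 (zz_im_neg hs l)]
      simp only
      calc Cm n (m0 : ℕ) * (Ci n (m0 : ℕ) * H l * Cm n (m0 : ℕ) * PM a 0 (zz g l s)) =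
          (Cm n (m0 : ℕ) * Ci n (m0 : ℕ)) * (H l * (Cm n (m0 : ℕ) * PM a 0 (zz g l s))) := by simp only [mul_assoc]
        _ = _ := by rw [(Cm_Ci _).1, one_mul]
    rw [h6] at h5
    exact h5
  intro s hs
  exact zero_of_upper isOpen_Ioi (convex_Ioi s0) hne (diffOn_evs ha hc P H) h4 s (Or.inr (by simpa using hs))

end Pool.Agent.Y118.HG
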