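import Pool.Agent.Y118.HG.Cle
import Pool.Agent.Y118.HG.Gi
import Pool.Agent.Y118.HG.Awt

/-!
# The Cayley coordinates of the values have no relations of bounded degree
-/

set_option autoImplicit false
set_option maxHeartbeats 400000

open Matrix Polynomial Filter Topology

namespace Pool.Agent.Y118.HG

open Pool.Agent.Y118.HP Pool.Agent.Y113 Pool.Agent.Y37.GF

variable {n N : ℕ}

theorem Ez_zero {a : Fin n → ℝ} {m : Fin (n + 1)} {f : ℚ[X]} (Δ : ZDat n a m f) (hdet : IsUnit (RM a m 0).det) :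
    Ez Δ.Z 0 = 1 := by
  have h1 := Δ.val.self_of_nhds
  have h2 : (RM a m 0)⁻¹ * RM a m 0 = 1 := nonsing_inv_mul _ hdet
  have hVU : Δ.V.map (aeval (0 : ℝ)) * Δ.U.map (aeval (0 : ℝ)) = 1 := by rw [← map_aeval_mul, Δ.VU, map_aeval_one]
  have hUV : Δ.U.map (aeval (0 : ℝ)) * Δ.V.map (aeval (0 : ℝ)) = 1 := by rw [← map_aeval_mul, Δ.UV, map_aeval_one]
  calc Ez Δ.Z 0 = (Δ.U.map (aeval (0 : ℝ)) * Δ.V.map (aeval (0 : ℝ))) * Ez Δ.Z 0 *
        (Δ.U.map (aeval (0 : ℝ)) * Δ.V.map (aeval (0 : ℝ))) := by rw [hUV, one_mul, mul_one]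
    _ = Δ.U.map (aeval (0 : ℝ)) * ((RM a m 0)⁻¹ * RM a m 0) * Δ.V.map (aeval (0 : ℝ)) * Ez Δ.Z 0 *
        (Δ.U.map (aeval (0 : ℝ)) * Δ.V.map (aeval (0 : ℝ))) := by rw [h2, mul_one]
    _ = Δ.U.map (aeval (0 : ℝ)) * (RM a m 0)⁻¹ * (RM a m 0 * Δ.V.map (aeval (0 : ℝ)) * Ez Δ.Z 0 *
        Δ.U.map (aeval (0 : ℝ))) * Δ.V.map (aeval (0 : ℝ)) := by simp only [Matrix.mul_assoc]
    _ = Δ.U.map (aeval (0 : ℝ)) * ((RM a m 0)⁻¹ * RM a m 0) * Δ.V.map (aeval (0 : ℝ)) := by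
        rw [← h1]; simp only [Matrix.mul_assoc]
    _ = 1 := by rw [h2, mul_one, hUV]

theorem RM_det {a : Fin n → ℝ} (hn : Even n) (ha : StrictMono a) {m : Fin (n + 1)} {f : ℚ[X]}
    (hf : f.map (algebraMap ℚ ℝ) = ∏ i, (X - C (a i))) {z : ℝ} (hz : InGap a m z) : IsUnit (RM a m z).det := by
  rw [isUnit_iff_ne_zero]
  intro h2
  have := congrArg Matrix.det (RM_leg hn ha hf hz)
  rw [Matrix.det_mul, Matrix.det_mul, h2, zero_mul, zero_mul, Matrix.det_smul] at this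
  exact mul_ne_zero (pow_ne_zero _ Real.pi_ne_zero) (jm_det hn) this.symm

/-- the values are symplectic -/
theorem Ez_mem (hn : Even n) {a : Fin n → ℝ} (ha : StrictMono a) {m : Fin (n + 1)} {f : ℚ[X]}
    (h0 : InGap a m 0) (hf : f.map (algebraMap ℚ ℝ) = ∏ i, (X - C (a i))) (Δ : ZDat n a m f) :
    ∀ᶠ z in 𝓝 (0 : ℝ), Ez Δ.Z z ∈ SpS ℝ n := by
  have hgap : ∀ᶠ z in 𝓝 (0 : ℝ), InGap a m z := (isOpen_InGap a m).mem_nhds h0
  set M0 : Matrix (Fin n) (Fin n) ℝ := RM a m 0 * Δ.V.map (aeval (0 : ℝ)) with hM0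
  have hM0J : M0 * jm ℝ n * M0.transpose = Real.pi • jm ℝ n := by
    have h1 := RM_leg hn ha hf h0
    rw [Qp_aeval Δ.VJ] at h1
    rw [hM0, Matrix.transpose_mul, ← h1]
    simp only [Matrix.mul_assoc]
  filter_upwards [hgap, Δ.val] with z hz hv
  refine SpS_of_eq hn Real.pi_ne_zero hM0J ?_
  have h1 := RM_leg hn ha hf hz
  rw [Qp_aeval Δ.VJ, hv, ← hM0] at h1
  have hUVz : Δ.U.map (aeval z) * Δ.V.map (aeval z) = 1 := by rw [← map_aeval_mul, Δ.UV, map_aeval_one]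
  have h2 : M0 * Ez Δ.Z z * Δ.U.map (aeval z) * Δ.V.map (aeval z) = M0 * Ez Δ.Z z := by
    rw [Matrix.mul_assoc, hUVz, mul_one]
  have h3 : (M0 * Ez Δ.Z z * Δ.U.map (aeval z) * Δ.V.map (aeval z)) * jm ℝ n *
      (M0 * Ez Δ.Z z * Δ.U.map (aeval z) * Δ.V.map (aeval z)).transpose = Real.pi • jm ℝ n := by
    rw [← h1]
    simp only [Matrix.transpose_mul, Matrix.mul_assoc]
  rw [h2] at h3
  exact h3

/-- the values are in the Cayley chart -/
theorem Ez_cd (hn : Even n) {a : Fin n → ℝ} (ha : StrictMono a) {m : Fin (n + 1)} {f : ℚ[X]}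
    (h0 : InGap a m 0) (hf : f.map (algebraMap ℚ ℝ) = ∏ i, (X - C (a i))) (Δ : ZDat n a m f) :
    ∀ᶠ z in 𝓝 (0 : ℝ), cd ((Ez Δ.Z z).map (algebraMap ℝ ℂ)) ≠ 0 := by
  obtain ⟨ρ, hρ, hZ'⟩ := SDc_SR' (fun p : Fin n × Fin n => Δ.Z p.1 p.2) fun p => Δ.sdZ p.1 p.2
  have hc : ContinuousAt (fun z : ℝ => Ez Δ.Z z + 1) 0 := by
    refine ContinuousAt.add ?_ continuousAt_const
    refine continuousAt_pi.2 fun i => continuousAt_pi.2 fun j => ?_
    have h1 : HasDerivAt (E (Δ.Z i j)) (E (PowerSeries.derivative ℚ (Δ.Z i j)) 0) 0 :=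
      hasDerivAt_E (hZ' (i, j)) (by simpa using hρ)
    exact h1.continuousAt
  have hd : ContinuousAt (fun z : ℝ => (Ez Δ.Z z + 1).det) 0 :=
    (continuous_id.matrix_det).continuousAt.comp hc
  have h1 : (Ez Δ.Z 0 + 1).det ≠ 0 := by
    rw [Ez_zero Δ (RM_det hn ha hf h0)]
    have : (1 : Matrix (Fin n) (Fin n) ℝ) + 1 = (2 : ℝ) • 1 := by rw [two_smul]
    rw [this, Matrix.det_smul, Matrix.det_one, mul_one]
    exact pow_ne_zero _ two_ne_zero
  filter_upwards [hd.eventually_ne h1] with z hz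
  have h2 := cd_map (algebraMap ℝ ℂ) (Ez Δ.Z z)
  rw [← h2]
  exact (map_ne_zero (algebraMap ℝ ℂ)).2 hz

/-- small arguments -/
theorem small_arg (G : ℕ) {ε : ℝ} (hε : 0 < ε) : ∃ E : ℕ, ∀ H t : ℕ, (H + 2) ^ E ≤ t → ∀ g ≤ H,
    ((G * g : ℕ) : ℝ) < t ∧ |1 / ((t : ℝ) - (G * g : ℕ))| < ε := by
  obtain ⟨e, he⟩ := pow_unbounded_of_one_lt (1 / ε) (show (1 : ℝ) < 2 by norm_num)
  refine ⟨G + 1 + e, fun H t ht g hg => ?_⟩
  have h1 : (G * H + 2) * 2 ^ e ≤ t := by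
    refine le_trans ?_ ht
    rw [pow_add]
    refine Nat.mul_le_mul ?_ (Nat.pow_le_pow_left (by omega) _)
    have h2 : G + 1 ≤ 2 ^ G := Nat.lt_two_pow_self
    have h3 : 2 ^ G ≤ (H + 2) ^ G := Nat.pow_le_pow_left (by omega) _
    rw [pow_succ]
    nlinarith
  have h2 : G * g ≤ G * H := Nat.mul_le_mul_left _ hg
  have h3 : G * H + 2 * 2 ^ e ≤ t := by
    have h9 : G * H ≤ G * H * 2 ^ e := Nat.le_mul_of_pos_right _ (by positivity)
    have h10 : (G * H + 2) * 2 ^ e = G * H * 2 ^ e + 2 * 2 ^ e := by ring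
    omega
  have h4 : ((G * g : ℕ) : ℝ) + 2 * 2 ^ e ≤ t := by
    have : G * g + 2 * 2 ^ e ≤ t := by omega
    exact_mod_cast this
  have h5 : (0 : ℝ) < 2 ^ e := by positivity
  have h6 : (0 : ℝ) < (t : ℝ) - (G * g : ℕ) := by linarith
  refine ⟨by linarith, ?_⟩
  rw [abs_of_pos (by positivity), div_lt_iff₀ h6]
  have h7 : 1 / ε * ε = 1 := by field_simp
  have h8 : 1 < 2 ^ e * ε := by rw [← h7]; exact mul_lt_mul_of_pos_right he hε
  nlinarith

/-- the generic matrices -/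
noncomputable def Xg (N n : ℕ) (l : Fin N) : Matrix (Fin n) (Fin n) (MvPolynomial (Fin N × Fin n × Fin n) ℚ) :=
  Matrix.of fun i j => MvPolynomial.X (l, i, j)

theorem Xg_map (S : Fin N → Matrix (Fin n) (Fin n) ℂ) (l : Fin N) :
    (Xg N n l).map ((MvPolynomial.aeval (px S) : MvPolynomial (Fin N × Fin n × Fin n) ℚ →ₐ[ℚ] ℂ) :
      MvPolynomial (Fin N × Fin n × Fin n) ℚ →+* ℂ) = S l := by
  ext i j
  simp [Xg, px]

/-- numerators of all the coordinates -/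
noncomputable def nums (N n : ℕ) (x : Fin N × Sy n) : MvPolynomial (Fin N × Fin n × Fin n) ℚ :=
  cn (Xg N n x.1) x.2 * ∏ l ∈ Finset.univ.erase x.1, cd (Xg N n l)

/-- the common denominator -/
noncomputable def dens (N n : ℕ) : MvPolynomial (Fin N × Fin n × Fin n) ℚ := ∏ l, cd (Xg N n l)

theorem cd_val (S : Fin N → Matrix (Fin n) (Fin n) ℂ) (l : Fin N) :
    MvPolynomial.aeval (px S) (cd (Xg N n l)) = cd (S l) := by
  have h := cd_map ((MvPolynomial.aeval (px S) : MvPolynomial (Fin N × Fin n × Fin n) ℚ →ₐ[ℚ] ℂ) :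
      MvPolynomial (Fin N × Fin n × Fin n) ℚ →+* ℂ) (Xg N n l)
  rw [Xg_map] at h
  exact h

theorem cn_val (S : Fin N → Matrix (Fin n) (Fin n) ℂ) (l : Fin N) (p : Sy n) :
    MvPolynomial.aeval (px S) (cn (Xg N n l) p) = cn (S l) p := by
  have h := cn_map ((MvPolynomial.aeval (px S) : MvPolynomial (Fin N × Fin n × Fin n) ℚ →ₐ[ℚ] ℂ) :
      MvPolynomial (Fin N × Fin n × Fin n) ℚ →+* ℂ) (Xg N n l) p
  rw [Xg_map] at h
  exact h

theorem dens_val (S : Fin N → Matrix (Fin n) (Fin n) ℂ) :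
    MvPolynomial.aeval (px S) (dens N n) = ∏ l, cd (S l) := by
  unfold dens
  rw [map_prod]
  exact Finset.prod_congr rfl fun l _ => cd_val S l

theorem nums_val {S : Fin N → Matrix (Fin n) (Fin n) ℂ} (hS : ∀ l, cd (S l) ≠ 0) (x : Fin N × Sy n) :
    MvPolynomial.aeval (px S) (nums N n x) = MvPolynomial.aeval (px S) (dens N n) * co (S x.1) x.2 := by
  unfold nums
  rw [dens_val, map_mul, map_prod, cn_val, cn_eq (hS x.1), ← Finset.mul_prod_erase Finset.univ (fun l => cd (S l))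
    (Finset.mem_univ x.1)]
  simp only [cd_val]
  ring

/-- a polynomial which vanishes on the Cayley chart is zero -/
theorem chart_zero (P : MvPolynomial (Fin N × Sy n) ℂ)
    (h : ∀ y : Fin N × Sy n → ℂ, (∀ l, De (fun p => y (l, p)) ≠ 0) → MvPolynomial.aeval y P = 0) : P = 0 := by
  set D : MvPolynomial (Fin N × Sy n) ℂ := ∏ l, De fun p => MvPolynomial.X (l, p) with hD
  have hDe : ∀ y : Fin N × Sy n → ℂ, MvPolynomial.eval y D = ∏ l, De (fun p => y (l, p)) := by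
    intro y
    rw [hD, map_prod]
    refine Finset.prod_congr rfl fun l _ => ?_
    rw [De_map]
    simp
  have hD0 : D ≠ 0 := by
    intro h0
    have h1 := hDe 0
    rw [h0, map_zero] at h1
    refine Finset.prod_ne_zero_iff.2 (fun l _ => ?_) h1.symm
    unfold De Bm
    have h2 : Ym (fun p : Sy n => (0 : Fin N × Sy n → ℂ) (l, p)) = 0 := by
      ext i j
      unfold Ym
      rw [Matrix.of_apply]
      split_ifs <;> rfl
    rw [h2, zero_mul, sub_zero, Matrix.det_one]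
    exact one_ne_zero
  have hPD : P * D = 0 := by
    refine MvPolynomial.funext fun y => ?_
    rw [map_mul, map_zero, mul_eq_zero]
    by_cases hy : MvPolynomial.eval y D = 0
    · exact Or.inr hy
    · left
      rw [hDe] at hy
      have := h y fun l => Finset.prod_ne_zero_iff.1 hy l (Finset.mem_univ l)
      rwa [MvPolynomial.aeval_eq_eval] at this
  exact (mul_eq_zero.1 hPD).resolve_right hD0

/-- the coordinates of the values -/
noncomputable def vl {a : Fin n → ℝ} {m : Fin (n + 1)} {f : ℚ[X]} (Δ : ZDat n a m f) (G : ℕ) (t g : ℕ) (s : Sy n) : ℂ :=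
  co ((Ez Δ.Z (1 / ((t : ℝ) - (G * g : ℕ)))).map (algebraMap ℝ ℂ)) s

/-- no relations of bounded degree between the coordinates of the values -/
theorem inp (hn : Even n) {a : Fin n → ℝ} (ha : StrictMono a) (ha0 : ∀ i, a i ≠ 0) {m : Fin (n + 1)} {f : ℚ[X]}
    (h0 : InGap a m 0) (hf : f.map (algebraMap ℚ ℝ) = ∏ i, (X - C (a i))) (hf0 : f.coeff 0 ≠ 0) (Δ : ZDat n a m f)
    {G0 : ℕ} (hG0 : 0 < G0) (hsep : ∀ {r : ℕ} (g : Fin r → ℕ), SepN G0 g → Sep a (fun l => (g l : ℝ)))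
    {G : ℕ} (hG : G0 ≤ G) : Pool.Agent.Y916.AW.Inp (vl Δ G) := by
  classical
  intro N Δ0
  obtain ⟨B, hB1, hB2⟩ := exists_deg (nums N n) (dens N n)
  obtain ⟨κ, hfin, k0, b, w, hb0, hbD, hw, hb⟩ := exists_basis1 hn (Δ0 * B)
  obtain ⟨E1, hE1⟩ := li_val hn ha ha0 h0 hf hf0 Δ hsep (Δ0 * B) k0 b w hb0 hbD hw hb N
  obtain ⟨ε, hε, hball⟩ := Metric.eventually_nhds_iff.1 ((Ez_mem hn ha h0 hf Δ).and (Ez_cd hn ha h0 hf Δ))
  obtain ⟨E2, hE2⟩ := small_arg G hε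
  refine ⟨(G + 1) * E1 + E2, fun H t ht g hginj hgH P hP hPv => ?_⟩
  have hH2 : 1 ≤ H + 2 := by omega
  have ht1 : (G * H + 2) ^ E1 ≤ t := by
    refine le_trans ?_ ((Nat.pow_le_pow_right hH2 (Nat.le_add_right _ _)).trans ht)
    rw [pow_mul]
    refine Nat.pow_le_pow_left ?_ _
    have h2 : G + 1 ≤ 2 ^ G := Nat.lt_two_pow_self
    have h3 : 2 ^ G ≤ (H + 2) ^ G := Nat.pow_le_pow_left (by omega) _
    rw [pow_succ]
    nlinarith
  have ht2 : (H + 2) ^ E2 ≤ t := (Nat.pow_le_pow_right hH2 (Nat.le_add_left _ _)).trans ht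
  obtain ⟨-, hLI⟩ := hE1 (G * H) t ht1
  have hLI := hLI (fun l => G * g l) (by
    intro l l' hll
    have h1 : g l ≠ g l' := fun h => hll (hginj h)
    push_cast
    rw [← mul_sub, abs_mul]
    have h2 : (1 : ℤ) ≤ |(g l : ℤ) - g l'| := Int.one_le_abs (sub_ne_zero.2 (by exact_mod_cast h1))
    have h3 : |(G : ℤ)| = G := abs_of_nonneg (by positivity)
    rw [h3]
    have h4 : (G0 : ℤ) ≤ G := by exact_mod_cast hG
    nlinarith) (fun l => Nat.mul_le_mul_left _ (hgH l).2)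
  have hgood : ∀ l, Ez Δ.Z (1 / ((t : ℝ) - (G * g l : ℕ))) ∈ SpS ℝ n ∧
      cd ((Ez Δ.Z (1 / ((t : ℝ) - (G * g l : ℕ)))).map (algebraMap ℝ ℂ)) ≠ 0 := fun l =>
    hball (by rw [dist_zero_right]; exact (hE2 H t ht2 (g l) (hgH l).2).2)
  set Zc : Fin N → Matrix (Fin n) (Fin n) ℂ := fun l =>
    (Ez Δ.Z (1 / ((t : ℝ) - (G * g l : ℕ)))).map (algebraMap ℝ ℂ) with hZc
  set Q := cle Δ0 P (nums N n) (dens N n) with hQ
  have hQv : ∀ S : Fin N → Matrix (Fin n) (Fin n) ℂ, (∀ l, cd (S l) ≠ 0) →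
      MvPolynomial.aeval (px S) Q = (∏ l, cd (S l)) ^ Δ0 * MvPolynomial.aeval (fun x : Fin N × Sy n => co (S x.1) x.2) P := by
    intro S hS
    rw [hQ, cle_val hP (nums N n) (dens N n) (px S) (fun x : Fin N × Sy n => co (S x.1) x.2)
      (fun x => nums_val hS x), dens_val]
  have hQC : DC (Δ0 * B) (1 : Submodule ℚ ℂ) (Q.map (algebraMap ℚ ℂ)) := by
    refine ⟨(totalDegree_map_le _ Q).trans (cle_deg hP hB1 hB2), fun s => ?_⟩
    rw [MvPolynomial.coeff_map, Submodule.mem_one]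
    exact ⟨Q.coeff s, rfl⟩
  have hQm : ∀ S : Fin N → Matrix (Fin n) (Fin n) ℂ, MvPolynomial.aeval (px S) (Q.map (algebraMap ℚ ℂ)) =
      MvPolynomial.aeval (px S) Q := fun S => MvPolynomial.aeval_map_algebraMap ℂ (px S) Q
  obtain ⟨c, hc, hexp⟩ := expand hw hQC
  choose q hq using fun e => Submodule.mem_one.1 (hc e)
  have hZsp : ∀ l, Zc l ∈ SpS ℂ n := fun l => SpS_map _ (hgood l).1
  have h1 := hexp Zc hZsp
  rw [hQm, hQv Zc fun l => (hgood l).2] at h1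
  have h2 : MvPolynomial.aeval (fun x : Fin N × Sy n => co (Zc x.1) x.2) P = 0 := hPv
  rw [h2, mul_zero] at h1
  have hq0 : ∀ e, q e = 0 := by
    rw [Fintype.linearIndependent_iff] at hLI
    refine hLI q ?_
    have h3 : algebraMap ℝ ℂ (∑ e, q e • ∏ i, mnm (Ez Δ.Z (1 / ((t : ℝ) - (G * g i : ℕ)))) (b (e i))) = 0 := by
      rw [map_sum, h1]
      refine Finset.sum_congr rfl fun e _ => ?_
      rw [Algebra.smul_def, map_mul, map_prod, ← hq e]
      congr 1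
      refine Finset.prod_congr rfl fun l _ => ?_
      rw [hZc]
      simp only
      rw [mnm_map]
    exact (map_eq_zero_iff _ (algebraMap ℝ ℂ).injective).1 h3
  have hvan : ∀ S : Fin N → Matrix (Fin n) (Fin n) ℂ, (∀ l, S l ∈ SpS ℂ n) → MvPolynomial.aeval (px S) Q = 0 := by
    intro S hS
    rw [← hQm, hexp S hS]
    refine Finset.sum_eq_zero fun e _ => ?_
    rw [← hq e, hq0 e, map_zero, zero_mul]
  have hPC : P.map (algebraMap ℚ ℂ) = 0 := by
    refine chart_zero _ fun y hy => ?_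
    rw [MvPolynomial.aeval_map_algebraMap]
    have h3 := fun l => co_Cay hn (hy l)
    have h4 := hQv (fun l => Cay fun p => y (l, p)) fun l => (h3 l).1
    rw [hvan _ fun l => Cay_mem hn (hy l)] at h4
    have h5 : (fun x : Fin N × Sy n => co (Cay fun p => y (x.1, p)) x.2) = y := by
      funext x
      rw [(h3 x.1).2]
    rw [h5] at h4
    exact (mul_eq_zero.1 h4.symm).resolve_left
      (pow_ne_zero _ (Finset.prod_ne_zero_iff.2 fun l _ => (h3 l).1))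
  exact (MvPolynomial.map_injective _ (algebraMap ℚ ℂ).injective) (by rw [hPC, map_zero])

end Pool.Agent.Y118.HG
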