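import Pool.Agent.Y118.HP.Alg3

/-!
# Unimodular trivialisation of the polarisation over the ring of polynomials
-/

set_option autoImplicit false
set_option maxHeartbeats 400000

open Matrix Polynomial

namespace Pool.Agent.Y118.HG

open Pool.Agent.Y118.HP

variable {n : ℕ}

/-- the strictly lower part -/
noncomputable def Lo (n : ℕ) (f : ℚ[X]) (i j : Fin n) : ℚ[X] := if j < i then Qp n f i j else 0

theorem Qp_zero {f : ℚ[X]} (hf : f.natDegree = n) {i j : Fin n} (h : n < (i : ℕ) + j + 1) : Qp n f i j = 0 := by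
  unfold Qp
  rw [Matrix.of_apply, coeff_eq_zero_of_natDegree_lt (by omega), coeff_eq_zero_of_natDegree_lt (by omega)]
  simp

theorem Lo_big {f : ℚ[X]} (hf : f.natDegree = n) {i j : Fin n} (h : n ≤ 2 * (j : ℕ)) : Lo n f i j = 0 := by
  unfold Lo
  split_ifs with h1
  · refine Qp_zero hf ?_
    have : (j : ℕ) < i := h1
    omega
  · rfl

theorem Qp_eq_Lo (f : ℚ[X]) (i j : Fin n) : Qp n f i j = Lo n f i j - Lo n f j i := by
  unfold Lo
  have hT : Qp n f j i = - Qp n f i j := by
    have := congrFun (congrFun (Qp_transpose f (n := n)) i) j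
    simpa using this
  rcases lt_trichotomy i j with h | h | h
  · rw [if_neg (by omega), if_pos h, hT]; ring
  · subst h
    rw [if_neg (lt_irrefl _), Qp_diag]; ring
  · rw [if_pos h, if_neg (by omega)]; ring

/-- the columns: `e_p` for `2 p < n`, the columns of the lower part in reverse order for the others -/
noncomputable def V1 (n : ℕ) (f : ℚ[X]) : Matrix (Fin n) (Fin n) ℚ[X] :=
  Matrix.of fun i p => if 2 * (p : ℕ) < n then (if i = p then 1 else 0) else Lo n f i p.rev

/-- the antidiagonal matrix -/
def K1 (K : Type*) [Ring K] (n : ℕ) : Matrix (Fin n) (Fin n) K :=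
  Matrix.of fun p c => if p = c.rev then (if 2 * (c : ℕ) < n then 1 else -1) else 0

theorem V1_K1 (hn : Even n) {f : ℚ[X]} (hf : f.natDegree = n) :
    V1 n f * K1 ℚ[X] n * (V1 n f).transpose = Qp n f := by
  obtain ⟨g, hg⟩ := hn
  have h1 : ∀ i c, (V1 n f * K1 ℚ[X] n) i c = V1 n f i c.rev * (if 2 * (c : ℕ) < n then 1 else -1) := by
    intro i c
    rw [Matrix.mul_apply]
    unfold K1
    simp only [Matrix.of_apply, mul_ite, mul_zero]
    rw [Finset.sum_ite_eq' Finset.univ c.rev]
    simp
  ext1 i j
  rw [Matrix.mul_apply]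
  simp only [h1, Matrix.transpose_apply]
  have h2 : ∀ c : Fin n, V1 n f i c.rev * (if 2 * (c : ℕ) < n then 1 else -1) * V1 n f j c =
      (if j = c then Lo n f i j else 0) - (if i.rev = c then Lo n f j i else 0) := by
    intro c
    have hc := c.2
    have hrev : ((c.rev : Fin n) : ℕ) = n - (c + 1) := Fin.val_rev c
    unfold V1
    simp only [Matrix.of_apply, Fin.rev_rev]
    by_cases h : 2 * (c : ℕ) < n
    · have h3 : ¬ 2 * ((c.rev : Fin n) : ℕ) < n := by omega
      rw [if_neg h3, if_pos h, if_pos h, mul_one]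
      have h4 : (if i.rev = c then Lo n f j i else 0) = 0 := by
        split_ifs with h5
        · refine Lo_big hf ?_
          have := congrArg Fin.val h5
          rw [Fin.val_rev] at this
          omega
        · rfl
      rw [h4, sub_zero]
      by_cases h5 : j = c
      · subst h5
        rw [if_pos rfl, if_pos rfl, mul_one]
      · rw [if_neg h5, if_neg h5, mul_zero]
    · have h3 : 2 * ((c.rev : Fin n) : ℕ) < n := by omega
      rw [if_pos h3, if_neg h, if_neg h]
      have h4 : (if j = c then Lo n f i j else 0) = 0 := by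
        split_ifs with h5
        · refine Lo_big hf ?_
          rw [h5]
          omega
        · rfl
      rw [h4, zero_sub]
      by_cases h5 : i.rev = c
      · have h6 : i = c.rev := by rw [← h5, Fin.rev_rev]
        rw [if_pos h5, if_pos h6, ← h6]; ring
      · have h6 : ¬ i = c.rev := fun h => h5 (by rw [h, Fin.rev_rev])
        rw [if_neg h5, if_neg h6]; ring
  simp only [h2]
  rw [Finset.sum_sub_distrib, Finset.sum_ite_eq Finset.univ j, Finset.sum_ite_eq Finset.univ i.rev]
  simp only [Finset.mem_univ, if_true]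
  exact (Qp_eq_Lo f i j).symm

theorem V1_det (hn : Even n) {f : ℚ[X]} (hf : f.natDegree = n) (hm : f.Monic) : IsUnit (V1 n f).det := by
  obtain ⟨g, hg⟩ := hn
  rw [Matrix.det_of_upperTriangular]
  · rw [IsUnit.prod_univ_iff]
    intro p
    unfold V1
    rw [Matrix.of_apply]
    split_ifs with h h2
    · exact isUnit_one
    · exact absurd rfl h2
    · have hrev : ((p.rev : Fin n) : ℕ) = n - (p + 1) := Fin.val_rev p
      have hp := p.2
      have h3 : Lo n f p p.rev = C ((((p : ℕ) : ℚ) - ((p.rev : Fin n) : ℕ)) / 2) := by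
        unfold Lo
        rw [if_pos (by rw [Fin.lt_def, hrev]; omega)]
        unfold Qp
        rw [Matrix.of_apply]
        have e1 : (p : ℕ) + ((p.rev : Fin n) : ℕ) + 1 = n := by omega
        rw [e1, show (p : ℕ) + ((p.rev : Fin n) : ℕ) + 2 = n + 1 by omega, coeff_eq_zero_of_natDegree_lt (n := n + 1) (by omega)]
        have e2 : f.coeff n = 1 := by rw [← hf]; exact hm.coeff_natDegree
        rw [e2]
        simp
      rw [h3]
      refine Polynomial.isUnit_C.2 (isUnit_iff_ne_zero.2 ?_)
      have h4 : ((p.rev : Fin n) : ℕ) < (p : ℕ) := by omega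
      have h5 : (((p.rev : Fin n) : ℕ) : ℚ) < ((p : ℕ) : ℚ) := by exact_mod_cast h4
      have : 0 < (((p : ℕ) : ℚ) - ((p.rev : Fin n) : ℕ)) / 2 := by linarith
      exact this.ne'
  · intro i p hip
    have hip' : (p : ℕ) < i := hip
    unfold V1
    rw [Matrix.of_apply]
    split_ifs with h h2
    · rw [h2] at hip'; omega
    · rfl
    · unfold Lo
      have hrev : ((p.rev : Fin n) : ℕ) = n - (p + 1) := Fin.val_rev p
      have hp := p.2
      split_ifs with h3
      · exact Qp_zero hf (by omega)
      · rfl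

theorem K1_transpose (hn : Even n) {K : Type*} [Ring K] : (K1 K n).transpose = - K1 K n := by
  obtain ⟨g, hg⟩ := hn
  ext p c
  rw [Matrix.transpose_apply, Matrix.neg_apply]
  unfold K1
  simp only [Matrix.of_apply]
  by_cases h : c = p.rev
  · have h' : p = c.rev := by rw [h, Fin.rev_rev]
    have hrev : ((p.rev : Fin n) : ℕ) = n - (p + 1) := Fin.val_rev p
    rw [if_pos h, if_pos h']
    have hp := p.2
    by_cases h2 : 2 * (p : ℕ) < n
    · rw [if_pos h2, if_neg (by rw [h]; omega)]; simp
    · rw [if_neg h2, if_pos (by rw [h]; omega)]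
  · have h' : ¬ p = c.rev := fun h2 => h (by rw [h2, Fin.rev_rev])
    rw [if_neg h, if_neg h', neg_zero]

theorem K1_diag (hn : Even n) {K : Type*} [Ring K] (p : Fin n) : K1 K n p p = 0 := by
  obtain ⟨g, hg⟩ := hn
  unfold K1
  rw [Matrix.of_apply, if_neg]
  intro h
  have := congrArg Fin.val h
  rw [Fin.val_rev] at this
  have := p.2
  omega

theorem K1_det (hn : Even n) {K : Type*} [Field K] : (K1 K n).det ≠ 0 := by
  have h1 : K1 K n * (K1 K n).transpose = 1 := by
    ext p c
    rw [Matrix.mul_apply]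
    unfold K1
    simp only [Matrix.transpose_apply, Matrix.of_apply]
    have h2 : ∀ x : Fin n, (if p = x.rev then (if 2 * (x : ℕ) < n then (1 : K) else -1) else 0) *
        (if c = x.rev then (if 2 * (x : ℕ) < n then (1 : K) else -1) else 0) =
        if p.rev = x then (if p = c then 1 else 0) else 0 := by
      intro x
      by_cases h3 : p = x.rev
      · have h4 : p.rev = x := by rw [h3, Fin.rev_rev]
        rw [if_pos h3, if_pos h4]
        by_cases h5 : c = x.rev
        · rw [if_pos h5, if_pos (h3.trans h5.symm)]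
          split_ifs <;> simp
        · rw [if_neg h5, if_neg (fun h6 : p = c => h5 (h6.symm.trans h3)), mul_zero]
      · have h4 : ¬ p.rev = x := fun h5 => h3 (by rw [← h5, Fin.rev_rev])
        rw [if_neg h3, if_neg h4, zero_mul]
    simp only [h2]
    rw [Finset.sum_ite_eq Finset.univ p.rev]
    simp only [Finset.mem_univ, if_true]
    rw [Matrix.one_apply]
  intro h0
  have := congrArg Matrix.det h1
  rw [Matrix.det_mul, h0, zero_mul, Matrix.det_one] at this
  exact zero_ne_one this

/-- the unimodular trivialisation -/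
theorem exists_triv1 (hn : Even n) {f : ℚ[X]} (hf : f.natDegree = n) (hm : f.Monic) :
    ∃ U V : Matrix (Fin n) (Fin n) ℚ[X], U * V = 1 ∧ V * U = 1 ∧ V * jm ℚ[X] n * V.transpose = Qp n f := by
  obtain ⟨C0, hC0, hC⟩ := Pool.Agent.Y122.HPDar.darboux (jm ℚ n) (K1 ℚ n) jm_transpose (fun i => jm_diag i)
    (jm_det hn) (K1_transpose hn) (fun i => K1_diag hn i) (K1_det hn)
  set V : Matrix (Fin n) (Fin n) ℚ[X] := V1 n f * C0.map C with hV
  have hdet : IsUnit V.det := by
    rw [hV, Matrix.det_mul]
    refine (V1_det hn hf hm).mul ?_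
    have h1 : (C0.map C).det = C C0.det := (RingHom.map_det (C : ℚ →+* ℚ[X]) C0).symm
    rw [h1]
    refine Polynomial.isUnit_C.2 (isUnit_iff_ne_zero.2 ?_)
    intro h0
    have := congrArg Matrix.det hC
    rw [Matrix.det_mul, Matrix.det_mul, h0, zero_mul, zero_mul] at this
    exact K1_det hn this.symm
  refine ⟨V⁻¹, V, nonsing_inv_mul V hdet, mul_nonsing_inv V hdet, ?_⟩
  have h2 : (C0.map C) * jm ℚ[X] n * (C0.map C).transpose = K1 ℚ[X] n := by
    have h3 := congrArg (fun M : Matrix (Fin n) (Fin n) ℚ => M.map (C : ℚ →+* ℚ[X])) hC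
    simp only [Matrix.map_mul, Matrix.transpose_map] at h3
    rw [jm_map] at h3
    have h4 : (K1 ℚ n).map (C : ℚ →+* ℚ[X]) = K1 ℚ[X] n := by
      ext1 p c
      rw [Matrix.map_apply]
      unfold K1
      simp only [Matrix.of_apply]
      split_ifs <;> simp
    rw [h4] at h3
    exact h3
  calc V * jm ℚ[X] n * V.transpose = V1 n f * ((C0.map C) * jm ℚ[X] n * (C0.map C).transpose) * (V1 n f).transpose := by
        rw [hV, Matrix.transpose_mul]; simp only [Matrix.mul_assoc]
    _ = Qp n f := by rw [h2, V1_K1 hn hf]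

end Pool.Agent.Y118.HG
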