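import Pool.Agent.Y118.HG.Cnt
import Pool.Agent.Y118.HP.Fin
import Pool.Agent.Y113.W.Tup

/-!
# Relations between the periods with coefficients in a finite dimensional space
-/

set_option autoImplicit false
set_option maxHeartbeats 400000

open Matrix Polynomial Filter Topology

namespace Pool.Agent.Y118.HG

open Pool.Agent.Y118.HP Pool.Agent.Y113 Pool.Agent.Y37.GF

variable {n N : ℕ}

/-- the point with coordinates the entries of the matrices -/
def px {K : Type*} (X : Fin N → Matrix (Fin n) (Fin n) K) : Fin N × Fin n × Fin n → K := fun x => X x.1 x.2.1 x.2.2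

theorem ratmul_mem {W : Submodule ℚ ℂ} {z : ℂ} (hz : z ∈ W) (q : ℚ) : z * (q : ℂ) ∈ W := by
  have h1 : z * (q : ℂ) = q • z := by rw [Algebra.smul_def, mul_comm]; rfl
  rw [h1]
  exact W.smul_mem q hz

/-- polynomials as combinations of products of the basis monomials -/
theorem expand {κ : Type} [Fintype κ] {b : κ → Fin n × Fin n → ℕ} {w : (Fin n × Fin n → ℕ) → κ → ℚ} {D0 : ℕ}
    (hw : ∀ s, dg s ≤ D0 → ∀ g ∈ SpS ℂ n, mnm g s = ∑ k, (w s k : ℂ) * mnm g (b k))
    {W : Submodule ℚ ℂ} {R : MvPolynomial (Fin N × Fin n × Fin n) ℂ} (hR : DC D0 W R) :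
    ∃ c : (Fin N → κ) → ℂ, (∀ e, c e ∈ W) ∧ ∀ S : Fin N → Matrix (Fin n) (Fin n) ℂ, (∀ j, S j ∈ SpS ℂ n) →
      MvPolynomial.aeval (px S) R = ∑ e, c e * ∏ j, mnm (S j) (b (e j)) := by
  classical
  set sj : ((Fin N × Fin n × Fin n) →₀ ℕ) → Fin N → Fin n × Fin n → ℕ := fun s j x => s (j, x.1, x.2) with hsj
  refine ⟨fun e => ∑ s ∈ R.support, R.coeff s * ((∏ j, w (sj s j) (e j) : ℚ) : ℂ), fun e =>
    Submodule.sum_mem _ fun s _ => ratmul_mem (hR.2 s) _, fun S hS => ?_⟩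
  have h1 : ∀ s ∈ R.support, ∀ j, dg (sj s j) ≤ D0 := by
    intro s hs j
    have h2 := MvPolynomial.le_totalDegree hs
    have h3 : (s.sum fun _ e => e) = ∑ j, ∑ x : Fin n × Fin n, s (j, x) := by
      rw [Finsupp.sum_fintype _ _ (fun _ => rfl), Fintype.sum_prod_type]
    have h4 : dg (sj s j) ≤ ∑ j, ∑ x : Fin n × Fin n, s (j, x) :=
      Finset.single_le_sum (f := fun j => ∑ x : Fin n × Fin n, s (j, x)) (fun _ _ => Nat.zero_le _) (Finset.mem_univ j)
    have := hR.1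
    omega
  have h2 : ∀ s ∈ R.support, ∏ x, px S x ^ s x = ∑ e : Fin N → κ, ((∏ j, w (sj s j) (e j) : ℚ) : ℂ) *
      ∏ j, mnm (S j) (b (e j)) := by
    intro s hs
    have h3 : ∏ x, px S x ^ s x = ∏ j, mnm (S j) (sj s j) := by
      rw [Fintype.prod_prod_type]
      rfl
    rw [h3, Finset.prod_congr rfl fun j _ => hw (sj s j) (h1 s hs j) (S j) (hS j), Finset.prod_univ_sum]
    rw [Fintype.piFinset_univ]
    refine Finset.sum_congr rfl fun e _ => ?_
    rw [Finset.prod_mul_distrib]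
    push_cast
    rfl
  rw [MvPolynomial.aeval_def, MvPolynomial.eval₂_eq', Finset.sum_congr rfl fun s hs => by rw [h2 s hs]]
  simp only [Finset.mul_sum, Finset.sum_mul]
  rw [Finset.sum_comm]
  refine Finset.sum_congr rfl fun e _ => Finset.sum_congr rfl fun s _ => ?_
  simp only [Algebra.algebraMap_self, RingHom.id_apply]
  ring

/-- a linear substitution -/
theorem subst_DC (A : Fin N → Matrix (Fin n) (Fin n) ℂ) (U : Fin N → Matrix (Fin n) (Fin n) ℚ) {V : Submodule ℚ ℂ}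
    {D0 : ℕ} {P : MvPolynomial (Fin N × Fin n × Fin n) ℂ} (hP : DC D0 V P) :
    ∃ R : MvPolynomial (Fin N × Fin n × Fin n) ℂ, DC D0 (V * (sp (px A)) ^ D0) R ∧
      ∀ S : Fin N → Matrix (Fin n) (Fin n) ℂ, MvPolynomial.aeval (px S) R =
        MvPolynomial.aeval (px fun j => A j * S j * (U j).map (algebraMap ℚ ℂ)) P := by
  classical
  set L : Fin N × Fin n × Fin n → MvPolynomial (Fin N × Fin n × Fin n) ℂ := fun x =>
    ∑ q, ∑ p, MvPolynomial.C (A x.1 x.2.1 p * ((U x.1 q x.2.2 : ℚ) : ℂ)) * MvPolynomial.X (x.1, p, q) with hL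
  have hLD : ∀ x, DC 1 (sp (px A)) (L x) := by
    intro x
    refine DC.sum _ fun q _ => DC.sum _ fun p _ => ?_
    rw [MvPolynomial.C_mul_X_eq_monomial]
    refine ⟨(MvPolynomial.totalDegree_monomial_le _ _).trans (by simp), fun s => ?_⟩
    rw [MvPolynomial.coeff_monomial]
    split_ifs
    · exact ratmul_mem (sp_mem (px A) (x.1, x.2.1, p)) _
    · exact Submodule.zero_mem _
  refine ⟨MvPolynomial.aeval L P, DC.subst' (sp_one _) L hLD hP, fun S => ?_⟩
  have h1 : MvPolynomial.aeval (px S) (MvPolynomial.aeval L P) =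
      MvPolynomial.aeval (fun i => MvPolynomial.aeval (px S) (L i)) P := by
    rw [← MvPolynomial.comp_aeval_apply]
  rw [h1]
  congr 2
  funext x
  rw [hL]
  simp only [map_sum, map_mul, MvPolynomial.aeval_X, MvPolynomial.aeval_C]
  show _ = (A x.1 * S x.1 * (U x.1).map (algebraMap ℚ ℂ)) x.2.1 x.2.2
  rw [Matrix.mul_apply]
  refine Finset.sum_congr rfl fun q _ => ?_
  rw [Matrix.mul_apply, Finset.sum_mul]
  refine Finset.sum_congr rfl fun p _ => ?_
  have hpx : px S (x.1, p, q) = S x.1 p q := rfl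
  rw [Matrix.map_apply, eq_ratCast, hpx]
  simp only [Algebra.algebraMap_self, RingHom.id_apply]
  ring

theorem SpS_of_eqC (hn : Even n) {A S : Matrix (Fin n) (Fin n) ℂ} {c : ℂ} (hc : c ≠ 0)
    (h0 : A * jm ℂ n * A.transpose = c • jm ℂ n)
    (h1 : (A * S) * jm ℂ n * (A * S).transpose = c • jm ℂ n) : S ∈ SpS ℂ n := by
  have hdet : IsUnit A.det := by
    rw [isUnit_iff_ne_zero]
    intro h2
    have := congrArg Matrix.det h0
    rw [Matrix.det_mul, Matrix.det_mul, h2, zero_mul, zero_mul, Matrix.det_smul] at this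
    exact mul_ne_zero (pow_ne_zero _ hc) (jm_det hn) this.symm
  have h2 : A⁻¹ * A = 1 := nonsing_inv_mul _ hdet
  have h3 : A.transpose * (A⁻¹).transpose = 1 := by rw [← Matrix.transpose_mul, h2, Matrix.transpose_one]
  show S * jm ℂ n * S.transpose = jm ℂ n
  calc S * jm ℂ n * S.transpose = (A⁻¹ * A) * (S * jm ℂ n * S.transpose) * (A.transpose * (A⁻¹).transpose) := by
        rw [h2, h3, one_mul, mul_one]
    _ = A⁻¹ * ((A * S) * jm ℂ n * (A * S).transpose) * (A⁻¹).transpose := by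
        rw [Matrix.transpose_mul]; simp only [Matrix.mul_assoc]
    _ = A⁻¹ * (A * jm ℂ n * A.transpose) * (A⁻¹).transpose := by rw [h1, h0]
    _ = (A⁻¹ * A) * jm ℂ n * (A.transpose * (A⁻¹).transpose) := by simp only [Matrix.mul_assoc]
    _ = jm ℂ n := by rw [h2, h3, one_mul, mul_one]

/-- the rational values of the matrices of polynomials -/
theorem map_rat (M : Matrix (Fin n) (Fin n) ℚ[X]) (t : ℚ) :
    (M.map (Polynomial.eval t)).map (algebraMap ℚ ℂ) = M.map (aeval (t : ℂ)) := by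
  ext i j
  rw [Matrix.map_apply, Matrix.map_apply, Matrix.map_apply]
  have := Polynomial.aeval_algebraMap_apply ℂ t (M i j)
  simpa using this.symm

theorem map_aevalC_mul (P Q : Matrix (Fin n) (Fin n) ℚ[X]) (z : ℂ) :
    (P * Q).map (aeval z) = P.map (aeval z) * Q.map (aeval z) :=
  Matrix.map_mul (f := ((aeval z : ℚ[X] →ₐ[ℚ] ℂ) : ℚ[X] →+* ℂ))

theorem map_aevalC_one (z : ℂ) : (1 : Matrix (Fin n) (Fin n) ℚ[X]).map (aeval z) = (1 : Matrix (Fin n) (Fin n) ℂ) :=
  Matrix.map_one _ (map_zero _) (map_one _)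

theorem Qp_aevalC {V : Matrix (Fin n) (Fin n) ℚ[X]} {f : ℚ[X]} (h : V * jm ℚ[X] n * V.transpose = Qp n f) (z : ℂ) :
    (Qp n f).map (aeval z) = V.map (aeval z) * jm ℂ n * (V.map (aeval z)).transpose := by
  rw [← h, map_aevalC_mul, map_aevalC_mul, Matrix.transpose_map]
  congr 2
  exact jm_map ((aeval z : ℚ[X] →ₐ[ℚ] ℂ) : ℚ[X] →+* ℂ)

/-- the constant matrix -/
noncomputable def AC (a : Fin n → ℝ) (m : Fin (n + 1)) (V : Matrix (Fin n) (Fin n) ℚ[X]) : Matrix (Fin n) (Fin n) ℂ :=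
  CM a m 0 * V.map (aeval (0 : ℂ))

theorem AC_J (hn : Even n) {a : Fin n → ℝ} (ha : StrictMono a) {m : Fin (n + 1)} {f : ℚ[X]} (h0 : InGap a m 0)
    (hf : f.map (algebraMap ℚ ℝ) = ∏ i, (X - C (a i))) {V : Matrix (Fin n) (Fin n) ℚ[X]}
    (hV : V * jm ℚ[X] n * V.transpose = Qp n f) :
    AC a m V * jm ℂ n * (AC a m V).transpose = (-4 * Real.pi * Complex.I : ℂ) • jm ℂ n := by
  have h1 := CM_mem hn ha hf (t := 0) (by simpa using h0)
  rw [Rat.cast_zero, Rat.cast_zero, Qp_aevalC hV] at h1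
  have h2 : AC a m V * jm ℂ n * (AC a m V).transpose = (-2 : ℂ) • (CM a m 0 * ((-1 / 2 : ℂ) •
      (V.map (aeval (0 : ℂ)) * jm ℂ n * (V.map (aeval (0 : ℂ))).transpose)) * (CM a m 0).transpose) := by
    unfold AC
    rw [Matrix.mul_smul, Matrix.smul_mul, smul_smul, Matrix.transpose_mul]
    norm_num
    simp only [Matrix.mul_assoc]
  rw [h2, h1, smul_smul]
  congr 1
  ring

/-- the periods in terms of `Z` -/
theorem CM_val (hn : Even n) {a : Fin n → ℝ} (ha : StrictMono a) {m : Fin (n + 1)} {f : ℚ[X]} (h0 : InGap a m 0)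
    (Δ : ZDat n a m f) : ∀ᶠ z in 𝓝 (0 : ℝ), InGap a m z ∧
      CM a m z = AC a m Δ.V * (Ez Δ.Z z).map (algebraMap ℝ ℂ) * Δ.U.map (aeval (z : ℂ)) := by
  have hgap : ∀ᶠ z in 𝓝 (0 : ℝ), InGap a m z := (isOpen_InGap a m).mem_nhds h0
  filter_upwards [hgap, Δ.val] with z hz hv
  refine ⟨hz, ?_⟩
  have hCM : ∀ {z : ℝ}, InGap a m z → CM a m z = Matrix.diagonal dl * (RM a m z).map (algebraMap ℝ ℂ) := by
    intro z hz
    ext l j
    rw [CM_apply hn ha hz, Matrix.diagonal_mul]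
    rfl
  unfold AC
  rw [hCM hz, hCM h0, hv, map_aeval_real]
  have h3 : Δ.V.map (aeval (0 : ℂ)) = (Δ.V.map (aeval (0 : ℝ))).map (algebraMap ℝ ℂ) := by
    have := map_aeval_real Δ.V 0
    simpa using this
  rw [h3]
  simp only [Matrix.map_mul, Matrix.mul_assoc]

end Pool.Agent.Y118.HG
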