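import Pool.Agent.Y118.HG.Li
import Pool.Agent.Y118.HG.Defs2
import Pool.Agent.Y46.HG.HGOne
import Pool.Agent.Y678.HG.HGMon
import Pool.Agent.Y341.HGWk
import Pool.Agent.Y113.W.Count

/-!
# Few bad tuples in a window
-/

set_option autoImplicit false
set_option maxHeartbeats 400000

open Matrix Polynomial Filter Topology

namespace Pool.Agent.Y118.HG

open Pool.Agent.Y118.HP Pool.Agent.Y113 Pool.Agent.Y37.GF

variable {n N : ℕ}

/-- separated shifts are in general position -/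
theorem exists_G0 (a : Fin n → ℝ) : ∃ G0 : ℕ, 0 < G0 ∧ ∀ {r : ℕ} (g : Fin r → ℕ), SepN G0 g →
    Sep a (fun l => (g l : ℝ)) := by
  obtain ⟨G, hG⟩ := exists_nat_gt (2 * ∑ i, |1 / a i|)
  have hS : ∀ i, |1 / a i| ≤ ∑ i, |1 / a i| := fun i =>
    Finset.single_le_sum (f := fun i => |1 / a i|) (fun _ _ => abs_nonneg _) (Finset.mem_univ i)
  have hS0 : 0 ≤ ∑ i, |1 / a i| := Finset.sum_nonneg fun _ _ => abs_nonneg _
  have hG0 : (0 : ℝ) < G := by linarith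
  refine ⟨G, by exact_mod_cast hG0, fun g hg l l' hll i => ?_⟩
  have h1 : (G : ℝ) ≤ |(g l : ℝ) - g l'| := by
    have := hg l l' hll
    have h2 : ((G : ℤ) : ℝ) ≤ ((|(g l : ℤ) - g l'| : ℤ) : ℝ) := by exact_mod_cast this
    simpa using h2
  refine ⟨fun h => ?_, fun i' h => ?_⟩
  · have h2 : (g l : ℝ) - g l' = -(1 / a i) := by linarith
    rw [h2, abs_neg] at h1
    have := hS i
    linarith
  · have h2 : (g l : ℝ) - g l' = 1 / a i' - 1 / a i := by linarith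
    rw [h2] at h1
    have h3 := abs_sub (1 / a i') (1 / a i)
    have h4 := hS i
    have h5 := hS i'
    linarith

/-- few bad tuples in a window -/
theorem win_gen (hn : Even n) {a : Fin n → ℝ} (ha : StrictMono a) (ha0 : ∀ i, a i ≠ 0) {m : Fin (n + 1)} {f : ℚ[X]}
    (h0 : InGap a m 0) (hf : f.map (algebraMap ℚ ℝ) = ∏ i, (X - C (a i))) (hf0 : f.coeff 0 ≠ 0) (Δ : ZDat n a m f)
    (D0 : ℕ) {κ : Type} [Fintype κ] (k0 : κ) (b : κ → Fin n × Fin n → ℕ) (w : (Fin n × Fin n → ℕ) → κ → ℚ)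
    (hb0 : b k0 = 0) (hbD : ∀ k, dg (b k) ≤ D0)
    (hw : ∀ s, dg s ≤ D0 → ∀ g ∈ SpS ℂ n, mnm g s = ∑ k, (w s k : ℂ) * mnm g (b k))
    (hb : ∀ x : κ → ℂ, (∀ g ∈ SpS ℂ n, ∑ k, x k * mnm g (b k) = 0) → x = 0) :
    ∃ G0 : ℕ, 0 < G0 ∧ ∀ k D : ℕ, ∃ M E : ℕ, ∀ V : Submodule ℚ ℂ, Module.Finite ℚ V → Module.finrank ℚ V ≤ D →
      ∀ H t : ℕ, (H + 2) ^ E ≤ t → ∃ S : Finset ℕ, S.card ≤ M ∧ ∀ g : Fin k → ℕ, SepN G0 g →
        (∀ i, g i ≤ H ∧ g i ∉ S) → ∀ c : (Fin k → κ) → ℂ, (∀ e, c e ∈ V) →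
        ∑ e, c e * ∏ i, ((mnm (Ez Δ.Z (1 / ((t : ℝ) - g i))) (b (e i)) : ℝ) : ℂ) = 0 → c = 0 := by
  classical
  obtain ⟨G0, hG0, hsep⟩ := exists_G0 a
  obtain ⟨q, E, TT, hGS, hTT⟩ := Pool.Agent.Y46.HG.t_one n f (fun i j => Δ.A i j) (fun i j => Δ.Z i j)
    (fun i j => Δ.W i j) hf0 Δ.ode (by
      intro i j
      have h1 := congrFun (congrFun Δ.WZ i) j
      rw [Matrix.mul_apply, Matrix.one_apply] at h1
      exact h1) Δ.sdZ Δ.sdW
  obtain ⟨ρ', hρ', hZ'⟩ := SDc_SR' (fun p : Fin n × Fin n => Δ.Z p.1 p.2) fun p => Δ.sdZ p.1 p.2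
  set ρ := min ρ' 1 with hρ
  have hρ0 : 0 < ρ := lt_min hρ' one_pos
  have hρ1 : ρ ≤ 1 := min_le_right _ _
  have hZ : SRm ρ Δ.Z := fun i j => (hZ' (i, j)).mono hρ0.le (min_le_left _ _)
  -- the functions
  set y : ℕ → Fin n × Fin n → PowerSeries ℚ := fun g p => (Δ.Z p.1 p.2).subst (sh g) with hy
  have hmy : ∀ (g : ℕ) (s : Fin n × Fin n → ℕ), ∏ p, y g p ^ s p = mnm (Zg Δ.Z g) s := by
    intro g s
    unfold mnm
    refine Finset.prod_congr rfl fun p _ => ?_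
    rw [Zg_apply]
  have hmon := Pool.Agent.Y678.HG.t_mon (Fin n × Fin n) κ D0 b w TT y q E (fun k => hbD k) (by
    intro g s hs
    rw [hmy]
    simp only [hmy]
    exact mnm_id Δ.zJ hρ0 hZ hw s hs g) hGS
  set wf : ℕ → κ → PowerSeries ℚ := fun g k => mnm (Zg Δ.Z g) (b k) with hwf
  have hwk := Pool.Agent.Y341.HG.t_wk κ k0 G0 TT wf hG0 (by
      intro g
      rw [hwf]
      simp only
      rw [hb0]
      simp [mnm]) (by
      intro r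
      obtain ⟨q', E', h1⟩ := hmon r
      refine ⟨q', E', fun H g hg => ?_⟩
      have h2 := h1 H g hg
      have h3 : (fun e : Fin r → κ => ∏ l, ∏ i, y (g l) i ^ b (e l) i) = fun e : Fin r → κ => ∏ l, wf (g l) (e l) := by
        funext e
        exact Finset.prod_congr rfl fun l _ => hmy (g l) (b (e l))
      rw [← h3]
      exact h2) (fun r g hg => li_shift hn ha ha0 h0 hf Δ b hb g (hsep g hg)) ⟨E, hTT⟩
  refine ⟨G0, hG0, fun k D => ?_⟩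
  obtain ⟨M, Ew, hME⟩ := hwk k D
  obtain ⟨e1, he1⟩ : ∃ e1 : ℕ, 1 / ρ ≤ (2 : ℝ) ^ e1 := by
    obtain ⟨e1, he1⟩ := pow_unbounded_of_one_lt (1 / ρ) (show (1 : ℝ) < 2 by norm_num)
    exact ⟨e1, he1.le⟩
  refine ⟨M, Ew + (3 + e1), fun V hVf hVD H t ht => ?_⟩
  have hH2 : 1 ≤ H + 2 := by omega
  have ht1 : (H + 2) ^ Ew ≤ t := (Nat.pow_le_pow_right hH2 (by omega)).trans ht
  have ht2 : (H + 2) ^ (3 + e1) ≤ t := (Nat.pow_le_pow_right hH2 (by omega)).trans ht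
  obtain ⟨S, hS1, hS2⟩ := hME V hVf hVD H t ht1
  refine ⟨S, hS1, fun g hg hgS c hc hsum => hS2 g hg hgS c hc ?_⟩
  rw [← hsum]
  refine Finset.sum_congr rfl fun e _ => ?_
  congr 1
  refine Finset.prod_congr rfl fun i _ => ?_
  congr 1
  -- the value
  have hgH : g i ≤ H := (hgS i).1
  have h8 : (0 : ℝ) < (g i : ℝ) + 8 := by positivity
  have htR : ((H : ℝ) + 2) ^ (3 + e1) ≤ (t : ℝ) := by exact_mod_cast ht2
  have hHR : (0 : ℝ) ≤ H := by positivity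
  have h4 : ((g i : ℝ) + 8) * (1 / ρ) ≤ t := by
    have hg2 : (g i : ℝ) ≤ H := by exact_mod_cast hgH
    have h5 : (g i : ℝ) + 8 ≤ ((H : ℝ) + 2) ^ 3 := by nlinarith [sq_nonneg (H : ℝ), mul_nonneg hHR (sq_nonneg (H : ℝ))]
    have h6 : 1 / ρ ≤ ((H : ℝ) + 2) ^ e1 := he1.trans (pow_le_pow_left₀ (by norm_num) (by linarith) _)
    calc ((g i : ℝ) + 8) * (1 / ρ) ≤ ((H : ℝ) + 2) ^ 3 * ((H : ℝ) + 2) ^ e1 :=
          mul_le_mul h5 h6 (by positivity) (by positivity)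
      _ = ((H : ℝ) + 2) ^ (3 + e1) := by rw [pow_add]
      _ ≤ t := htR
  have ht0 : (0 : ℝ) < t := lt_of_lt_of_le (by positivity) h4
  have hz : |1 / (t : ℝ)| ≤ ρ / ((g i : ℝ) + 8) := by
    rw [abs_of_pos (by positivity), div_le_div_iff₀ ht0 h8, one_mul]
    have h7 : ((g i : ℝ) + 8) * (1 / ρ) * ρ = (g i : ℝ) + 8 := by field_simp
    nlinarith
  have hSRm := Zg_SRm (g i) hρ0 hρ1 hZ
  have hr0 : 0 ≤ ρ / ((g i : ℝ) + 8) := by positivity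
  show ev t (mnm (Zg Δ.Z (g i)) (b (e i))) = mnm (Ez Δ.Z (1 / ((t : ℝ) - g i))) (b (e i))
  rw [ev_eq, E_mnm hr0 hSRm _ hz, Zg_Ez (g i) hρ0 hρ1 hZ hz]
  have hgt : (g i : ℝ) < t := by
    have : (g i : ℝ) + 8 ≤ ((g i : ℝ) + 8) * (1 / ρ) := le_mul_of_one_le_right h8.le (by
      rw [le_div_iff₀ hρ0]; linarith)
    linarith
  congr 2
  have h5 : (t : ℝ) - g i ≠ 0 := (sub_pos.2 hgt).ne'
  have h6 : 1 - (g i : ℝ) * (1 / t) = (t - g i) / t := by field_simp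
  rw [h6]
  field_simp

end Pool.Agent.Y118.HG
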