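import Pool.Agent.Y118.HG.Mon2
import Pool.Agent.Y118.HG.Triv
import Pool.Agent.Y118.HP.Alg7
import Pool.Agent.Y655.HG.Form
import Pool.Agent.Y496.HG.Pode
import Pool.Agent.Y37.GF.Ev

/-!
# The periods near `0` are values of the formal solution
-/

set_option autoImplicit false
set_option maxHeartbeats 400000

open Matrix Polynomial Filter Topology

namespace Pool.Agent.Y118.HG

open Pool.Agent.Y118.HP Pool.Agent.Y113 Pool.Agent.Y37.GF

variable {n : ℕ}

/-- uniqueness of the coefficients -/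
theorem E_unique (k : ℕ) : ∀ {r : ℝ} {F : PowerSeries ℚ}, 0 < r → SR r F → (∀ z, |z| < r → E F z = 0) →
    PowerSeries.coeff k F = 0 := by
  induction k with
  | zero =>
    intro r F hr _ h
    have h1 := h 0 (by simpa using hr)
    rw [E_zero] at h1
    exact_mod_cast h1
  | succ k ih =>
    intro r F hr hF h
    have h2 : ∀ z, |z| < r / 2 → E (PowerSeries.derivative ℚ F) z = 0 := by
      intro z hz
      have hz' : |z| < r := by linarith
      have h3 : HasDerivAt (E F) (E (PowerSeries.derivative ℚ F) z) z := hasDerivAt_E hF hz'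
      have h4 : E F =ᶠ[𝓝 z] fun _ => 0 := by
        have : {y : ℝ | |y| < r} ∈ 𝓝 z := (isOpen_lt continuous_abs continuous_const).mem_nhds hz'
        filter_upwards [this] with y hy
        exact h y hy
      have h5 : HasDerivAt (E F) 0 z := (hasDerivAt_const z (0 : ℝ)).congr_of_eventuallyEq h4
      exact h3.unique h5
    have h3 := ih (half_pos hr) (hF.der (by positivity) (half_lt_self hr)) h2
    rw [PowerSeries.coeff_derivative] at h3
    have h4 : ((k : ℚ) + 1) ≠ 0 := by positivity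
    exact (mul_eq_zero.1 h3).resolve_right h4

theorem E_ext {r : ℝ} {F G : PowerSeries ℚ} (hr : 0 < r) (hF : SR r F) (hG : SR r G)
    (h : ∀ z, |z| < r → E F z = E G z) : F = G := by
  rw [← sub_eq_zero]
  ext k
  rw [map_zero]
  refine E_unique k hr (hF.sub hr.le hG) fun z hz => ?_
  rw [E_sub hF hG hz.le, h z hz, sub_self]

/-- G-functions converge near `0` -/
theorem SDc_SR {F : PowerSeries ℚ} (h : SDc F) : ∃ r : ℝ, 0 < r ∧ SR r F := by
  obtain ⟨k, hk, -⟩ := h
  refine ⟨1 / (2 * 2 ^ k), by positivity, ?_⟩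
  refine SR.of_bound (A := 2 ^ k) (B := 2 ^ k) (by positivity) (by positivity) ?_ fun m => ?_
  · rw [mul_one_div, div_lt_one (by positivity)]
    have : (0 : ℝ) < 2 ^ k := by positivity
    linarith
  · rw [mul_comm, ← pow_succ]
    exact hk m

theorem SDc_SR' {ι : Type*} [Finite ι] (F : ι → PowerSeries ℚ) (h : ∀ i, SDc (F i)) :
    ∃ r : ℝ, 0 < r ∧ ∀ i, SR r (F i) := by
  classical
  have := Fintype.ofFinite ι
  choose r hr hF using fun i => SDc_SR (h i)
  by_cases hne : Nonempty ι
  · set r0 := Finset.univ.inf' Finset.univ_nonempty r with hr0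
    have h0 : 0 < r0 := (Finset.lt_inf'_iff _).2 fun i _ => hr i
    exact ⟨r0, h0, fun i => (hF i).mono h0.le (Finset.inf'_le _ (Finset.mem_univ i))⟩
  · exact ⟨1, one_pos, fun i => absurd ⟨i⟩ hne⟩

/-- the right hand side of the differential equation -/
noncomputable def vf (n : ℕ) (f : ℚ[X]) (z : ℝ) (x : Fin n → ℝ) (j : Fin n) : ℝ :=
  (∑ k : Fin n, aeval z (cA n f j k) * x k) / aeval z f

theorem vf_lip (f : ℚ[X]) (hf0 : f.coeff 0 ≠ 0) : ∃ K : NNReal, ∀ᶠ z in 𝓝 (0 : ℝ),
    LipschitzOnWith K (vf n f z) Set.univ := by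
  have hfz : aeval (0 : ℝ) f ≠ 0 := by
    rw [← Polynomial.coeff_zero_eq_aeval_zero']
    simpa using hf0
  have hc : ∀ j k : Fin n, ContinuousAt (fun z : ℝ => aeval z (cA n f j k) / aeval z f) 0 := by
    intro j k
    exact (Polynomial.continuous_aeval _).continuousAt.div (Polynomial.continuous_aeval _).continuousAt hfz
  have hb : ∀ j k : Fin n, ∀ᶠ z in 𝓝 (0 : ℝ), |aeval z (cA n f j k) / aeval z f| ≤
      |aeval (0 : ℝ) (cA n f j k) / aeval (0 : ℝ) f| + 1 := by
    intro j k
    have h1 := (hc j k).abs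
    have h2 : ∀ᶠ z in 𝓝 (0 : ℝ), |aeval z (cA n f j k) / aeval z f| <
      |aeval (0 : ℝ) (cA n f j k) / aeval (0 : ℝ) f| + 1 := h1.eventually (gt_mem_nhds (by linarith))
    exact h2.mono fun z hz => hz.le
  set B : ℝ := ∑ j : Fin n, ∑ k : Fin n, (|aeval (0 : ℝ) (cA n f j k) / aeval (0 : ℝ) f| + 1) with hB
  have hB0 : 0 ≤ B := by positivity
  refine ⟨⟨B, hB0⟩, ?_⟩
  have hall : ∀ᶠ z in 𝓝 (0 : ℝ), ∀ j k : Fin n, |aeval z (cA n f j k) / aeval z f| ≤
      |aeval (0 : ℝ) (cA n f j k) / aeval (0 : ℝ) f| + 1 :=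
    eventually_all.2 fun j => eventually_all.2 fun k => hb j k
  filter_upwards [hall] with z hz
  refine LipschitzOnWith.of_dist_le_mul fun x _ y _ => ?_
  change dist _ _ ≤ B * dist x y
  rw [dist_pi_le_iff (by positivity)]
  intro j
  rw [Real.dist_eq]
  unfold vf
  have e1 : (∑ k : Fin n, aeval z (cA n f j k) * x k) / aeval z f - (∑ k : Fin n, aeval z (cA n f j k) * y k) / aeval z f
      = ∑ k : Fin n, (aeval z (cA n f j k) / aeval z f) * (x k - y k) := by
    rw [Finset.sum_div, Finset.sum_div, ← Finset.sum_sub_distrib]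
    refine Finset.sum_congr rfl fun k _ => ?_
    ring
  rw [e1]
  refine (Finset.abs_sum_le_sum_abs _ _).trans ?_
  calc ∑ k : Fin n, |aeval z (cA n f j k) / aeval z f * (x k - y k)|
      ≤ ∑ k : Fin n, (|aeval (0 : ℝ) (cA n f j k) / aeval (0 : ℝ) f| + 1) * dist x y := by
        refine Finset.sum_le_sum fun k _ => ?_
        rw [abs_mul]
        refine mul_le_mul (hz j k) ?_ (abs_nonneg _) (by positivity)
        rw [← Real.dist_eq]
        exact dist_le_pi_dist x y k
    _ = (∑ k : Fin n, (|aeval (0 : ℝ) (cA n f j k) / aeval (0 : ℝ) f| + 1)) * dist x y := by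
        rw [Finset.sum_mul]
    _ ≤ B * dist x y := by
        refine mul_le_mul_of_nonneg_right ?_ dist_nonneg
        rw [hB]
        exact Finset.single_le_sum (f := fun j => ∑ k : Fin n, (|aeval (0 : ℝ) (cA n f j k) / aeval (0 : ℝ) f| + 1))
          (fun j _ => by positivity) (Finset.mem_univ j)

/-- the periods are combinations of the values of the formal solution -/
theorem per_val {a : Fin n → ℝ} (ha : StrictMono a) {m : Fin (n + 1)} {f : ℚ[X]} (h0 : InGap a m 0)
    (hf : f.map (algebraMap ℚ ℝ) = ∏ i, (X - C (a i))) (hf0 : f.coeff 0 ≠ 0)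
    {Y : Fin n → Fin n → PowerSeries ℚ}
    (hY0 : ∀ i j, PowerSeries.constantCoeff (Y i j) = if i = j then 1 else 0)
    (hY1 : ∀ i j, (f : PowerSeries ℚ) * PowerSeries.derivative ℚ (Y i j) = ∑ k, Y i k * (cA n f j k : PowerSeries ℚ))
    (hY2 : ∀ i j, SDc (Y i j)) :
    ∀ᶠ z in 𝓝 (0 : ℝ), ∀ l j, RM a m z l j = ∑ i, RM a m 0 l i * E (Y i j) z := by
  rw [eventually_all]
  intro l
  obtain ⟨K, hK⟩ := vf_lip (n := n) f hf0
  obtain ⟨r, hr, hYr⟩ := SDc_SR' (fun p : Fin n × Fin n => Y p.1 p.2) fun p => hY2 p.1 p.2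
  have hYr' : ∀ i j, SR r (Y i j) := fun i j => hYr (i, j)
  have hgap : ∀ᶠ z in 𝓝 (0 : ℝ), InGap a m z := (isOpen_InGap a m).mem_nhds h0
  have hfz : aeval (0 : ℝ) f ≠ 0 := by
    rw [← Polynomial.coeff_zero_eq_aeval_zero']
    simpa using hf0
  have hfne : ∀ᶠ z in 𝓝 (0 : ℝ), aeval z f ≠ 0 :=
    (Polynomial.continuous_aeval _).continuousAt.eventually_ne hfz
  have hsmall : ∀ᶠ z in 𝓝 (0 : ℝ), |z| < r := by
    have : {y : ℝ | |y| < r} ∈ 𝓝 (0 : ℝ) := (isOpen_lt continuous_abs continuous_const).mem_nhds (by simpa using hr)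
    exact this
  have key : (fun z j => perT (er a m z) l (j : Fin n)) =ᶠ[𝓝 0]
      fun z (j : Fin n) => ∑ i, perT (er a m 0) l (i : Fin n) * E (Y i j) z := by
    refine ODE_solution_unique_of_eventually (v := vf n f) (s := fun _ => Set.univ) hK ?_ ?_ ?_
    · filter_upwards [hgap] with z hz
      refine ⟨?_, trivial⟩
      rw [hasDerivAt_pi]
      intro j
      exact Pool.Agent.Y496.HG.t_pode n a m f z ha hz hf l j
    · filter_upwards [hfne, hsmall] with z hz hzr
      refine ⟨?_, trivial⟩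
      rw [hasDerivAt_pi]
      intro j
      have h1 : ∀ i, HasDerivAt (E (Y i j)) (E (PowerSeries.derivative ℚ (Y i j)) z) z := fun i =>
        hasDerivAt_E (hYr' i j) hzr
      have h2 : ∀ i, aeval z f * E (PowerSeries.derivative ℚ (Y i j)) z = ∑ k, E (Y i k) z * aeval z (cA n f j k) := by
        intro i
        obtain ⟨r', h3, h4⟩ := exists_between hzr
        have h5 : 0 < r' := lt_of_le_of_lt (abs_nonneg _) h3
        have h6 := (hYr' i j).der h5.le h4
        have h7 : E ((f : PowerSeries ℚ) * PowerSeries.derivative ℚ (Y i j)) z =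
          E (∑ k, Y i k * (cA n f j k : PowerSeries ℚ)) z := by rw [hY1 i j]
        rw [E_mul (SR.poly _ _) h6 h3.le, E_poly, E_sum _ h5.le
          (fun k _ => ((hYr' i k).mono h5.le h4.le).mul h5.le (SR.poly _ _)) h3.le] at h7
        rw [h7]
        refine Finset.sum_congr rfl fun k _ => ?_
        rw [E_mul ((hYr' i k).mono h5.le h4.le) (SR.poly _ _) h3.le, E_poly]
      have h3 : HasDerivAt (fun z => ∑ i, perT (er a m 0) l (i : Fin n) * E (Y i j) z)
          (∑ i, perT (er a m 0) l (i : Fin n) * E (PowerSeries.derivative ℚ (Y i j)) z) z :=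
        HasDerivAt.fun_sum fun i _ => (h1 i).const_mul _
      refine h3.congr_deriv ?_
      unfold vf
      rw [eq_div_iff hz, Finset.sum_mul]
      have h4 : ∀ i, perT (er a m 0) l (i : Fin n) * E (PowerSeries.derivative ℚ (Y i j)) z * aeval z f =
          ∑ k, perT (er a m 0) l (i : Fin n) * (E (Y i k) z * aeval z (cA n f j k)) := by
        intro i
        rw [mul_assoc, mul_comm (E (PowerSeries.derivative ℚ (Y i j)) z), h2 i, Finset.mul_sum]
      rw [Finset.sum_congr rfl fun i _ => h4 i, Finset.sum_comm]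
      refine Finset.sum_congr rfl fun k _ => ?_
      rw [Finset.mul_sum]
      refine Finset.sum_congr rfl fun i _ => ?_
      ring
    · funext j
      have h1 : ∀ i, E (Y i j) 0 = if i = j then 1 else 0 := by
        intro i
        rw [E_zero, PowerSeries.coeff_zero_eq_constantCoeff_apply, hY0]
        split_ifs <;> simp
      simp only [h1]
      simp
  filter_upwards [key, hgap] with z hz hz'
  intro j
  have h1 : perT (er a m z) l (j : Fin n) = ∑ i, perT (er a m 0) l (i : Fin n) * E (Y i j) z := congrFun hz j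
  have h2 : ∀ i : Fin n, RM a m 0 l i = perT (er a m 0) l i := fun i => by
    unfold RM perM
    rw [Matrix.of_apply, per_eq_perT (er_strictMono ha h0)]
  have h3 : RM a m z l j = perT (er a m z) l j := by
    unfold RM perM
    rw [Matrix.of_apply, per_eq_perT (er_strictMono ha hz')]
  rw [h3, h1]
  refine Finset.sum_congr rfl fun i _ => ?_
  rw [h2]

end Pool.Agent.Y118.HG
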