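import Pool.Agent.Y118.HG.Yv
import Pool.Agent.Y118.HG.Bas

/-!
# The symplectic formal solution `Z` and its values
-/

set_option autoImplicit false
set_option maxHeartbeats 400000

open Matrix Polynomial Filter Topology

namespace Pool.Agent.Y118.HG

open Pool.Agent.Y118.HP Pool.Agent.Y113 Pool.Agent.Y37.GF

variable {n : ℕ}

/-- polynomials as power series -/
noncomputable def c0 : ℚ[X] →+* PowerSeries ℚ := Polynomial.coeToPowerSeries.ringHom

theorem c0_apply (p : ℚ[X]) : c0 p = (p : PowerSeries ℚ) := rfl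

/-- the values of a matrix of power series -/
noncomputable def Ez (M : Matrix (Fin n) (Fin n) (PowerSeries ℚ)) (z : ℝ) : Matrix (Fin n) (Fin n) ℝ :=
  M.map fun F => E F z

theorem Ez_apply (M : Matrix (Fin n) (Fin n) (PowerSeries ℚ)) (z : ℝ) (i j : Fin n) : Ez M z i j = E (M i j) z := rfl

/-- entrywise convergence -/
def SRm (r : ℝ) (M : Matrix (Fin n) (Fin n) (PowerSeries ℚ)) : Prop := ∀ i j, SR r (M i j)

variable {r : ℝ} {M N : Matrix (Fin n) (Fin n) (PowerSeries ℚ)}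

theorem SRm.mul (hr : 0 ≤ r) (hM : SRm r M) (hN : SRm r N) : SRm r (M * N) := fun i j => by
  rw [Matrix.mul_apply]
  exact SR.sum _ hr fun k _ => (hM i k).mul hr (hN k j)

theorem Ez_mul (hr : 0 ≤ r) (hM : SRm r M) (hN : SRm r N) {z : ℝ} (hz : |z| ≤ r) : Ez (M * N) z = Ez M z * Ez N z := by
  ext i j
  rw [Ez_apply, Matrix.mul_apply, Matrix.mul_apply, E_sum _ hr (fun k _ => (hM i k).mul hr (hN k j)) hz]
  exact Finset.sum_congr rfl fun k _ => E_mul (hM i k) (hN k j) hz

theorem SRm.poly (P : Matrix (Fin n) (Fin n) ℚ[X]) (r : ℝ) : SRm r (P.map c0) := fun i j => SR.poly (P i j) r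

theorem Ez_poly (P : Matrix (Fin n) (Fin n) ℚ[X]) (z : ℝ) : Ez (P.map c0) z = P.map (aeval z) := by
  ext i j
  exact E_poly (P i j) z

theorem SRm.mono {r' : ℝ} (hM : SRm r M) (h0 : 0 ≤ r') (h : r' ≤ r) : SRm r' M := fun i j => (hM i j).mono h0 h

/-- the value of a monomial -/
theorem SR_mnm (hr : 0 ≤ r) (hM : SRm r M) (s : Fin n × Fin n → ℕ) : SR r (mnm M s) :=
  SR.prod Finset.univ (F := fun x : Fin n × Fin n => M x.1 x.2 ^ s x) hr fun x _ => (hM x.1 x.2).pow hr (s x)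

theorem E_mnm (hr : 0 ≤ r) (hM : SRm r M) (s : Fin n × Fin n → ℕ) {z : ℝ} (hz : |z| ≤ r) :
    E (mnm M s) z = mnm (Ez M z) s := by
  unfold mnm
  rw [E_prod Finset.univ (F := fun x : Fin n × Fin n => M x.1 x.2 ^ s x) hr (fun x _ => (hM x.1 x.2).pow hr (s x)) hz]
  exact Finset.prod_congr rfl fun x _ => E_pow hr (hM x.1 x.2) hz (s x)

/-- the product rule -/
theorem map_d_mul (M N : Matrix (Fin n) (Fin n) (PowerSeries ℚ)) :
    (M * N).map (PowerSeries.derivative ℚ) = M.map (PowerSeries.derivative ℚ) * N + M * N.map (PowerSeries.derivative ℚ) := by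
  ext1 i j
  have h0 : (M * N).map (PowerSeries.derivative ℚ) i j = PowerSeries.derivative ℚ (∑ k, M i k * N k j) := by
    rw [Matrix.map_apply, Matrix.mul_apply]
  have h1 : PowerSeries.derivative ℚ (∑ k, M i k * N k j) = ∑ k, PowerSeries.derivative ℚ (M i k * N k j) :=
    map_sum (PowerSeries.derivative ℚ).toLinearMap _ _
  rw [h0, h1, Matrix.add_apply, Matrix.mul_apply, Matrix.mul_apply, ← Finset.sum_add_distrib]
  refine Finset.sum_congr rfl fun k _ => ?_
  have h := (PowerSeries.derivative ℚ).leibniz (M i k) (N k j)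
  rw [h, Matrix.map_apply, Matrix.map_apply, smul_eq_mul, smul_eq_mul, mul_comm (N k j), add_comm]

/-- the data -/
structure ZDat (n : ℕ) (a : Fin n → ℝ) (m : Fin (n + 1)) (f : ℚ[X]) where
  Z : Matrix (Fin n) (Fin n) (PowerSeries ℚ)
  W : Matrix (Fin n) (Fin n) (PowerSeries ℚ)
  A : Matrix (Fin n) (Fin n) ℚ[X]
  U : Matrix (Fin n) (Fin n) ℚ[X]
  V : Matrix (Fin n) (Fin n) ℚ[X]
  UV : U * V = 1
  VU : V * U = 1
  VJ : V * jm ℚ[X] n * V.transpose = Qp n f
  ode : ∀ i j, (f : PowerSeries ℚ) * PowerSeries.derivative ℚ (Z i j) = ∑ k, Z i k * (A k j : PowerSeries ℚ)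
  WZ : W * Z = 1
  sdZ : ∀ i j, SDc (Z i j)
  sdW : ∀ i j, SDc (W i j)
  zJ : Z * jm (PowerSeries ℚ) n * Z.transpose = jm (PowerSeries ℚ) n
  val : ∀ᶠ z in 𝓝 (0 : ℝ), RM a m z = RM a m 0 * V.map (aeval (0 : ℝ)) * Ez Z z * U.map (aeval z)

theorem SpS_of_eq (hn : Even n) {M0 S : Matrix (Fin n) (Fin n) ℝ} {c : ℝ} (hc : c ≠ 0)
    (h0 : M0 * jm ℝ n * M0.transpose = c • jm ℝ n)
    (h1 : (M0 * S) * jm ℝ n * (M0 * S).transpose = c • jm ℝ n) : S ∈ SpS ℝ n := by
  have hdet : IsUnit M0.det := by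
    rw [isUnit_iff_ne_zero]
    intro h2
    have := congrArg Matrix.det h0
    rw [Matrix.det_mul, Matrix.det_mul, h2, zero_mul, zero_mul, Matrix.det_smul] at this
    exact mul_ne_zero (pow_ne_zero _ hc) (jm_det hn) this.symm
  have h2 : M0⁻¹ * M0 = 1 := nonsing_inv_mul _ hdet
  have h3 : M0.transpose * (M0⁻¹).transpose = 1 := by rw [← Matrix.transpose_mul, h2, Matrix.transpose_one]
  show S * jm ℝ n * S.transpose = jm ℝ n
  calc S * jm ℝ n * S.transpose = (M0⁻¹ * M0) * (S * jm ℝ n * S.transpose) * (M0.transpose * (M0⁻¹).transpose) := by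
        rw [h2, h3, one_mul, mul_one]
    _ = M0⁻¹ * ((M0 * S) * jm ℝ n * (M0 * S).transpose) * (M0⁻¹).transpose := by
        rw [Matrix.transpose_mul]; simp only [Matrix.mul_assoc]
    _ = M0⁻¹ * (M0 * jm ℝ n * M0.transpose) * (M0⁻¹).transpose := by rw [h1, h0]
    _ = (M0⁻¹ * M0) * jm ℝ n * (M0.transpose * (M0⁻¹).transpose) := by simp only [Matrix.mul_assoc]
    _ = jm ℝ n := by rw [h2, h3, one_mul, mul_one]

theorem map_aeval_mul (P Q : Matrix (Fin n) (Fin n) ℚ[X]) (z : ℝ) :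
    (P * Q).map (aeval z) = P.map (aeval z) * Q.map (aeval z) :=
  Matrix.map_mul (f := ((aeval z : ℚ[X] →ₐ[ℚ] ℝ) : ℚ[X] →+* ℝ))

theorem map_aeval_one (z : ℝ) : (1 : Matrix (Fin n) (Fin n) ℚ[X]).map (aeval z) = (1 : Matrix (Fin n) (Fin n) ℝ) :=
  Matrix.map_one _ (map_zero _) (map_one _)

theorem Qp_aeval {V : Matrix (Fin n) (Fin n) ℚ[X]} {f : ℚ[X]} (h : V * jm ℚ[X] n * V.transpose = Qp n f) (z : ℝ) :
    (Qp n f).map (aeval z) = V.map (aeval z) * jm ℝ n * (V.map (aeval z)).transpose := by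
  rw [← h, map_aeval_mul, map_aeval_mul, Matrix.transpose_map]
  congr 2
  exact jm_map ((aeval z : ℚ[X] →ₐ[ℚ] ℝ) : ℚ[X] →+* ℝ)

theorem exists_ZDat (hn : Even n) {a : Fin n → ℝ} (ha : StrictMono a) {m : Fin (n + 1)} {f : ℚ[X]} (h0 : InGap a m 0)
    (hf : f.map (algebraMap ℚ ℝ) = ∏ i, (X - C (a i))) (hf0 : f.coeff 0 ≠ 0) : Nonempty (ZDat n a m f) := by
  classical
  have hmon : f.Monic := by
    have h1 : (f.map (algebraMap ℚ ℝ)).Monic := by
      rw [hf]; exact monic_prod_of_monic _ _ fun i _ => monic_X_sub_C _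
    exact (Polynomial.monic_map_iff).1 h1
  have hdeg : f.natDegree = n := by
    have h1 : (f.map (algebraMap ℚ ℝ)).natDegree = n := by
      rw [hf, natDegree_prod_of_monic _ _ fun i _ => monic_X_sub_C _]
      simp
    rwa [natDegree_map] at h1
  obtain ⟨U, V, hUV, hVU, hVJ⟩ := exists_triv1 hn hdeg hmon
  obtain ⟨Y, hY0, hY1, hY2⟩ := Pool.Agent.Y655.HG.t_form n f hdeg.le hf0
  set Ym : Matrix (Fin n) (Fin n) (PowerSeries ℚ) := Matrix.of Y with hYm
  set U0 : Matrix (Fin n) (Fin n) ℚ[X] := U.map fun p => C (p.eval 0) with hU0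
  set Z : Matrix (Fin n) (Fin n) (PowerSeries ℚ) := U0.map c0 * Ym * V.map c0 with hZ
  have hper := per_val ha h0 hf hf0 hY0 hY1 hY2
  -- values
  obtain ⟨r, hr, hYr⟩ := SDc_SR' (fun p : Fin n × Fin n => Y p.1 p.2) fun p => hY2 p.1 p.2
  have hYr' : SRm r Ym := fun i j => hYr (i, j)
  have hZr : SRm r Z := ((SRm.poly _ _).mul hr.le hYr').mul hr.le (SRm.poly _ _)
  have hsmall : ∀ᶠ z in 𝓝 (0 : ℝ), |z| < r := by
    have : {y : ℝ | |y| < r} ∈ 𝓝 (0 : ℝ) := (isOpen_lt continuous_abs continuous_const).mem_nhds (by simpa using hr)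
    exact this
  have hU0z : ∀ z : ℝ, U0.map (aeval z) = U.map (aeval (0 : ℝ)) := by
    intro z
    ext i j
    simp only [hU0, Matrix.map_apply, aeval_C]
    have := Polynomial.aeval_algebraMap_apply ℝ (0 : ℚ) (U i j)
    simpa [Polynomial.coe_aeval_eq_eval] using this.symm
  have hZv : ∀ z : ℝ, |z| ≤ r → Ez Z z = U.map (aeval (0 : ℝ)) * Ez Ym z * V.map (aeval z) := by
    intro z hz
    rw [hZ, Ez_mul hr.le ((SRm.poly _ _).mul hr.le hYr') (SRm.poly _ _) hz, Ez_mul hr.le (SRm.poly _ _) hYr' hz,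
      Ez_poly, Ez_poly, hU0z]
  have hVU0 : V.map (aeval (0 : ℝ)) * U.map (aeval (0 : ℝ)) = 1 := by rw [← map_aeval_mul, hVU, map_aeval_one]
  have hVUz : ∀ z : ℝ, V.map (aeval z) * U.map (aeval z) = 1 := fun z => by rw [← map_aeval_mul, hVU, map_aeval_one]
  have hUVz : ∀ z : ℝ, U.map (aeval z) * V.map (aeval z) = 1 := fun z => by rw [← map_aeval_mul, hUV, map_aeval_one]
  have hval : ∀ᶠ z in 𝓝 (0 : ℝ), RM a m z = RM a m 0 * V.map (aeval (0 : ℝ)) * Ez Z z * U.map (aeval z) := by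
    filter_upwards [hper, hsmall] with z hz hzr
    rw [hZv z hzr.le]
    have h1 : RM a m 0 * V.map (aeval (0 : ℝ)) * (U.map (aeval (0 : ℝ)) * Ez Ym z * V.map (aeval z)) * U.map (aeval z) =
        RM a m 0 * (V.map (aeval (0 : ℝ)) * U.map (aeval (0 : ℝ))) * Ez Ym z * (V.map (aeval z) * U.map (aeval z)) := by
      simp only [Matrix.mul_assoc]
    rw [h1, hVU0, hVUz, mul_one, mul_one]
    ext l j
    rw [Matrix.mul_apply, hz l j]
    rfl
  -- symplecticity
  set M0 : Matrix (Fin n) (Fin n) ℝ := RM a m 0 * V.map (aeval (0 : ℝ)) with hM0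
  have hM0J : M0 * jm ℝ n * M0.transpose = Real.pi • jm ℝ n := by
    have h1 := RM_leg hn ha hf h0
    rw [Qp_aeval hVJ] at h1
    rw [hM0, Matrix.transpose_mul, ← h1]
    simp only [Matrix.mul_assoc]
  have hgap : ∀ᶠ z in 𝓝 (0 : ℝ), InGap a m z := (isOpen_InGap a m).mem_nhds h0
  have hSp : ∀ᶠ z in 𝓝 (0 : ℝ), Ez Z z ∈ SpS ℝ n := by
    filter_upwards [hval, hgap] with z hz hzg
    refine SpS_of_eq hn Real.pi_ne_zero hM0J ?_
    have h1 := RM_leg hn ha hf hzg
    rw [Qp_aeval hVJ, hz] at h1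
    have h2 : M0 * Ez Z z * U.map (aeval z) * V.map (aeval z) = M0 * Ez Z z := by rw [Matrix.mul_assoc, hUVz, mul_one]
    have h3 : (M0 * Ez Z z * U.map (aeval z) * V.map (aeval z)) * jm ℝ n *
        (M0 * Ez Z z * U.map (aeval z) * V.map (aeval z)).transpose = Real.pi • jm ℝ n := by
      rw [← h1]
      simp only [Matrix.transpose_mul, Matrix.mul_assoc]
    rw [h2] at h3
    exact h3
  have hZJ : Z * jm (PowerSeries ℚ) n * Z.transpose = jm (PowerSeries ℚ) n := by
    obtain ⟨ε, hε, hball⟩ := Metric.eventually_nhds_iff.1 hSp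
    set ρ := min r (ε / 2) with hρ
    have hρ0 : 0 < ρ := lt_min hr (by positivity)
    have hZρ : SRm ρ Z := hZr.mono hρ0.le (min_le_left _ _)
    have hZTρ : SRm ρ Z.transpose := fun i j => hZρ j i
    have hJ : (jm ℚ[X] n).map c0 = jm (PowerSeries ℚ) n := jm_map c0
    have hJρ : SRm ρ (jm (PowerSeries ℚ) n) := by rw [← hJ]; exact SRm.poly _ _
    have hJz : ∀ z, Ez (jm (PowerSeries ℚ) n) z = jm ℝ n := by
      intro z
      rw [← hJ, Ez_poly]
      exact jm_map ((aeval z : ℚ[X] →ₐ[ℚ] ℝ) : ℚ[X] →+* ℝ)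
    ext1 i j
    refine E_ext hρ0 ((hZρ.mul hρ0.le hJρ).mul hρ0.le hZTρ i j) (hJρ i j) fun z hz => ?_
    have h1 : Ez (Z * jm (PowerSeries ℚ) n * Z.transpose) z = Ez (jm (PowerSeries ℚ) n) z := by
      rw [Ez_mul hρ0.le (hZρ.mul hρ0.le hJρ) hZTρ hz.le, Ez_mul hρ0.le hZρ hJρ hz.le, hJz]
      have h2 : Ez Z z ∈ SpS ℝ n := by
        refine hball ?_
        rw [Real.dist_eq, sub_zero]
        have : ρ ≤ ε / 2 := min_le_right _ _
        linarith
      exact h2
    exact congrFun (congrFun h1 i) j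
  -- the inverse
  set J : Matrix (Fin n) (Fin n) (PowerSeries ℚ) := jm (PowerSeries ℚ) n with hJdef
  set Ji : Matrix (Fin n) (Fin n) (PowerSeries ℚ) := ((jm ℚ n)⁻¹).map (PowerSeries.C (R := ℚ)) with hJi
  have hJJ : J * Ji = 1 := by
    have h1 : (jm ℚ n) * (jm ℚ n)⁻¹ = 1 := mul_nonsing_inv _ (jm_det hn).isUnit
    have h2 := congrArg (fun M : Matrix (Fin n) (Fin n) ℚ => M.map (PowerSeries.C (R := ℚ))) h1
    simp only [Matrix.map_mul] at h2
    rw [jm_map] at h2
    rw [hJdef, hJi, h2]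
    exact Matrix.map_one _ (map_zero _) (map_one _)
  set W : Matrix (Fin n) (Fin n) (PowerSeries ℚ) := J * Z.transpose * Ji with hW
  have hZW : Z * W = 1 := by
    rw [hW]
    calc Z * (J * Z.transpose * Ji) = (Z * J * Z.transpose) * Ji := by simp only [Matrix.mul_assoc]
      _ = 1 := by rw [hZJ, hJJ]
  have hWZ : W * Z = 1 := mul_eq_one_comm.1 hZW
  have hsum : ∀ (M N : Matrix (Fin n) (Fin n) (PowerSeries ℚ)), (∀ i j, SDc (M i j)) → (∀ i j, SDc (N i j)) →
      ∀ i j, SDc ((M * N) i j) := by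
    intro M N hM hN i j
    rw [Matrix.mul_apply]
    exact Pool.Agent.Y655.HG.SDc_sum _ _ fun k _ => (hM i k).mul (hN k j)
  have hpoly : ∀ p : ℚ[X], SDc (p : PowerSeries ℚ) := by
    intro p
    have h1 : (p : PowerSeries ℚ) = ∑ k ∈ Finset.range (p.natDegree + 1), PowerSeries.C (p.coeff k) * (PowerSeries.X : PowerSeries ℚ) ^ k := by
      conv_lhs => rw [p.as_sum_range_C_mul_X_pow]
      have h2 : ∀ q : ℚ[X], (q : PowerSeries ℚ) = c0 q := fun q => rfl
      rw [h2, map_sum]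
      refine Finset.sum_congr rfl fun k _ => ?_
      rw [map_mul, map_pow, ← h2, ← h2, Polynomial.coe_C, Polynomial.coe_X]
    rw [h1]
    exact Pool.Agent.Y655.HG.SDc_sum _ _ fun k _ => (Pool.Agent.Y655.HG.SDc_const _).mul (Pool.Agent.Y655.HG.SDc_pow k)
  have hsdZ : ∀ i j, SDc (Z i j) :=
    hsum _ _ (hsum _ _ (fun i j => hpoly (U0 i j)) hY2) (fun i j => hpoly (V i j))
  have hsdJ : ∀ i j, SDc (J i j) := by
    intro i j
    have : J i j = PowerSeries.C (jm ℚ n i j) := by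
      rw [hJdef, ← jm_map (PowerSeries.C (R := ℚ)), Matrix.map_apply]
    rw [this]
    exact Pool.Agent.Y655.HG.SDc_const _
  have hsdW : ∀ i j, SDc (W i j) :=
    hsum _ _ (hsum _ _ hsdJ (fun i j => hsdZ j i)) (fun i j => Pool.Agent.Y655.HG.SDc_const _)
  -- the differential equation
  set A : Matrix (Fin n) (Fin n) ℚ[X] := U * ((Matrix.of fun k j => cA n f j k) * V + f • V.map derivative) with hA
  have hode : ∀ i j, (f : PowerSeries ℚ) * PowerSeries.derivative ℚ (Z i j) = ∑ k, Z i k * (A k j : PowerSeries ℚ) := by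
    have hd0 : (U0.map c0).map (PowerSeries.derivative ℚ) = 0 := by
      ext1 i j
      simp only [hU0, Matrix.map_apply, c0_apply, Polynomial.coe_C, Matrix.zero_apply]
      exact PowerSeries.derivative_C
    have hdV : (V.map c0).map (PowerSeries.derivative ℚ) = (V.map derivative).map c0 := by
      ext1 i j
      simp only [Matrix.map_apply, c0_apply]
      exact PowerSeries.derivative_coe _
    have hdY : (f : PowerSeries ℚ) • Ym.map (PowerSeries.derivative ℚ) = Ym * (Matrix.of fun k j => cA n f j k).map c0 := by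
      ext1 i j
      rw [Matrix.smul_apply, Matrix.map_apply, Matrix.mul_apply, smul_eq_mul]
      exact hY1 i j
    have hUVc : (U.map c0) * (V.map c0) = 1 := by
      rw [← Matrix.map_mul, hUV]
      exact Matrix.map_one _ (map_zero _) (map_one _)
    have hVUc : (V.map c0) * (U.map c0) = 1 := by
      rw [← Matrix.map_mul, hVU]
      exact Matrix.map_one _ (map_zero _) (map_one _)
    have hAc : A.map c0 = U.map c0 * ((Matrix.of fun k j => cA n f j k).map c0 * V.map c0 +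
        (f : PowerSeries ℚ) • (V.map derivative).map c0) := by
      rw [hA, Matrix.map_mul, Matrix.map_add _ (map_add c0), Matrix.map_mul]
      congr 2
      ext1 i j
      simp only [Matrix.map_apply, Matrix.smul_apply, smul_eq_mul, map_mul]
      rfl
    have hmain : (f : PowerSeries ℚ) • Z.map (PowerSeries.derivative ℚ) = Z * A.map c0 := by
      calc (f : PowerSeries ℚ) • Z.map (PowerSeries.derivative ℚ)
          = (f : PowerSeries ℚ) • (U0.map c0 * Ym.map (PowerSeries.derivative ℚ) * V.map c0 +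
              U0.map c0 * Ym * (V.map derivative).map c0) := by
            rw [hZ, map_d_mul, map_d_mul, hd0, zero_mul, zero_add, hdV]
        _ = U0.map c0 * ((f : PowerSeries ℚ) • Ym.map (PowerSeries.derivative ℚ)) * V.map c0 +
              U0.map c0 * Ym * ((f : PowerSeries ℚ) • (V.map derivative).map c0) := by
            rw [smul_add, Matrix.mul_smul, Matrix.mul_smul, Matrix.smul_mul]
        _ = U0.map c0 * Ym * ((Matrix.of fun k j => cA n f j k).map c0 * V.map c0 +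
              (f : PowerSeries ℚ) • (V.map derivative).map c0) := by
            rw [hdY, Matrix.mul_add]
            simp only [Matrix.mul_assoc]
        _ = U0.map c0 * Ym * (V.map c0 * U.map c0) * ((Matrix.of fun k j => cA n f j k).map c0 * V.map c0 +
              (f : PowerSeries ℚ) • (V.map derivative).map c0) := by
            rw [hVUc, mul_one]
        _ = Z * A.map c0 := by
            rw [hAc, hZ]
            simp only [Matrix.mul_assoc]
    intro i j
    have h1 := congrFun (congrFun hmain i) j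
    rw [Matrix.smul_apply, Matrix.map_apply, Matrix.mul_apply, smul_eq_mul] at h1
    exact h1
  exact ⟨⟨Z, W, A, U, V, hUV, hVU, hVJ, hode, hWZ, hsdZ, hsdW, hZJ, hval⟩⟩

end Pool.Agent.Y118.HG
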