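import Pool.Agent.Y118.HG.Zm

/-!
# The shifts of the formal solution
-/

set_option autoImplicit false
set_option maxHeartbeats 400000

open Matrix Polynomial Filter Topology

namespace Pool.Agent.Y118.HG

open Pool.Agent.Y118.HP Pool.Agent.Y113 Pool.Agent.Y37.GF

variable {n : ℕ}

/-- values of the shifts -/
theorem E_ph' (g : ℕ) {ρ : ℝ} (h0 : 0 < ρ) (h1 : ρ ≤ 1) {F : PowerSeries ℚ} (hF : SR ρ F) :
    SR (ρ / ((g : ℝ) + 8)) (F.subst (sh g)) ∧
    ∀ z, |z| ≤ ρ / ((g : ℝ) + 8) → E (F.subst (sh g)) z = E F (z / (1 - g * z)) := by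
  have h8 : (0 : ℝ) < (g : ℝ) + 8 := by positivity
  have hg : (0 : ℝ) ≤ (g : ℝ) := by positivity
  have hle : ρ / ((g : ℝ) + 8) ≤ 1 / ((g : ℝ) + 8) := div_le_div_of_nonneg_right h1 h8.le
  have hr0 : 0 < ρ / ((g : ℝ) + 8) := by positivity
  have hE : E (sh g) (ρ / ((g : ℝ) + 8)) ≤ ρ := by
    have habs : |ρ / ((g : ℝ) + 8)| ≤ 1 / ((g : ℝ) + 8) := by rwa [abs_of_pos hr0]
    rw [E_sh g habs, div_le_iff₀ (gz_pos g habs)]
    have h2 : ρ / ((g : ℝ) + 8) * ((g : ℝ) + 8) = ρ := by field_simp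
    nlinarith [mul_nonneg hg hr0.le]
  have h := subst_main (f := F) (Pool.Agent.Y113.hasSubst_sh g) (coeff_sh_nonneg g) hr0.le ((SR_sh g).mono hr0.le hle) hE hF
  exact ⟨h.1, fun z hz => by rw [h.2 z hz, E_sh g (hz.trans hle)]⟩

/-- the shift as a ring homomorphism -/
noncomputable def shH (g : ℕ) : PowerSeries ℚ →+* PowerSeries ℚ :=
  ((PowerSeries.substAlgHom (Pool.Agent.Y113.hasSubst_sh g) : PowerSeries ℚ →ₐ[ℚ] PowerSeries ℚ) : PowerSeries ℚ →+* PowerSeries ℚ)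

theorem shH_apply (g : ℕ) (F : PowerSeries ℚ) : shH g F = F.subst (sh g) := by
  unfold shH
  rw [RingHom.coe_coe, PowerSeries.coe_substAlgHom]

theorem shH_C (g : ℕ) (c : ℚ) : shH g (PowerSeries.C c) = PowerSeries.C c := by
  unfold shH
  rw [RingHom.coe_coe]
  exact AlgHom.commutes _ c

/-- the shifted matrix -/
noncomputable def Zg (Z : Matrix (Fin n) (Fin n) (PowerSeries ℚ)) (g : ℕ) : Matrix (Fin n) (Fin n) (PowerSeries ℚ) :=
  Z.map (shH g)

theorem Zg_apply (Z : Matrix (Fin n) (Fin n) (PowerSeries ℚ)) (g : ℕ) (i j : Fin n) :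
    Zg Z g i j = (Z i j).subst (sh g) := shH_apply g _

theorem Zg_SRm (g : ℕ) {ρ : ℝ} (h0 : 0 < ρ) (h1 : ρ ≤ 1) {Z : Matrix (Fin n) (Fin n) (PowerSeries ℚ)} (hZ : SRm ρ Z) :
    SRm (ρ / ((g : ℝ) + 8)) (Zg Z g) := fun i j => by
  rw [Zg_apply]
  exact (E_ph' g h0 h1 (hZ i j)).1

theorem Zg_Ez (g : ℕ) {ρ : ℝ} (h0 : 0 < ρ) (h1 : ρ ≤ 1) {Z : Matrix (Fin n) (Fin n) (PowerSeries ℚ)} (hZ : SRm ρ Z)
    {z : ℝ} (hz : |z| ≤ ρ / ((g : ℝ) + 8)) : Ez (Zg Z g) z = Ez Z (z / (1 - g * z)) := by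
  ext i j
  rw [Ez_apply, Ez_apply, Zg_apply]
  exact (E_ph' g h0 h1 (hZ i j)).2 z hz

/-- the identities between the monomials -/
theorem mnm_id {Z : Matrix (Fin n) (Fin n) (PowerSeries ℚ)}
    (hJ : Z * jm (PowerSeries ℚ) n * Z.transpose = jm (PowerSeries ℚ) n) {ρ : ℝ} (h0 : 0 < ρ) (hZ : SRm ρ Z)
    {κ : Type} [Fintype κ] {b : κ → Fin n × Fin n → ℕ} {w : (Fin n × Fin n → ℕ) → κ → ℚ} {D : ℕ}
    (hw : ∀ s, dg s ≤ D → ∀ g ∈ SpS ℂ n, mnm g s = ∑ k, (w s k : ℂ) * mnm g (b k))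
    (s : Fin n × Fin n → ℕ) (hs : dg s ≤ D) (g : ℕ) :
    mnm (Zg Z g) s = ∑ k, PowerSeries.C (w s k) * mnm (Zg Z g) (b k) := by
  have hJ0 : (jm ℚ[X] n).map c0 = jm (PowerSeries ℚ) n := jm_map c0
  have hJr : ∀ r, SRm r (jm (PowerSeries ℚ) n) := fun r => by rw [← hJ0]; exact SRm.poly _ _
  have hJz : ∀ z, Ez (jm (PowerSeries ℚ) n) z = jm ℝ n := by
    intro z
    rw [← hJ0, Ez_poly]
    exact jm_map ((aeval z : ℚ[X] →ₐ[ℚ] ℝ) : ℚ[X] →+* ℝ)
  have hZT : SRm ρ Z.transpose := fun i j => hZ j i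
  have hbase : mnm Z s = ∑ k, PowerSeries.C (w s k) * mnm Z (b k) := by
    refine E_ext h0 (SR_mnm h0.le hZ s) (SR.sum _ h0.le fun k _ => (SR.C _ _).mul h0.le (SR_mnm h0.le hZ (b k)))
      fun z hz => ?_
    rw [E_mnm h0.le hZ s hz.le, E_sum _ h0.le (fun k _ => (SR.C _ _).mul h0.le (SR_mnm h0.le hZ (b k))) hz.le]
    have hsp : Ez Z z ∈ SpS ℝ n := by
      show Ez Z z * jm ℝ n * (Ez Z z).transpose = jm ℝ n
      have h1 : Ez (Z * jm (PowerSeries ℚ) n * Z.transpose) z = Ez (jm (PowerSeries ℚ) n) z := by rw [hJ]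
      rw [Ez_mul h0.le (hZ.mul h0.le (hJr _)) hZT hz.le, Ez_mul h0.le hZ (hJr _) hz.le, hJz] at h1
      exact h1
    have h2 := hw s hs _ (SpS_map (algebraMap ℝ ℂ) hsp)
    rw [mnm_map] at h2
    have h3 : (algebraMap ℝ ℂ) (mnm (Ez Z z) s) = (algebraMap ℝ ℂ) (∑ k, (w s k : ℝ) * mnm (Ez Z z) (b k)) := by
      rw [h2, map_sum]
      refine Finset.sum_congr rfl fun k _ => ?_
      rw [map_mul, mnm_map]
      simp
    have h4 := (algebraMap ℝ ℂ).injective h3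
    rw [h4]
    refine Finset.sum_congr rfl fun k _ => ?_
    rw [E_mul (SR.C _ _) (SR_mnm h0.le hZ (b k)) hz.le, E_C, E_mnm h0.le hZ (b k) hz.le]
  unfold Zg
  rw [mnm_map, hbase, map_sum]
  refine Finset.sum_congr rfl fun k _ => ?_
  rw [map_mul, shH_C, mnm_map]

/-- independence of the products -/
theorem prod_indep {A : Type*} {𝒮 : Set A} {κ : Type} [Fintype κ] (φ : κ → A → ℂ)
    (h : ∀ x : κ → ℂ, (∀ a ∈ 𝒮, ∑ k, x k * φ k a = 0) → x = 0) (N : ℕ) :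
    ∀ x : (Fin N → κ) → ℂ, (∀ a : Fin N → A, (∀ l, a l ∈ 𝒮) → ∑ e, x e * ∏ l, φ (e l) (a l) = 0) → x = 0 := by
  induction N with
  | zero =>
    intro x hx
    funext e
    have h1 := hx (fun l => l.elim0) (fun l => l.elim0)
    rw [Fintype.sum_eq_single e (fun e' he' => absurd (Subsingleton.elim e' e) he')] at h1
    simpa using h1
  | succ N ih =>
    intro x hx
    have key : ∀ k : κ, (fun e' : Fin N → κ => x (Fin.cons k e')) = 0 := by
      intro k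
      refine ih _ fun a' ha' => ?_
      have h1 := h (fun k => ∑ e' : Fin N → κ, x (Fin.cons k e') * ∏ l, φ (e' l) (a' l)) fun a ha => by
        have h2 := hx (Fin.cons a a') (fun l => by
          refine Fin.cases ?_ (fun l => ?_) l
          · simpa using ha
          · simpa using ha' l)
        rw [← (Fin.consEquiv fun _ : Fin (N + 1) => κ).sum_comp, Fintype.sum_prod_type] at h2
        rw [← h2]
        refine Finset.sum_congr rfl fun k _ => ?_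
        rw [Finset.sum_mul]
        refine Finset.sum_congr rfl fun e' _ => ?_
        have h3 : (Fin.consEquiv fun _ : Fin (N + 1) => κ) (k, e') = (Fin.cons k e' : Fin (N + 1) → κ) := rfl
        rw [h3, Fin.prod_univ_succ]
        simp only [Fin.cons_zero, Fin.cons_succ]
        ring
      exact congrFun h1 k
    funext e
    have := congrFun (key (e 0)) (Fin.tail e)
    simp only [Fin.cons_self_tail] at this
    exact this

end Pool.Agent.Y118.HG
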